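import Pool.Agent.P.MP_8c536d_lc.Program
import Pool.Agent.P.MP_8c536d_lc.Gadget

/-!
Correctness of the reduction.
-/

namespace Pool.Agent.P.MP_8c536d_lc

open Finset

/-- tuple of a label -/
def encL : Lab Gad → Tup
  | .pad => (0, 0, 0, 0, 0)
  | .core => (1, 0, 0, 0, 0)
  | .sel p => (2, p.1, p.2, 0, 0)
  | .gad c e => (3, c, e)

/-- the list of labels -/
def labsI (n K D C M B P Z : ℕ) : List (Lab Gad) :=
  List.replicate P .pad ++ List.replicate Z .core ++
    ((List.range K).flatMap fun r => (List.range D).map fun x => Lab.sel (r, x)) ++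
    (List.range C).flatMap fun c => (List.range D).flatMap fun x => (List.range n).flatMap fun u =>
      (List.range n).flatMap fun w => List.replicate (M * B ^ c) (Lab.gad c (x, u, w))

theorem labsT_eq {U : List Unit} {n K D C M B P Z : ℕ} (hn : n ≤ U.length) (hK : K ≤ U.length)
    (hD : D ≤ U.length) (hC : C ≤ U.length) (hP : P ≤ U.length) (hZ : Z ≤ U.length)
    (hM : ∀ c < C, M * B ^ c ≤ U.length) :
    labsT U n K D C M B P Z = (labsI n K D C M B P Z).map encL := by
  unfold labsT labsI
  simp only [List.map_append, List.map_replicate, List.map_flatMap, List.map_map, rng_eq hn,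
    rng_eq hK, rng_eq hD, rng_eq hC, rep_eq _ hP, rep_eq _ hZ]
  congr 1
  refine List.flatMap_congr (fun c hc => ?_)
  have hc := List.mem_range.1 hc
  rw [pw_eq _ (hc.le.trans hC)]
  simp only [rep_eq _ (hM c hc)]
  rfl

theorem sum_map_range (f : ℕ → ℕ) (n : ℕ) : ((List.range n).map f).sum = ∑ i ∈ range n, f i := by
  induction n with
  | zero => simp
  | succ n ih => simp [List.range_succ, sum_range_succ, ih]

theorem sum_map_flatMap_range {β : Type} (g : β → ℕ) (f : ℕ → List β) (n : ℕ) :
    (((List.range n).flatMap f).map g).sum = ∑ i ∈ range n, ((f i).map g).sum := by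
  induction n with
  | zero => simp
  | succ n ih => simp [List.range_succ, sum_range_succ, List.flatMap_append, ← ih]

theorem sum_labsI (g : Lab Gad → ℕ) (n K D C M B P Z : ℕ) :
    ((labsI n K D C M B P Z).map g).sum = P * g .pad + Z * g .core +
      ∑ p ∈ range K ×ˢ range D, g (.sel p) +
      ∑ c ∈ range C, ∑ e ∈ range D ×ˢ range n ×ˢ range n, M * B ^ c * g (.gad c e) := by
  unfold labsI
  simp only [List.map_append, List.sum_append, List.map_replicate, List.sum_replicate,
    smul_eq_mul, sum_map_flatMap_range, List.map_map, sum_map_range, sum_product,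
    Function.comp_def]

theorem card_label {β : Type} [DecidableEq β] (L : List β) (l : β) :
    (univ.filter fun v : Fin L.length => L[v] = l).card
      = (L.map fun a => if a = l then 1 else 0).sum := by
  rw [card_filter, ← Fin.sum_univ_fun_getElem]
  rfl

/-- the graph on a list of labels -/
def gadGraph (L : List (Lab Gad)) (ok : ℕ → Gad → Prop) (att : ℕ → Gad → ℕ × ℕ → Prop) :
    SimpleGraph (Fin L.length) where
  Adj a b := a ≠ b ∧ Rel ok att L[a] L[b]
  symm := ⟨fun _ _ h => ⟨h.1.symm, h.2.symm⟩⟩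
  loopless := ⟨fun _ h => h.1 rfl⟩

theorem length_labsI (n K D C M B P Z : ℕ) :
    (labsI n K D C M B P Z).length = P + Z + K * D + D * n * n * (M * ∑ c ∈ range C, B ^ c) := by
  have := sum_labsI (fun _ => 1) n K D C M B P Z
  simp only [List.map_const', List.sum_replicate, smul_eq_mul, mul_one, sum_const, card_product,
    card_range] at this
  rw [this, ← mul_sum, ← mul_sum]
  ring

theorem isGadget (n K D C : ℕ) (ok : ℕ → Gad → Prop) (att : ℕ → Gad → ℕ × ℕ → Prop)
    (M B W P Z : ℕ) (hM : M = 2 * K + 1) (hB : B = 2 * K * (2 * K) * (2 * K) + 2)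
    (hW : W = M * ∑ c ∈ range C, B ^ c) (hP : P = 2 * K + 2 + K * D + D * n * n * W)
    (hZ : Z = 2 * W + 3 * K + 2) :
    IsGadget (gadGraph (labsI n K D C M B P Z) ok att) (fun v => (labsI n K D C M B P Z)[v])
      K C M B P Z (range K ×ˢ range D) (range D ×ˢ range n ×ˢ range n) ok att where
  adj := fun _ _ => Iff.rfl
  cpad := by rw [card_label, sum_labsI]; simp
  ccore := by rw [card_label, sum_labsI]; simp
  csel := fun p => by
    rw [card_label, sum_labsI]
    simp only [reduceCtorEq, if_false, mul_zero, zero_add, sum_const_zero, add_zero,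
      Lab.sel.injEq]
    rw [sum_ite_eq']
  cgad := fun c e => by
    rw [card_label, sum_labsI]
    simp only [reduceCtorEq, if_false, mul_zero, zero_add, sum_const_zero, Lab.gad.injEq, mul_ite,
      mul_one, ite_and]
    rw [sum_congr rfl (g := fun x => if x = c then
      (if e ∈ range D ×ˢ range n ×ˢ range n then M * B ^ c else 0) else 0), sum_ite_eq']
    · simp only [mem_range]
    · intro x _
      by_cases hx : x = c
      · subst hx
        simp only [if_true]
        rw [sum_ite_eq']
      · simp [hx]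
  hN := by rw [length_labsI, ← hW]; omega
  hP := by omega
  hZ := by rw [← hW]; omega
  hM := by omega
  hB := by omega

theorem half_iff (U : List Unit) (n q D : ℕ) (mat : List Bool) (cls : List Cls) (a b : Lab Gad) :
    (halfB U n q D mat cls (encL a) (encL b) || halfB U n q D mat cls (encL b) (encL a)) = true ↔
      Rel (fun c e => okB n D mat (cls.getD c (0, 0, 0, 0, 0)) e = true)
        (fun c e p => attB U q (cls.getD c (0, 0, 0, 0, 0)) e p = true) a b := by
  cases a <;> cases b <;> simp [halfB, encL, Rel]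
  tauto

theorem zipIdx_eq_map {β : Type} (L : List β) :
    L.zipIdx = (List.finRange L.length).map fun i => (L[i], i.val) := by
  apply List.ext_getElem
  · simp
  · intro i h1 h2
    simp

theorem codeT_eq {U : List Unit} (n q D : ℕ) {K : ℕ} (hK : K ≤ U.length) (mat : List Bool)
    (cls : List Cls) (L : List (Lab Gad)) :
    codeT U n q K D mat cls (L.map encL) = code L.length
      (gadGraph L (fun c e => okB n D mat (cls.getD c (0, 0, 0, 0, 0)) e = true)
        (fun c e p => attB U q (cls.getD c (0, 0, 0, 0, 0)) e p = true)) K := by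
  unfold codeT code
  rw [rep_eq _ hK, List.zipIdx_map, zipIdx_eq_map, List.map_const', List.length_map]
  simp only [List.map_map, List.flatMap_map]
  congr 1
  refine List.flatMap_congr (fun i _ => List.map_congr_left (fun j _ => ?_))
  rw [Bool.eq_iff_iff]
  simp only [Function.comp_apply, Prod.map_fst, Prod.map_snd, id, Bool.and_eq_true, half_iff,
    decide_eq_true_eq, gadGraph, bne_iff_ne, ne_eq, Fin.val_inj]

theorem mem_clsT {U : List Unit} {k q : ℕ} (hk : k ≤ U.length) (hq : q ≤ U.length)
    (hK : q ^ k ≤ U.length) (t : Cls) : t ∈ clsT U k q ↔ Valid k q t := by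
  obtain ⟨r, i, j, a, b⟩ := t
  unfold clsT
  rw [pw_eq _ hk, rng_eq hK, rng_eq hk, rng_eq hq]
  simp only [List.mem_filter, List.mem_flatMap, List.mem_range, List.mem_map, Prod.mk.injEq,
    validB, Valid, Bool.and_eq_true, Nat.ble_eq, Nat.blt_eq]
  constructor
  · rintro ⟨⟨r', hr, i', hi, j', hj, a', ha, b', hb, rfl, rfl, rfl, rfl, rfl⟩, ⟨⟨h1, h2⟩, h3⟩, h4⟩
    rw [pw_eq _ (hi.le.trans hk)] at h3
    rw [pw_eq _ (hj.le.trans hk)] at h4
    exact ⟨hr, hi, hj, h1, h2, h3, h4⟩
  · rintro ⟨hr, hi, hj, h1, h2, h3, h4⟩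
    rw [pw_eq _ (hi.le.trans hk), pw_eq _ (hj.le.trans hk)]
    exact ⟨⟨r, hr, i, hi, j, hj, a, by omega, b, by omega, rfl, rfl, rfl, rfl, rfl⟩,
      ⟨⟨h1, h2⟩, h3⟩, h4⟩

theorem length_clsT_le {U : List Unit} {k q : ℕ} (hk : k ≤ U.length) (hq : q ≤ U.length)
    (hK : q ^ k ≤ U.length) : (clsT U k q).length ≤ q ^ k * k * k * q * q := by
  unfold clsT
  rw [pw_eq _ hk, rng_eq hK, rng_eq hk, rng_eq hq]
  refine (List.length_filter_le _ _).trans (le_of_eq ?_)
  simp only [List.length_flatMap, List.length_map, List.length_range, List.map_const',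
    List.sum_replicate, smul_eq_mul]
  ring

theorem okB_iff (n D : ℕ) (mat : List Bool) (t : Cls) (e : Gad) :
    okB n D mat t e = true ↔ OkT (fun u w => mat.getD (u * n + w) false = true) D t e := by
  simp [okB, OkT, and_assoc]

theorem attB_iff {U : List Unit} {k q : ℕ} (hk : k ≤ U.length) {t : Cls} (ht : Valid k q t)
    (e : Gad) (p : ℕ × ℕ) : attB U q t e p = true ↔ AttT q t e p := by
  unfold attB AttT
  rw [pw_eq _ (ht.2.1.le.trans hk), pw_eq _ (ht.2.2.1.le.trans hk)]
  simp [or_assoc]

theorem getD_flatMap {β : Type} (n : ℕ) (f : β → List Bool) (hf : ∀ b, (f b).length = n)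
    (l : List β) : ∀ (u : ℕ) (hu : u < l.length) (w : ℕ), w < n →
      (l.flatMap f).getD (u * n + w) false = (f l[u]).getD w false := by
  induction l with
  | nil => intro u hu; simp at hu
  | cons b l ih =>
    intro u hu w hw
    rw [List.flatMap_cons]
    cases u with
    | zero =>
      simp only [zero_mul, zero_add, List.getElem_cons_zero]
      rw [List.getD_append _ _ _ _ (by rw [hf]; exact hw)]
    | succ u =>
      rw [List.getD_append_right _ _ _ _ (by rw [hf]; nlinarith), hf]
      have e : (u + 1) * n + w - n = u * n + w := by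
        rw [add_mul, one_mul]; omega
      rw [e, ih u (by simpa using hu) w hw]
      simp

open Classical in
/-- the adjacency matrix -/
noncomputable def matOf (n : ℕ) (G : SimpleGraph (Fin n)) : List Bool :=
  (List.finRange n).flatMap fun i => (List.finRange n).map fun j => decide (G.Adj i j)

theorem matOf_getD {n : ℕ} (G : SimpleGraph (Fin n)) {u w : ℕ} (hu : u < n) (hw : w < n) :
    (matOf n G).getD (u * n + w) false = true ↔ G.Adj ⟨u, hu⟩ ⟨w, hw⟩ := by
  unfold matOf
  rw [getD_flatMap n _ (by simp) _ u (by simpa using hu) w hw]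
  simp [List.getD_eq_getElem?_getD, hw]

theorem clique_iff {n : ℕ} (G : SimpleGraph (Fin n)) (k : ℕ) :
    (∃ S : Finset (Fin n), G.IsNClique k S) ↔ ∃ v : ℕ → ℕ, (∀ i < k, v i < n) ∧
      ∀ i < k, ∀ j < k, i ≠ j → (matOf n G).getD (v i * n + v j) false = true := by
  constructor
  · rintro ⟨S, hS, hc⟩
    let e := S.equivFinOfCardEq hc
    refine ⟨fun i => if h : i < k then ((e.symm ⟨i, h⟩ : S) : Fin n).val else 0, ?_, ?_⟩
    · intro i hi
      simp only [dif_pos hi]
      exact Fin.is_lt _
    · intro i hi j hj hij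
      simp only [dif_pos hi, dif_pos hj]
      rw [matOf_getD G (Fin.is_lt _) (Fin.is_lt _)]
      refine hS (e.symm ⟨i, hi⟩).2 (e.symm ⟨j, hj⟩).2 (fun h => hij ?_)
      have := e.symm.injective (Subtype.ext h)
      exact congrArg Fin.val this
  · rintro ⟨v, hv, hadj⟩
    have hA : ∀ i j : Fin k, i ≠ j → G.Adj ⟨v i, hv i i.2⟩ ⟨v j, hv j j.2⟩ := fun i j hij =>
      (matOf_getD G _ _).1 (hadj i i.2 j j.2 (fun h => hij (Fin.ext h)))
    refine ⟨univ.image fun i : Fin k => (⟨v i, hv i i.2⟩ : Fin n), ?_, ?_⟩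
    · intro a ha b hb hab
      obtain ⟨i, -, rfl⟩ := mem_image.1 (mem_coe.1 ha)
      obtain ⟨j, -, rfl⟩ := mem_image.1 (mem_coe.1 hb)
      exact hA i j (fun h => hab (by rw [h]))
    · rw [card_image_of_injective _ (fun i j h => by
        by_contra hij
        exact (hA i j hij).ne h)]
      simp

end Pool.Agent.P.MP_8c536d_lc
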