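import Mathlib

namespace Pool.Agent.P.MP_8c536d_lc

open Classical in
/-- The code of an instance `(G, k)`: `n` and `k` in unary, then the adjacency matrix by rows. -/
noncomputable def code (n : ℕ) (G : SimpleGraph (Fin n)) (k : ℕ) : List Bool :=
  List.replicate n true ++ [false] ++ List.replicate k true ++ [false] ++
    (List.finRange n).flatMap fun i => (List.finRange n).map fun j => decide (G.Adj i j)

/-- `S` is a vertex bisector of `G`. -/
def IsBisector {n : ℕ} (G : SimpleGraph (Fin n)) (S : Finset (Fin n)) : Prop :=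
  ∃ V₁ V₂ : Finset (Fin n), Disjoint V₁ V₂ ∧ V₁ ∪ V₂ = Finset.univ \ S ∧
    |(V₁.card : ℤ) - (V₂.card : ℤ)| ≤ 1 ∧ ∀ u ∈ V₁, ∀ v ∈ V₂, ¬ G.Adj u v

/-- A Turing machine, started on the fixed word `w` followed by the code of `(G, k)`, halts with
an output accepted by `Good` within `f k * (n + 1) ^ c` steps, for a computable `f`. -/
def SolvableFPT (w : List Bool)
    (Good : (n : ℕ) → SimpleGraph (Fin n) → ℕ → List Bool → Prop) : Prop :=
  ∃ (tm : Turing.FinTM2) (e₀ : tm.Γ tm.k₀ ≃ Bool) (e₁ : tm.Γ tm.k₁ ≃ Bool) (f : ℕ → ℕ) (c : ℕ),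
    (∀ s, Finite (tm.Γ s)) ∧ Computable f ∧
    ∀ (n : ℕ) (G : SimpleGraph (Fin n)) (k : ℕ), ∃ out : List Bool, Good n G k out ∧
      Nonempty (Turing.TM2OutputsInTime tm ((w ++ code n G k).map e₀.symm)
        (some (out.map e₁.symm)) (f k * (n + 1) ^ c))

/-- Correct outputs of a `(1 + ε)`-approximation of Vertex Bisection. -/
def ApproxAnswer (ε : ℝ) (n : ℕ) (G : SimpleGraph (Fin n)) (k : ℕ) (out : List Bool) : Prop :=
  (∃ S : Finset (Fin n), IsBisector G S ∧ (S.card : ℝ) ≤ (1 + ε) * k ∧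
      out = true :: (List.finRange n).map fun i => decide (i ∈ S)) ∨
    (out = [false] ∧ ¬ ∃ S : Finset (Fin n), IsBisector G S ∧ S.card ≤ k)

/-- Correct outputs for the decision problem `k`-Clique. -/
def CliqueAnswer (n : ℕ) (G : SimpleGraph (Fin n)) (k : ℕ) (out : List Bool) : Prop :=
  (out = [true] ∧ ∃ S : Finset (Fin n), G.IsNClique k S) ∨
    (out = [false] ∧ ¬ ∃ S : Finset (Fin n), G.IsNClique k S)

end Pool.Agent.P.MP_8c536d_lc
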