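import Pool.Agent.P.MP_8c536d_lc.Gadget

/-!
The weighted gadget graph with an arbitrary bound `L` on the number of deleted vertices.
-/

namespace Pool.Agent.P.MP_8c536d_lc

open Finset

/-- the data of a gadget graph -/
structure IsGadgetL {γ : Type} [DecidableEq γ] {N : ℕ} (H : SimpleGraph (Fin N))
    (τ : Fin N → Lab γ) (K L C M B P Z : ℕ) (Sel : Finset (ℕ × ℕ)) (Gd : Finset γ)
    (ok : ℕ → γ → Prop) (att : ℕ → γ → ℕ × ℕ → Prop) : Prop where
  adj : ∀ a b, H.Adj a b ↔ a ≠ b ∧ Rel ok att (τ a) (τ b)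
  cpad : (univ.filter fun v => τ v = .pad).card = P
  ccore : (univ.filter fun v => τ v = .core).card = Z
  csel : ∀ p, (univ.filter fun v => τ v = .sel p).card = if p ∈ Sel then 1 else 0
  cgad : ∀ c e, (univ.filter fun v => τ v = .gad c e).card
    = if c < C ∧ e ∈ Gd then M * B ^ c else 0
  hN : N = 2 * P + 2 * (M * ∑ c ∈ range C, B ^ c) + K
  hZ : 2 * (M * ∑ c ∈ range C, B ^ c) + K + L + 1 < Z
  hM : K + L < M
  hB : 1 < B

namespace IsGadgetL

variable {γ : Type} [DecidableEq γ] {N : ℕ} {H : SimpleGraph (Fin N)}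
  {τ : Fin N → Lab γ} {K L C M B P Z : ℕ} {Sel : Finset (ℕ × ℕ)} {Gd : Finset γ}
  {ok : ℕ → γ → Prop} {att : ℕ → γ → ℕ × ℕ → Prop}

theorem card_side (h : IsGadgetL H τ K L C M B P Z Sel Gd ok att) (T : Finset (ℕ × γ))
    (hT : ∀ g ∈ T, g.1 < C ∧ g.2 ∈ Gd) :
    (univ.filter fun v => τ v ∈ insert Lab.pad (T.image fun g => Lab.gad g.1 g.2)).card
      = P + M * ∑ g ∈ T, B ^ g.1 := by
  rw [← sum_card_fiberwise_eq_card_filter, sum_insert (by simp), h.cpad,
    sum_image (fun a _ b _ hab => by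
      simp only [Lab.gad.injEq] at hab
      exact Prod.ext hab.1 hab.2), mul_sum]
  congr 1
  refine sum_congr rfl (fun g hg => ?_)
  rw [h.cgad, if_pos (hT g hg)]

theorem complete [Inhabited γ] (h : IsGadgetL H τ K L C M B P Z Sel Gd ok att) (Del : Finset (ℕ × ℕ))
    (hsub : Del ⊆ Sel) (hcard : Del.card = K)
    (hp : ∀ c < C, ∃ e ∈ Gd, ok c e ∧ ∀ p ∈ Sel, att c e p → p ∈ Del) :
    ∃ S : Finset (Fin N), IsBisector H S ∧ S.card ≤ K := by
  choose! pick hpG hpok hpatt using hp
  set T : Finset (ℕ × γ) := (range C).image fun c => (c, pick c) with hTdef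
  have hT : ∀ g ∈ T, g.1 < C ∧ g.2 ∈ Gd := by
    intro g hg
    obtain ⟨c, hc, rfl⟩ := mem_image.1 hg
    exact ⟨mem_range.1 hc, hpG c (mem_range.1 hc)⟩
  set S : Finset (Fin N) := univ.filter fun v => τ v ∈ Del.image Lab.sel with hS
  set V₁ : Finset (Fin N) :=
    univ.filter fun v => τ v ∈ insert Lab.pad (T.image fun g => Lab.gad g.1 g.2) with hV₁
  have cS : S.card = K := by
    rw [hS, ← sum_card_fiberwise_eq_card_filter,
      sum_image (fun a _ b _ hab => by simpa using hab), ← hcard, card_eq_sum_ones]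
    refine sum_congr rfl (fun p hp => ?_)
    rw [h.csel, if_pos (hsub hp)]
  have c1 : V₁.card = P + M * ∑ c ∈ range C, B ^ c := by
    rw [hV₁, h.card_side T hT, hTdef,
      sum_image (fun a _ b _ hab => (Prod.ext_iff.1 hab).1)]
  have hd : Disjoint S V₁ := by
    rw [disjoint_left]
    intro v hv hv'
    simp only [hS, hV₁, mem_filter, mem_univ, true_and, mem_image, mem_insert] at hv hv'
    obtain ⟨p, -, hp⟩ := hv
    rw [← hp] at hv'
    simp at hv'
  have c2 : (univ \ (S ∪ V₁)).card = P + M * ∑ c ∈ range C, B ^ c := by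
    rw [card_univ_sdiff, card_union_of_disjoint hd, cS, c1, Fintype.card_fin]
    have := h.hN
    omega
  refine ⟨S, ⟨V₁, univ \ (S ∪ V₁), ?_, ?_, ?_, ?_⟩, cS.le⟩
  · exact disjoint_left.2 (fun v hv hv' => by simp [hv] at hv')
  · ext v
    have : v ∈ S → v ∉ V₁ := fun hv => disjoint_left.1 hd hv
    simp only [mem_union, mem_sdiff, mem_univ, true_and, not_or]
    tauto
  · rw [c1, c2]; simp
  · intro u hu v hv hadj
    have hrel := ((h.adj u v).1 hadj).2
    simp only [hS, hV₁, hTdef, mem_filter, mem_univ, true_and, mem_image, mem_insert, mem_sdiff,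
      mem_union, not_or, not_exists, not_and, mem_range] at hu hv
    obtain ⟨hv1, hv2, hv3⟩ := hv
    rcases hu with hu | ⟨g, ⟨c, hc, rfl⟩, hu⟩
    · rw [hu] at hrel
      cases hτ : τ v <;> simp_all [Rel]
    · rw [← hu] at hrel
      cases hτ : τ v with
      | pad => exact hv2 hτ
      | core => rw [hτ] at hrel; exact hrel (hpok c hc)
      | sel p =>
        rw [hτ] at hrel
        have hp : p ∈ Sel := by
          by_contra hp
          have h0 := h.csel p
          rw [if_neg hp, card_eq_zero] at h0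
          have : v ∈ (univ.filter fun v => τ v = .sel p) := by simp [hτ]
          rw [h0] at this
          simp at this
        exact hv1 p (hpatt c hc p hp hrel) hτ.symm
      | gad c' e' =>
        rw [hτ] at hrel
        obtain ⟨rfl, rfl⟩ := hrel
        exact hv3 _ ⟨c, hc, rfl⟩ hτ.symm

theorem sound_aux (h : IsGadgetL H τ K L C M B P Z Sel Gd ok att)
    (hfew : ∀ c < C, ∀ Del : Finset (ℕ × ℕ), Del.card ≤ L → ∀ T : Finset γ,
      (∀ e ∈ T, e ∈ Gd ∧ ok c e ∧ ∀ p ∈ Sel, att c e p → p ∈ Del) → T.card < B)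
    (S V₁ V₂ : Finset (Fin N)) (hS : S.card ≤ L) (hd : Disjoint V₁ V₂)
    (hu : V₁ ∪ V₂ = univ \ S) (hbal : |(V₁.card : ℤ) - (V₂.card : ℤ)| ≤ 1)
    (hno : ∀ u ∈ V₁, ∀ v ∈ V₂, ¬ H.Adj u v) (z : Fin N) (hz : z ∈ V₂) (hzc : τ z = .core) :
    ∃ Del : Finset (ℕ × ℕ), Del.card ≤ S.card ∧
      ∀ c < C, ∃ e ∈ Gd, ok c e ∧ ∀ p ∈ Sel, att c e p → p ∈ Del := by
  classical
  have hside : ∀ v, v ∉ S → v ∈ V₁ ∨ v ∈ V₂ := by
    intro v hv
    rw [← mem_union, hu]; simp [hv]
  have hnot : ∀ v, v ∈ V₁ ∨ v ∈ V₂ → v ∉ S := by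
    intro v hv
    rw [← mem_union, hu] at hv
    simpa using hv
  have hrel : ∀ u ∈ V₁, ∀ v ∈ V₂, ¬ Rel ok att (τ u) (τ v) := by
    intro u hu1 v hv2 hr
    refine hno u hu1 v hv2 ((h.adj u v).2 ⟨?_, hr⟩)
    rintro rfl
    exact disjoint_left.1 hd hu1 hv2
  have hsum : V₁.card + V₂.card + S.card = N := by
    rw [← card_union_of_disjoint hd, hu, card_univ_sdiff, Fintype.card_fin]
    have := card_le_univ S
    rw [Fintype.card_fin] at this
    omega
  rw [abs_le] at hbal
  have hN := h.hN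
  have hZ := h.hZ
  have hM := h.hM
  have hB := h.hB
  set W := ∑ c ∈ range C, B ^ c with hW
  -- no padding vertex lies in `V₂`
  have hpad : ∀ v ∈ V₂, τ v ≠ .pad := by
    intro v hv hvp
    have hsub : (univ.filter fun x => τ x ∈ ({Lab.pad, Lab.core} : Finset (Lab γ))) ⊆ V₂ ∪ S := by
      intro x hx
      simp only [mem_filter, mem_univ, true_and, mem_insert, mem_singleton] at hx
      by_cases hxS : x ∈ S
      · exact mem_union_right _ hxS
      · rcases hside x hxS with hx1 | hx2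
        · exfalso
          rcases hx with hx | hx
          · exact hrel x hx1 v hv (by rw [hx, hvp]; trivial)
          · exact hrel x hx1 z hz (by rw [hx, hzc]; trivial)
        · exact mem_union_left _ hx2
    have h1 := card_le_card hsub
    rw [← sum_card_fiberwise_eq_card_filter, sum_insert (by simp), sum_singleton, h.cpad,
      h.ccore] at h1
    have h2 := card_union_le V₂ S
    omega
  set Del : Finset (ℕ × ℕ) := Sel.filter fun p => ∃ v ∈ S, τ v = .sel p with hDel
  have cDel : Del.card ≤ S.card := by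
    have : Del.image Lab.sel ⊆ S.image τ := by
      intro l hl
      obtain ⟨p, hp, rfl⟩ := mem_image.1 hl
      obtain ⟨v, hv, hvp⟩ := (mem_filter.1 hp).2
      exact mem_image.2 ⟨v, hv, hvp⟩
    have h1 := card_le_card this
    rw [card_image_of_injective _ (fun a b hab => by simpa using hab)] at h1
    exact h1.trans card_image_le
  set T : Finset (ℕ × γ) := (range C ×ˢ Gd).filter fun g => ∃ v ∈ V₁, τ v = .gad g.1 g.2 with hT
  have hT1 : ∀ g ∈ T, g.1 < C ∧ g.2 ∈ Gd := by
    intro g hg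
    simpa using (mem_filter.1 hg).1
  have hT2 : ∀ g ∈ T, ok g.1 g.2 ∧ ∀ p ∈ Sel, att g.1 g.2 p → p ∈ Del := by
    intro g hg
    obtain ⟨v, hv, hvg⟩ := (mem_filter.1 hg).2
    refine ⟨?_, fun p hp hatt => ?_⟩
    · by_contra hok
      exact hrel v hv z hz (by rw [hvg, hzc]; exact hok)
    · have h1 := h.csel p
      rw [if_pos hp, card_eq_one] at h1
      obtain ⟨x, hx⟩ := h1
      have hxp : τ x = .sel p := by
        have : x ∈ (univ.filter fun v => τ v = .sel p) := by rw [hx]; simp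
        simpa using this
      refine mem_filter.2 ⟨hp, x, ?_, hxp⟩
      by_contra hxS
      rcases hside x hxS with hx1 | hx2
      · exact hrel x hx1 z hz (by rw [hxp, hzc]; trivial)
      · exact hrel v hv x hx2 (by rw [hvg, hxp]; exact hatt)
  have cF := h.card_side T hT1
  set F := univ.filter fun v => τ v ∈ insert Lab.pad (T.image fun g => Lab.gad g.1 g.2) with hF
  have hF1 : V₁ ⊆ F := by
    intro v hv
    simp only [hF, mem_filter, mem_univ, true_and, mem_insert, mem_image]
    cases hτ : τ v with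
    | pad => exact Or.inl rfl
    | core => exact absurd (by rw [hτ, hzc]; trivial) (hrel v hv z hz)
    | sel p => exact absurd (by rw [hτ, hzc]; trivial) (hrel v hv z hz)
    | gad c e =>
      refine Or.inr ⟨(c, e), mem_filter.2 ⟨?_, v, hv, hτ⟩, rfl⟩
      by_contra hce
      have h0 := h.cgad c e
      rw [if_neg (by simpa using hce), card_eq_zero] at h0
      have : v ∈ (univ.filter fun v => τ v = .gad c e) := by simp [hτ]
      rw [h0] at this
      simp at this
  have hF2 : F ⊆ V₁ ∪ S := by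
    intro v hv
    simp only [hF, mem_filter, mem_univ, true_and, mem_insert, mem_image] at hv
    by_cases hvS : v ∈ S
    · exact mem_union_right _ hvS
    · rcases hside v hvS with h1 | h2
      · exact mem_union_left _ h1
      · exfalso
        rcases hv with hv | ⟨g, hg, hv⟩
        · exact hpad v h2 hv
        · obtain ⟨x, hx, hxg⟩ := (mem_filter.1 hg).2
          exact hrel x hx v h2 (by rw [hxg, ← hv]; exact ⟨rfl, rfl⟩)
  have c1 := card_le_card hF1
  have c2 := (card_le_card hF2).trans (card_union_le _ _)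
  set A := ∑ g ∈ T, B ^ g.1 with hA
  have hAW : A = W := by
    by_contra hne
    rcases Nat.lt_or_gt_of_ne hne with hlt | hlt
    · have : M * (A + 1) ≤ M * W := Nat.mul_le_mul_left _ hlt
      rw [mul_add, mul_one] at this
      omega
    · have : M * (W + 1) ≤ M * A := Nat.mul_le_mul_left _ hlt
      rw [mul_add, mul_one] at this
      omega
  set t : ℕ → ℕ := fun c => (T.filter fun g => g.1 = c).card with ht
  have hA2 : A = ∑ c ∈ range C, t c * B ^ c := by
    rw [hA, ← sum_fiberwise_of_maps_to (t := range C) (g := fun g : ℕ × γ => g.1)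
      (fun g hg => mem_range.2 (hT1 g hg).1)]
    refine sum_congr rfl (fun c _ => ?_)
    rw [sum_congr rfl (g := fun _ => B ^ c) (fun g hg => by rw [(mem_filter.1 hg).2]),
      sum_const, smul_eq_mul]
  have htB : ∀ c < C, t c < B := by
    intro c hc
    have e : t c = ((T.filter fun g => g.1 = c).image Prod.snd).card := by
      rw [card_image_of_injOn]
      intro a ha b hb hab
      exact Prod.ext ((mem_filter.1 ha).2.trans (mem_filter.1 hb).2.symm) hab
    rw [e]
    refine hfew c hc Del (cDel.trans hS) _ (fun e he => ?_)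
    obtain ⟨g, hg, rfl⟩ := mem_image.1 he
    obtain ⟨hg', rfl⟩ := mem_filter.1 hg
    exact ⟨(hT1 g hg').2, hT2 g hg'⟩
  have hone := digits_unique C t (fun _ => 1) htB (fun _ _ => hB) (by
    rw [← hA2, hAW, hW]; simp)
  refine ⟨Del, cDel, fun c hc => ?_⟩
  have : 0 < t c := by rw [hone c hc]; exact one_pos
  obtain ⟨g, hg⟩ := card_pos.1 this
  obtain ⟨hg', rfl⟩ := mem_filter.1 hg
  exact ⟨g.2, (hT1 g hg').2, hT2 g hg'⟩

theorem sound (h : IsGadgetL H τ K L C M B P Z Sel Gd ok att)
    (hfew : ∀ c < C, ∀ Del : Finset (ℕ × ℕ), Del.card ≤ L → ∀ T : Finset γ,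
      (∀ e ∈ T, e ∈ Gd ∧ ok c e ∧ ∀ p ∈ Sel, att c e p → p ∈ Del) → T.card < B)
    (S : Finset (Fin N)) (hS : S.card ≤ L) (hb : IsBisector H S) :
    ∃ Del : Finset (ℕ × ℕ), Del.card ≤ S.card ∧
      ∀ c < C, ∃ e ∈ Gd, ok c e ∧ ∀ p ∈ Sel, att c e p → p ∈ Del := by
  obtain ⟨V₁, V₂, hd, hu, hbal, hno⟩ := hb
  have hZ := h.hZ
  obtain ⟨z, hz, hzS⟩ : ∃ z ∈ (univ.filter fun v => τ v = .core), z ∉ S := by
    apply exists_mem_notMem_of_card_lt_card
    rw [h.ccore]; omega
  have hzc : τ z = .core := by simpa using hz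
  have : z ∈ V₁ ∪ V₂ := by rw [hu]; simp [hzS]
  rcases mem_union.1 this with h1 | h2
  · exact h.sound_aux hfew S V₂ V₁ hS hd.symm (by rw [union_comm, hu])
      (by rw [abs_sub_comm]; exact hbal) (fun u hu v hv hadj => hno v hv u hu hadj.symm) z h1 hzc
  · exact h.sound_aux hfew S V₁ V₂ hS hd hu hbal hno z h2 hzc

end IsGadgetL

end Pool.Agent.P.MP_8c536d_lc
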