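import Pool.Agent.P.MP_8c536d_lc.Grid

/-!
A constraint system with an arbitrary constant gap. The vertices are hashed at `m` positions by
polynomials of degree less than `k`; a class consists of a position and `t` pairs of indices.
-/

namespace Pool.Agent.P.MP_8c536d_lc

open Finset

/-- the digit number `s` of `x` in base `b` -/
def dg (b x s : ℕ) : ℕ := x / b ^ s % b

theorem dg_zero (b x : ℕ) : dg b x 0 = x % b := by simp [dg]

theorem dg_succ (b x s : ℕ) : dg b x (s + 1) = dg b (x / b) s := by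
  unfold dg
  rw [pow_succ', Nat.div_div_eq_div_mul]

theorem dg_lt {b : ℕ} (hb : 0 < b) (x s : ℕ) : dg b x s < b := Nat.mod_lt _ hb

theorem exists_dg {b : ℕ} (T : ℕ) : ∀ f : ℕ → ℕ, (∀ s < T, f s < b) →
    ∃ x < b ^ T, ∀ s < T, dg b x s = f s := by
  induction T with
  | zero => intro f _; exact ⟨0, by simp, fun s hs => by omega⟩
  | succ T ih =>
    intro f hf
    obtain ⟨y, hy, h⟩ := ih (fun s => f (s + 1)) (fun s hs => hf _ (by omega))
    have h0 := hf 0 (by omega)
    have hb : 0 < b := by omega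
    refine ⟨b * y + f 0, ?_, fun s hs => ?_⟩
    · rw [pow_succ']
      have : b * (y + 1) ≤ b * b ^ T := Nat.mul_le_mul_left _ hy
      rw [mul_add, mul_one] at this
      omega
    · rcases s with _ | s
      · rw [dg_zero, Nat.mul_add_mod, Nat.mod_eq_of_lt h0]
      · rw [dg_succ, Nat.mul_add_div hb, Nat.div_eq_of_lt h0, add_zero]
        exact h s (by omega)

theorem eq_of_dg {b : ℕ} (T : ℕ) : ∀ x y : ℕ, x < b ^ T → y < b ^ T →
    (∀ s < T, dg b x s = dg b y s) → x = y := by
  induction T with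
  | zero => intro x y hx hy _; simp at hx hy; omega
  | succ T ih =>
    intro x y hx hy h
    have hb : 0 < b := by
      rcases Nat.eq_zero_or_pos b with rfl | hb
      · simp at hx
      · exact hb
    have h0 := h 0 (by omega)
    rw [dg_zero, dg_zero] at h0
    have h1 : x / b = y / b := by
      refine ih _ _ ?_ ?_ (fun s hs => ?_)
      · rw [Nat.div_lt_iff_lt_mul hb, ← pow_succ]; exact hx
      · rw [Nat.div_lt_iff_lt_mul hb, ← pow_succ]; exact hy
      · rw [← dg_succ, ← dg_succ]; exact h _ (by omega)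
    rw [← Nat.div_add_mod x b, ← Nat.div_add_mod y b, h0, h1]

/-- the hash value of the vertex `v` at the position `j` -/
def hash (q k j v : ℕ) : ℕ := ∑ l ∈ range k, dg q v l * j ^ l

theorem hash_lt {q k m j : ℕ} (hq : 0 < q) (hj : j < m) (v : ℕ) :
    hash q k j v < k * q * m ^ k + 1 := by
  unfold hash
  have : ∑ l ∈ range k, dg q v l * j ^ l ≤ ∑ _l ∈ range k, q * m ^ k :=
    sum_le_sum (fun l hl => Nat.mul_le_mul (dg_lt hq _ _).le
      ((Nat.pow_le_pow_left hj.le l).trans
        (Nat.pow_le_pow_right (by omega) (mem_range.1 hl).le)))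
  rw [sum_const, card_range, smul_eq_mul, ← mul_assoc] at this
  omega

theorem hash_coll {q k v v' : ℕ} (hv : v < q ^ k) (hv' : v' < q ^ k) (hne : v ≠ v') (m : ℕ) :
    ((range m).filter fun j => hash q k j v = hash q k j v').card ≤ k := by
  classical
  set p : Polynomial ℤ := ∑ l ∈ range k,
    Polynomial.monomial l ((dg q v l : ℤ) - (dg q v' l : ℤ)) with hp
  have hcoef : ∀ l < k, p.coeff l = (dg q v l : ℤ) - (dg q v' l : ℤ) := by
    intro l hl
    rw [hp, Polynomial.finsetSum_coeff]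
    simp only [Polynomial.coeff_monomial]
    rw [sum_ite_eq' (range k) l, if_pos (mem_range.2 hl)]
  have hp0 : p ≠ 0 := by
    intro h0
    refine hne (eq_of_dg k v v' hv hv' (fun s hs => ?_))
    have := hcoef s hs
    rw [h0, Polynomial.coeff_zero] at this
    omega
  have hdeg : p.natDegree ≤ k := by
    rw [hp]
    refine Polynomial.natDegree_sum_le_of_forall_le _ _ (fun l hl => ?_)
    exact (Polynomial.natDegree_monomial_le _).trans (mem_range.1 hl).le
  have h1 := card_le_card_of_injOn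
    (s := (range m).filter fun j => hash q k j v = hash q k j v') (t := p.roots.toFinset)
    (fun j : ℕ => (j : ℤ))
    (fun j hj => by
      have hj' := (mem_filter.1 (mem_coe.1 hj)).2
      simp only [mem_coe, Multiset.mem_toFinset, Polynomial.mem_roots hp0, Polynomial.IsRoot.def]
      rw [hp, Polynomial.eval_finsetSum]
      simp only [Polynomial.eval_monomial, sub_mul, sum_sub_distrib]
      have := congrArg (fun z : ℕ => (z : ℤ)) hj'
      simp only [hash, Nat.cast_sum, Nat.cast_mul, Nat.cast_pow] at this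
      rw [this, sub_self])
    (fun a _ b _ hab => Int.ofNat.inj hab)
  exact h1.trans ((Multiset.toFinset_card_le _).trans ((Polynomial.card_roots' p).trans hdeg))

/-- the gadgets of the class `c` that can be cut off -/
def OkG (adj : ℕ → ℕ → Prop) (n k t q m D c : ℕ) (e : Gad) : Prop :=
  ∀ s < t, (dg k (c / m) s = dg k (c / m) (t + s) ∨ adj (dg n e.2.1 s) (dg n e.2.2 s)) ∧
    dg D e.1 (dg k (c / m) s) = hash q k (c % m) (dg n e.2.1 s) ∧
    dg D e.1 (dg k (c / m) (t + s)) = hash q k (c % m) (dg n e.2.2 s)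

/-- the selectors a gadget of the class `c` is attached to -/
def AttG (n k t m w c : ℕ) (e : Gad) (p : ℕ × ℕ) : Prop :=
  p = (c % m, e.1) ∨ ∃ s < t, ∃ y < w, p = (m + dg k (c / m) s * w + y, dg n e.2.1 s) ∨
    p = (m + dg k (c / m) (t + s) * w + y, dg n e.2.2 s)

theorem row_lt {k w i y : ℕ} (m : ℕ) (hi : i < k) (hy : y < w) : m + i * w + y < m + k * w := by
  have : (i + 1) * w ≤ k * w := Nat.mul_le_mul_right _ hi
  rw [add_mul, one_mul] at this
  omega

theorem attG_mem {n k t m w X c : ℕ} (hk : 0 < k) (hm : 0 < m) (hnX : n ≤ X) {e : Gad}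
    (he : e ∈ range X ×ˢ range (n ^ t) ×ˢ range (n ^ t)) {p : ℕ × ℕ}
    (hp : AttG n k t m w c e p) : p ∈ range (m + k * w) ×ˢ range X := by
  simp only [mem_product, mem_range] at he ⊢
  rcases hp with rfl | ⟨s, hs, y, hy, hp⟩
  · have := Nat.mod_lt c hm
    exact ⟨by dsimp only; omega, he.1⟩
  · have hn : 0 < n := by
      rcases Nat.eq_zero_or_pos n with rfl | hn
      · have := he.2.1
        rw [zero_pow (by omega)] at this
        omega
      · exact hn
    rcases hp with rfl | rfl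
    · exact ⟨row_lt m (dg_lt hk _ _) hy, (dg_lt hn _ _).trans_le hnX⟩
    · exact ⟨row_lt m (dg_lt hk _ _) hy, (dg_lt hn _ _).trans_le hnX⟩

theorem gap_complete {n k t q m w X : ℕ} (hk : 0 < k) (hm : 0 < m) (hq : n ≤ q ^ k)
    (hX : (k * q * m ^ k + 1) ^ k ≤ X) (hnX : n ≤ X) (adj : ℕ → ℕ → Prop) (v : ℕ → ℕ)
    (hv : ∀ i < k, v i < n) (hadj : ∀ i < k, ∀ j < k, i ≠ j → adj (v i) (v j)) :
    ∃ Del : Finset (ℕ × ℕ), Del ⊆ range (m + k * w) ×ˢ range X ∧ Del.card = m + k * w ∧
      ∀ c, ∃ e ∈ range X ×ˢ range (n ^ t) ×ˢ range (n ^ t),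
        OkG adj n k t q m (k * q * m ^ k + 1) c e ∧ ∀ p, AttG n k t m w c e p → p ∈ Del := by
  have hq0 : 0 < q := by
    rcases Nat.eq_zero_or_pos q with rfl | h
    · have := hv 0 hk
      rw [zero_pow (by omega)] at hq
      omega
    · exact h
  have hσ : ∀ j, j < m → ∃ x < (k * q * m ^ k + 1) ^ k,
      ∀ i < k, dg (k * q * m ^ k + 1) x i = hash q k j (v i) := fun j hj =>
    exists_dg k (fun i => hash q k j (v i)) (fun i _ => hash_lt hq0 hj _)
  choose! σ hσ1 hσ2 using hσ
  set g : ℕ → ℕ := fun r => if r < m then σ r else v ((r - m) / w) with hg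
  have hrow : ∀ i y, y < w → g (m + i * w + y) = v i := by
    intro i y hy
    have e : (m + i * w + y - m) / w = i := by
      have : m + i * w + y - m = y + i * w := by omega
      rw [this, Nat.add_mul_div_right _ _ (by omega), Nat.div_eq_of_lt hy, zero_add]
    simp only [hg]
    rw [if_neg (by omega), e]
  refine ⟨(range (m + k * w)).image fun r => (r, g r), ?_, ?_, ?_⟩
  · intro p hp
    obtain ⟨r, hr, rfl⟩ := mem_image.1 hp
    refine mem_product.2 ⟨hr, mem_range.2 ?_⟩
    have hr := mem_range.1 hr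
    simp only [hg]
    split_ifs with h
    · exact (hσ1 r h).trans_le hX
    · refine (hv _ ?_).trans_le hnX
      exact Nat.div_lt_of_lt_mul (by rw [mul_comm]; omega)
  · rw [card_image_of_injective _ (fun a b hab => (Prod.ext_iff.1 hab).1), card_range]
  · intro c
    have hj := Nat.mod_lt c hm
    obtain ⟨y₁, hy₁, h₁⟩ := exists_dg (b := n) t (fun s => v (dg k (c / m) s))
      (fun s _ => hv _ (dg_lt hk _ _))
    obtain ⟨y₂, hy₂, h₂⟩ := exists_dg (b := n) t (fun s => v (dg k (c / m) (t + s)))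
      (fun s _ => hv _ (dg_lt hk _ _))
    refine ⟨(σ (c % m), y₁, y₂), ?_, ?_, ?_⟩
    · simp only [mem_product, mem_range]
      exact ⟨(hσ1 _ hj).trans_le hX, hy₁, hy₂⟩
    · intro s hs
      dsimp only
      rw [h₁ s hs, h₂ s hs]
      refine ⟨?_, hσ2 _ hj _ (dg_lt hk _ _), hσ2 _ hj _ (dg_lt hk _ _)⟩
      by_cases h : dg k (c / m) s = dg k (c / m) (t + s)
      · exact Or.inl h
      · exact Or.inr (hadj _ (dg_lt hk _ _) _ (dg_lt hk _ _) h)
    · rintro p (rfl | ⟨s, hs, y, hy, rfl | rfl⟩)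
      · exact mem_image.2 ⟨c % m, mem_range.2 (by omega), by simp only [hg]; rw [if_pos hj]⟩
      · exact mem_image.2 ⟨_, mem_range.2 (row_lt m (dg_lt hk _ _) hy),
          by rw [hrow _ _ hy]; dsimp only; rw [h₁ s hs]⟩
      · exact mem_image.2 ⟨_, mem_range.2 (row_lt m (dg_lt hk _ _) hy),
          by rw [hrow _ _ hy]; dsimp only; rw [h₂ s hs]⟩

theorem gap_few {n k t m w X c : ℕ} (hw : 0 < w) (Del : Finset (ℕ × ℕ)) (T : Finset Gad)
    (hT : ∀ e ∈ T, e ∈ range X ×ˢ range (n ^ t) ×ˢ range (n ^ t) ∧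
      ∀ p, AttG n k t m w c e p → p ∈ Del) : T.card ≤ Del.card ^ (2 * t + 1) := by
  classical
  set A := Del.image Prod.snd with hA
  have cA : A.card ≤ Del.card := card_image_le
  have := card_le_card_of_injOn (s := T)
    (t := A ×ˢ Fintype.piFinset (fun _ : Fin t => A) ×ˢ Fintype.piFinset (fun _ : Fin t => A))
    (fun e : Gad => ((e.1, fun s : Fin t => dg n e.2.1 s, fun s : Fin t => dg n e.2.2 s) :
      ℕ × (Fin t → ℕ) × (Fin t → ℕ)))
    (fun e he => by
      have h := (hT e he).2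
      simp only [coe_product, Set.mem_prod, mem_coe, Fintype.mem_piFinset]
      refine ⟨mem_image.2 ⟨_, h _ (Or.inl rfl), rfl⟩, fun s => ?_, fun s => ?_⟩
      · exact mem_image.2 ⟨_, h _ (Or.inr ⟨s, s.2, 0, hw, Or.inl rfl⟩), rfl⟩
      · exact mem_image.2 ⟨_, h _ (Or.inr ⟨s, s.2, 0, hw, Or.inr rfl⟩), rfl⟩)
    (fun e he e' he' h => by
      have h1 := (hT e he).1
      have h2 := (hT e' he').1
      obtain ⟨x, u, z⟩ := e
      obtain ⟨x', u', z'⟩ := e'
      simp only [mem_product, mem_range] at h1 h2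
      simp only [Prod.mk.injEq] at h
      obtain ⟨rfl, h3, h4⟩ := h
      rw [eq_of_dg t u u' h1.2.1 h2.2.1 (fun s hs => congrFun h3 ⟨s, hs⟩),
        eq_of_dg t z z' h1.2.2 h2.2.2 (fun s hs => congrFun h4 ⟨s, hs⟩)])
  simp only [card_product, Fintype.card_piFinset, prod_const, card_univ, Fintype.card_fin] at this
  calc T.card ≤ _ := this
    _ = A.card ^ (2 * t + 1) := by ring
    _ ≤ _ := Nat.pow_le_pow_left cA _

theorem exists_good_pos {n k q m w a : ℕ} (hk : 0 < k) (ha : 0 < a) (hq : n ≤ q ^ k)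
    (hw : w = 2 * (2 * a * k) ^ 2) (hm : m = k * w) (Del : Finset (ℕ × ℕ))
    (hDel : Del.card ≤ a * (m + k * w)) :
    ∃ j < m, (Del.filter fun p => p.1 = j).card ≤ 4 * a ∧
      ∀ v v' i i', v < n → v' < n → i < k → i' < k → (∀ y < w, (m + i * w + y, v) ∈ Del) →
        (∀ y < w, (m + i' * w + y, v') ∈ Del) → hash q k j v = hash q k j v' → v = v' := by
  classical
  have hw0 : 0 < w := by rw [hw]; positivity
  have hm0 : 0 < m := by rw [hm]; positivity
  set V := (range n).filter fun v => ∃ i < k, ∀ y < w, (m + i * w + y, v) ∈ Del with hV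
  have cV : V.card ≤ 2 * a * k := by
    have hex : ∀ v ∈ V, ∃ i, ∀ y < w, (m + i * w + y, v) ∈ Del := fun v hv => by
      obtain ⟨i, -, h⟩ := (mem_filter.1 hv).2
      exact ⟨i, h⟩
    choose! ι hι using hex
    have h1 := card_le_card_of_injOn (s := V ×ˢ range w) (t := Del)
      (fun p : ℕ × ℕ => (m + ι p.1 * w + p.2, p.1))
      (fun p hp => by
        simp only [coe_product, Set.mem_prod, mem_coe, mem_range] at hp
        exact hι _ hp.1 _ hp.2)
      (fun p _ p' _ h => by
        obtain ⟨v, y⟩ := p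
        obtain ⟨v', y'⟩ := p'
        simp only [Prod.mk.injEq] at h
        obtain ⟨h1, rfl⟩ := h
        rw [Nat.add_left_cancel h1])
    rw [card_product, card_range] at h1
    refine Nat.le_of_mul_le_mul_right ?_ hw0
    calc V.card * w ≤ a * (m + k * w) := h1.trans hDel
      _ = 2 * a * k * w := by rw [hm]; ring
  set Bad := V.offDiag.biUnion fun p =>
    (range m).filter fun j => hash q k j p.1 = hash q k j p.2 with hBad
  have cBad : 2 * Bad.card ≤ m := by
    have h1 : Bad.card ≤ V.offDiag.card * k :=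
      card_biUnion_le_card_mul _ _ _ (fun p hp => by
        obtain ⟨h1, h2, h3⟩ := mem_offDiag.1 hp
        exact hash_coll ((mem_range.1 (mem_filter.1 h1).1).trans_le hq)
          ((mem_range.1 (mem_filter.1 h2).1).trans_le hq) h3 m)
    have h2 : V.offDiag.card ≤ (2 * a * k) ^ 2 := by
      rw [offDiag_card]
      have := Nat.mul_le_mul cV cV
      rw [sq]; omega
    calc 2 * Bad.card ≤ 2 * ((2 * a * k) ^ 2 * k) :=
          Nat.mul_le_mul_left _ (h1.trans (Nat.mul_le_mul_right _ h2))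
      _ = m := by rw [hm, hw]; ring
  set Hv := (range m).filter fun j => ¬ (Del.filter fun p => p.1 = j).card ≤ 4 * a with hHv
  have cHv : 2 * Hv.card < m := by
    have h1 : (4 * a + 1) * Hv.card ≤ Del.card := by
      calc (4 * a + 1) * Hv.card = ∑ _r ∈ Hv, (4 * a + 1) := by
            rw [sum_const, smul_eq_mul, mul_comm]
        _ ≤ ∑ r ∈ Hv, (Del.filter fun p => p.1 = r).card :=
          sum_le_sum (fun r hr => by have := (mem_filter.1 hr).2; omega)
        _ = (Del.filter fun p => p.1 ∈ Hv).card := sum_card_fiberwise_eq_card_filter _ _ _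
        _ ≤ Del.card := card_filter_le _ _
    rw [← hm] at hDel
    by_contra hle
    push Not at hle
    have h2 : (4 * a + 1) * m ≤ (4 * a + 1) * (2 * Hv.card) := Nat.mul_le_mul_left _ hle
    nlinarith
  obtain ⟨j, hj, hjn⟩ : ∃ j ∈ range m, j ∉ Bad ∪ Hv := by
    apply exists_mem_notMem_of_card_lt_card
    have := card_union_le Bad Hv
    rw [card_range]
    omega
  rw [mem_union, not_or] at hjn
  refine ⟨j, mem_range.1 hj, ?_, fun v v' i i' hv hv' hi hi' h1 h2 h3 => ?_⟩
  · by_contra h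
    exact hjn.2 (mem_filter.2 ⟨hj, h⟩)
  · by_contra hne
    exact hjn.1 (mem_biUnion.2 ⟨(v, v'), mem_offDiag.2
      ⟨mem_filter.2 ⟨mem_range.2 hv, i, hi, h1⟩, mem_filter.2 ⟨mem_range.2 hv', i', hi', h2⟩, hne⟩,
      mem_filter.2 ⟨hj, h3⟩⟩)

theorem gap_sound {n k q m w a D X : ℕ} (hk : 0 < k) (ha : 0 < a) (hq : n ≤ q ^ k)
    (hw : w = 2 * (2 * a * k) ^ 2) (hm : m = k * w) (adj : ℕ → ℕ → Prop) (Del : Finset (ℕ × ℕ))
    (hDel : Del.card ≤ a * (m + k * w))
    (h : ∀ c < m * k ^ (2 * (4 * a)),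
      ∃ e ∈ range X ×ˢ range (n ^ (4 * a)) ×ˢ range (n ^ (4 * a)),
        OkG adj n k (4 * a) q m D c e ∧ ∀ p, AttG n k (4 * a) m w c e p → p ∈ Del) :
    ∃ v : ℕ → ℕ, (∀ i < k, v i < n) ∧ ∀ i < k, ∀ j < k, i ≠ j → adj (v i) (v j) := by
  classical
  obtain ⟨j, hj, hfew, huniq⟩ := exists_good_pos hk ha hq hw hm Del hDel
  set t := 4 * a with ht
  by_contra hno
  -- every word has a pair of indices on which it cannot be decoded
  have hkill : ∀ x : ℕ, ∃ ii : ℕ × ℕ, ii.1 < k ∧ ii.2 < k ∧ ∀ u u', u < n → u' < n →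
      (∀ y < w, (m + ii.1 * w + y, u) ∈ Del) → (∀ y < w, (m + ii.2 * w + y, u') ∈ Del) →
      dg D x ii.1 = hash q k j u → dg D x ii.2 = hash q k j u' →
      ¬ (ii.1 = ii.2 ∨ adj u u') := by
    intro x
    by_contra hx
    push Not at hx
    have h1 : ∀ i < k, ∃ u, u < n ∧ (∀ y < w, (m + i * w + y, u) ∈ Del) ∧
        dg D x i = hash q k j u := by
      intro i hi
      obtain ⟨u, u', hu, -, h1, -, h2, -⟩ := hx (i, i) hi hi
      exact ⟨u, hu, h1, h2⟩
    choose! v hv1 hv2 hv3 using h1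
    refine hno ⟨v, hv1, fun i hi i' hi' hne => ?_⟩
    obtain ⟨u, u', hu, hu', h1, h2, h3, h4, h5⟩ := hx (i, i') hi hi'
    dsimp only at h1 h2 h3 h4 h5
    rw [huniq _ _ _ _ (hv1 i hi) hu hi hi (hv2 i hi) h1 ((hv3 i hi).symm.trans h3),
      huniq _ _ _ _ (hv1 i' hi') hu' hi' hi' (hv2 i' hi') h2 ((hv3 i' hi').symm.trans h4)]
    exact h5.resolve_left hne
  choose κ hκ1 hκ2 hκ3 using hkill
  set l := (Del.filter fun p => p.1 = j).toList with hl
  have hlen : l.length ≤ t := by rw [hl, length_toList]; exact hfew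
  obtain ⟨z, hz, hdz⟩ := exists_dg (b := k) (2 * t)
    (fun s => if s < t then (κ (l.getD s (0, 0)).2).1 else (κ (l.getD (s - t) (0, 0)).2).2)
    (fun s _ => by
      split_ifs
      · exact hκ1 _
      · exact hκ2 _)
  have hc : j + m * z < m * k ^ (2 * t) := by
    have : m * (z + 1) ≤ m * k ^ (2 * t) := Nat.mul_le_mul_left _ hz
    rw [mul_add, mul_one] at this
    omega
  have hm0 : 0 < m := by omega
  have e1 : (j + m * z) % m = j := by rw [Nat.add_mul_mod_self_left, Nat.mod_eq_of_lt hj]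
  have e2 : (j + m * z) / m = z := by
    rw [Nat.add_mul_div_left _ _ hm0, Nat.div_eq_of_lt hj, zero_add]
  obtain ⟨e, he, hok, hatt⟩ := h _ hc
  unfold OkG at hok
  unfold AttG at hatt
  rw [e1, e2] at hok hatt
  have hmem : (j, e.1) ∈ l := by
    rw [hl, mem_toList]
    exact mem_filter.2 ⟨hatt _ (Or.inl rfl), rfl⟩
  obtain ⟨s, hs, hse⟩ := List.getElem_of_mem hmem
  have hst : s < t := by omega
  have hget : (l.getD s (0, 0)).2 = e.1 := by rw [List.getD_eq_getElem _ _ hs, hse]
  have d1 : dg k z s = (κ e.1).1 := by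
    rw [hdz s (by omega), if_pos hst, hget]
  have d2 : dg k z (t + s) = (κ e.1).2 := by
    rw [hdz (t + s) (by omega), if_neg (by omega), Nat.add_sub_cancel_left, hget]
  have hn : 0 < n := by
    simp only [mem_product, mem_range] at he
    rcases Nat.eq_zero_or_pos n with rfl | hn
    · have := he.2.1
      rw [zero_pow (by omega)] at this
      omega
    · exact hn
  obtain ⟨o1, o2, o3⟩ := hok s hst
  rw [d1] at o1 o2
  rw [d2] at o1 o3
  refine hκ3 e.1 _ _ (dg_lt hn _ _) (dg_lt hn _ _) (fun y hy => ?_) (fun y hy => ?_) o2 o3 o1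
  · exact hatt _ (Or.inr ⟨s, hst, y, hy, Or.inl (by rw [d1])⟩)
  · exact hatt _ (Or.inr ⟨s, hst, y, hy, Or.inr (by rw [d2])⟩)

/-- the least `q` with `n ≤ q ^ k` -/
def rootUp (n k : ℕ) : ℕ := ((range (n + 1)).filter fun y => y ^ k < n).card

theorem le_rootUp_pow {n k : ℕ} (hk : 0 < k) : n ≤ rootUp n k ^ k := by
  by_contra hlt
  push Not at hlt
  have hsub : range (rootUp n k + 1) ⊆ (range (n + 1)).filter fun y => y ^ k < n := by
    intro y hy
    have hy' : y ≤ rootUp n k := by have := mem_range.1 hy; omega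
    have h1 : y ^ k < n := (Nat.pow_le_pow_left hy' k).trans_lt hlt
    have h2 : y ≤ y ^ k := Nat.le_self_pow (by omega) y
    exact mem_filter.2 ⟨mem_range.2 (by omega), h1⟩
  have := card_le_card hsub
  rw [card_range] at this
  unfold rootUp at this
  omega

theorem rootUp_pow_le (n k : ℕ) : rootUp n k ^ k ≤ 2 ^ k * (n + 1) := by
  have h2 : 1 ≤ 2 ^ k := Nat.one_le_two_pow
  rcases Nat.lt_or_ge (rootUp n k) 2 with h | h
  · have : rootUp n k ^ k ≤ 1 ^ k := Nat.pow_le_pow_left (by omega) k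
    rw [one_pow] at this
    nlinarith
  · have h1 : (rootUp n k - 1) ^ k < n := by
      by_contra hge
      push Not at hge
      have hsub : ((range (n + 1)).filter fun y => y ^ k < n) ⊆ range (rootUp n k - 1) := by
        intro y hy
        rw [mem_range]
        by_contra hy'
        push Not at hy'
        have := (Nat.pow_le_pow_left hy' k).trans_lt (mem_filter.1 hy).2
        omega
      have := card_le_card hsub
      rw [card_range] at this
      unfold rootUp at this h
      omega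
    calc rootUp n k ^ k ≤ (2 * (rootUp n k - 1)) ^ k := Nat.pow_le_pow_left (by omega) k
      _ = 2 ^ k * (rootUp n k - 1) ^ k := mul_pow _ _ _
      _ ≤ 2 ^ k * (n + 1) := Nat.mul_le_mul_left _ (by omega)

theorem word_bound (n k m : ℕ) :
    (k * rootUp n k * m ^ k + 1) ^ k ≤ (2 * (k * m ^ k + 1)) ^ k * (n + 1) := by
  have h2 := rootUp_pow_le n k
  rcases Nat.eq_zero_or_pos (rootUp n k) with h | h
  · rw [h, mul_zero, zero_mul, zero_add, one_pow]
    exact Nat.mul_pos (pow_pos (by omega) k) (by omega)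
  · have h1 : k * rootUp n k * m ^ k + 1 ≤ rootUp n k * (k * m ^ k + 1) := by nlinarith
    calc _ ≤ (rootUp n k * (k * m ^ k + 1)) ^ k := Nat.pow_le_pow_left h1 k
      _ = rootUp n k ^ k * (k * m ^ k + 1) ^ k := mul_pow _ _ _
      _ ≤ 2 ^ k * (n + 1) * (k * m ^ k + 1) ^ k := Nat.mul_le_mul_right _ h2
      _ = _ := by rw [mul_pow]; ring

end Pool.Agent.P.MP_8c536d_lc
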