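import Pool.Agent.P.MP_8c536d_lc.Correct
import Pool.Agent.P.MP_8c536d_lc.GapGadget
import Pool.Agent.P.MP_8c536d_lc.GapHash

/-!
The gap reduction as a program, and its description as a gadget graph.
-/

namespace Pool.Agent.P.MP_8c536d_lc

open Finset Pool.Agent.Lib.Helper47 Pool.Agent.Lib.Helper33

/-- digits -/
def dgT (U : List Unit) (b x s : ℕ) : ℕ := x / pw U b s % b

/-- hash values -/
def hashT (U : List Unit) (q k j v : ℕ) : ℕ :=
  ((rng U k).map fun l => dgT U q v l * pw U j l).sum

/-- integer root -/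
def rootT (U : List Unit) (n k : ℕ) : ℕ :=
  ((rng U (n + 1)).filter fun y => Nat.blt (pw U y k) n).length

/-- detachable gadgets -/
def okGB (U : List Unit) (n k t q m D : ℕ) (mat : List Bool) (c : ℕ) (e : Gad) : Bool :=
  (rng U t).all fun s =>
    (dgT U k (c / m) s == dgT U k (c / m) (t + s) ||
      mat.getD (dgT U n e.2.1 s * n + dgT U n e.2.2 s) false) &&
    dgT U D e.1 (dgT U k (c / m) s) == hashT U q k (c % m) (dgT U n e.2.1 s) &&
    dgT U D e.1 (dgT U k (c / m) (t + s)) == hashT U q k (c % m) (dgT U n e.2.2 s)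

/-- attachments -/
def attGB (U : List Unit) (n k t m w c : ℕ) (e : Gad) (p : ℕ × ℕ) : Bool :=
  p == (c % m, e.1) || (rng U t).any fun s => (rng U w).any fun y =>
    p == (m + dgT U k (c / m) s * w + y, dgT U n e.2.1 s) ||
      p == (m + dgT U k (c / m) (t + s) * w + y, dgT U n e.2.2 s)

/-- one direction of the adjacency test -/
def halfG (U : List Unit) (n k t q m w D : ℕ) (mat : List Bool) (a b : Tup) : Bool :=
  (a.1 == 0 && b.1 == 0) || (a.1 == 1 && b.1 == 1) || (a.1 == 1 && b.1 == 2) ||
    (a.1 == 3 && a == b) ||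
    (a.1 == 3 && b.1 == 2 && attGB U n k t m w a.2.1 a.2.2 (b.2.1, b.2.2.1)) ||
    (a.1 == 3 && b.1 == 1 && !okGB U n k t q m D mat a.2.1 a.2.2)

/-- the code of the graph with vertex labels `L` -/
def codeG (U : List Unit) (n k t q m w D K : ℕ) (mat : List Bool) (L : List Tup) : List Bool :=
  L.map (fun _ => true) ++ [false] ++ rep U K true ++ [false] ++
    L.zipIdx.flatMap fun a => L.zipIdx.map fun b =>
      (a.2 != b.2 && (halfG U n k t q m w D mat a.1 b.1 || halfG U n k t q m w D mat b.1 a.1))

/-- total weight of one gadget per class -/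
def wG (U : List Unit) (M B C : ℕ) : ℕ := M * ((rng U C).map fun c => pw U B c).sum

/-- the reduction with all parameters given -/
def redP (U : List Unit) (n k t q m w K L n' X C B : ℕ) (mat : List Bool) : List Bool :=
  codeG U n k t q m w (k * q * pw U m k + 1) K mat
    (labsT U n' K X C (K + L + 1) B (L + 2 + K * X + X * n' * n' * wG U (K + L + 1) B C)
      (2 * wG U (K + L + 1) B C + K + L + 2))

/-- the number of copies of a vertex selector -/
def wOf (a k : ℕ) : ℕ := 2 * (2 * a * k) * (2 * a * k)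

/-- the number of positions -/
def mOf (a k : ℕ) : ℕ := k * wOf a k

/-- the new parameter -/
def kOf (a k : ℕ) : ℕ := mOf a k + k * wOf a k

/-- the reduction, on parsed input -/
def redG (a : ℕ) (U : List Unit) (n k : ℕ) (mat : List Bool) : List Bool :=
  redP U n k (4 * a) (rootT U n k) (mOf a k) (wOf a k) (kOf a k) (a * kOf a k) (pw U n (4 * a))
    (pw U (2 * (k * pw U (mOf a k) k + 1)) k * (n + 1)) (mOf a k * pw U k (2 * (4 * a)))
    (pw U (a * kOf a k) (2 * (4 * a) + 1) + 2) mat

section pt
variable {α : Type} [Enc α]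

@[fun_prop] theorem pt_dgT {U : α → List Unit} {b x s : α → ℕ} (hU : PT U) (hb : PT b)
    (hx : PT x) (hs : PT s) : PT (fun z => dgT (U z) (b z) (x z) (s z)) := by
  unfold dgT; fun_prop

@[fun_prop] theorem pt_hashT {U : α → List Unit} {q k j v : α → ℕ} (hU : PT U) (hq : PT q)
    (hk : PT k) (hj : PT j) (hv : PT v) : PT (fun z => hashT (U z) (q z) (k z) (j z) (v z)) := by
  unfold hashT; fun_prop

@[fun_prop] theorem pt_rootT {U : α → List Unit} {n k : α → ℕ} (hU : PT U) (hn : PT n)
    (hk : PT k) : PT (fun z => rootT (U z) (n z) (k z)) := by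
  unfold rootT; fun_prop

@[fun_prop] theorem pt_okGB {U : α → List Unit} {n k t q m D c : α → ℕ} {mat : α → List Bool}
    {e : α → Gad} (hU : PT U) (hn : PT n) (hk : PT k) (ht : PT t) (hq : PT q) (hm : PT m)
    (hD : PT D) (hmat : PT mat) (hc : PT c) (he : PT e) :
    PT (fun z => okGB (U z) (n z) (k z) (t z) (q z) (m z) (D z) (mat z) (c z) (e z)) := by
  unfold okGB; fun_prop

@[fun_prop] theorem pt_attGB {U : α → List Unit} {n k t m w c : α → ℕ} {e : α → Gad}
    {p : α → ℕ × ℕ} (hU : PT U) (hn : PT n) (hk : PT k) (ht : PT t) (hm : PT m) (hw : PT w)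
    (hc : PT c) (he : PT e) (hp : PT p) :
    PT (fun z => attGB (U z) (n z) (k z) (t z) (m z) (w z) (c z) (e z) (p z)) := by
  unfold attGB; fun_prop

@[fun_prop] theorem pt_halfG {U : α → List Unit} {n k t q m w D : α → ℕ} {mat : α → List Bool}
    {a b : α → Tup} (hU : PT U) (hn : PT n) (hk : PT k) (ht : PT t) (hq : PT q) (hm : PT m)
    (hw : PT w) (hD : PT D) (hmat : PT mat) (ha : PT a) (hb : PT b) :
    PT (fun z => halfG (U z) (n z) (k z) (t z) (q z) (m z) (w z) (D z) (mat z) (a z) (b z)) := by
  unfold halfG; fun_prop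

@[fun_prop] theorem pt_codeG {U : α → List Unit} {n k t q m w D K : α → ℕ} {mat : α → List Bool}
    {L : α → List Tup} (hU : PT U) (hn : PT n) (hk : PT k) (ht : PT t) (hq : PT q) (hm : PT m)
    (hw : PT w) (hD : PT D) (hK : PT K) (hmat : PT mat) (hL : PT L) :
    PT (fun z => codeG (U z) (n z) (k z) (t z) (q z) (m z) (w z) (D z) (K z) (mat z) (L z)) := by
  unfold codeG; fun_prop

@[fun_prop] theorem pt_wG {U : α → List Unit} {M B C : α → ℕ} (hU : PT U) (hM : PT M) (hB : PT B)
    (hC : PT C) : PT (fun z => wG (U z) (M z) (B z) (C z)) := by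
  unfold wG; fun_prop

@[fun_prop] theorem pt_redP {U : α → List Unit} {n k t q m w K L n' X C B : α → ℕ}
    {mat : α → List Bool} (hU : PT U) (hn : PT n) (hk : PT k) (ht : PT t) (hq : PT q) (hm : PT m)
    (hw : PT w) (hK : PT K) (hL : PT L) (hn' : PT n') (hX : PT X) (hC : PT C) (hB : PT B)
    (hmat : PT mat) : PT (fun z => redP (U z) (n z) (k z) (t z) (q z) (m z) (w z) (K z) (L z)
      (n' z) (X z) (C z) (B z) (mat z)) := by
  unfold redP; fun_prop

@[fun_prop] theorem pt_wOf (a : ℕ) {k : α → ℕ} (hk : PT k) : PT (fun z => wOf a (k z)) := by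
  unfold wOf; fun_prop

@[fun_prop] theorem pt_mOf (a : ℕ) {k : α → ℕ} (hk : PT k) : PT (fun z => mOf a (k z)) := by
  unfold mOf; fun_prop

@[fun_prop] theorem pt_kOf (a : ℕ) {k : α → ℕ} (hk : PT k) : PT (fun z => kOf a (k z)) := by
  unfold kOf; fun_prop

@[fun_prop] theorem pt_redG (a : ℕ) {U : α → List Unit} {n k : α → ℕ} {mat : α → List Bool}
    (hU : PT U) (hn : PT n) (hk : PT k) (hmat : PT mat) :
    PT (fun z => redG a (U z) (n z) (k z) (mat z)) := by
  unfold redG; fun_prop

end pt

theorem dgT_eq {U : List Unit} (b x : ℕ) {s : ℕ} (h : s ≤ U.length) : dgT U b x s = dg b x s := by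
  unfold dgT dg
  rw [pw_eq _ h]

theorem hashT_eq {U : List Unit} (q : ℕ) {k : ℕ} (j v : ℕ) (h : k ≤ U.length) :
    hashT U q k j v = hash q k j v := by
  unfold hashT hash
  rw [rng_eq h, List.map_congr_left (g := fun l => dg q v l * j ^ l) (fun l hl => by
    have := (List.mem_range.1 hl).le.trans h
    rw [dgT_eq _ _ this, pw_eq _ this]), sum_map_range]

theorem length_filter_range (p : ℕ → Bool) (n : ℕ) :
    ((List.range n).filter p).length = ((range n).filter fun y => p y = true).card := by
  induction n with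
  | zero => simp
  | succ n ih =>
    rw [List.range_succ, List.filter_append, List.length_append, ih, range_add_one, filter_insert]
    by_cases h : p n = true
    · rw [if_pos h, card_insert_of_notMem (by simp)]
      simp [h]
    · rw [if_neg h]
      simp [h]

theorem rootT_eq {U : List Unit} {n k : ℕ} (hn : n + 1 ≤ U.length) (hk : k ≤ U.length) :
    rootT U n k = rootUp n k := by
  unfold rootT rootUp
  rw [rng_eq hn, length_filter_range]
  congr 1
  exact filter_congr (fun y _ => by rw [pw_eq _ hk, Nat.blt_eq])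

theorem okGB_iff {U : List Unit} {n k t : ℕ} (hk0 : 0 < k) (hk : k ≤ U.length)
    (ht : 2 * t ≤ U.length) (q m D : ℕ) (mat : List Bool) (c : ℕ) (e : Gad) :
    okGB U n k t q m D mat c e = true ↔
      OkG (fun u w => mat.getD (u * n + w) false = true) n k t q m D c e := by
  unfold okGB OkG
  rw [rng_eq (by omega), List.all_eq_true]
  refine forall_congr' (fun s => ?_)
  rw [List.mem_range]
  refine imp_congr_right (fun hs => ?_)
  have h1 : s ≤ U.length := by omega
  have h2 : t + s ≤ U.length := by omega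
  simp only [dgT_eq _ _ h1, dgT_eq _ _ h2, hashT_eq _ _ _ hk,
    dgT_eq _ _ ((dg_lt hk0 _ _).le.trans hk), Bool.and_eq_true, Bool.or_eq_true, beq_iff_eq,
    and_assoc]

theorem attGB_iff {U : List Unit} {n k t w : ℕ} (ht : 2 * t ≤ U.length) (hw : w ≤ U.length)
    (m c : ℕ) (e : Gad) (p : ℕ × ℕ) :
    attGB U n k t m w c e p = true ↔ AttG n k t m w c e p := by
  unfold attGB AttG
  rw [rng_eq (a := t) (by omega), rng_eq hw, Bool.or_eq_true, beq_iff_eq, List.any_eq_true]
  refine or_congr Iff.rfl (exists_congr (fun s => ?_))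
  rw [List.mem_range]
  refine and_congr_right (fun hs => ?_)
  have h1 : s ≤ U.length := by omega
  have h2 : t + s ≤ U.length := by omega
  simp only [dgT_eq _ _ h1, dgT_eq _ _ h2, List.any_eq_true, List.mem_range, Bool.or_eq_true,
    beq_iff_eq]

theorem isGadgetL (n K L D C : ℕ) (ok : ℕ → Gad → Prop) (att : ℕ → Gad → ℕ × ℕ → Prop)
    (M B W P Z : ℕ) (hM : M = K + L + 1) (hB : 1 < B)
    (hW : W = M * ∑ c ∈ range C, B ^ c) (hP : P = L + 2 + K * D + D * n * n * W)
    (hZ : Z = 2 * W + K + L + 2) :
    IsGadgetL (gadGraph (labsI n K D C M B P Z) ok att) (fun v => (labsI n K D C M B P Z)[v])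
      K L C M B P Z (range K ×ˢ range D) (range D ×ˢ range n ×ˢ range n) ok att where
  adj := fun _ _ => Iff.rfl
  cpad := by rw [card_label, sum_labsI]; simp
  ccore := by rw [card_label, sum_labsI]; simp
  csel := fun p => by
    rw [card_label, sum_labsI]
    simp only [reduceCtorEq, if_false, mul_zero, zero_add, sum_const_zero, add_zero,
      Lab.sel.injEq]
    rw [sum_ite_eq']
  cgad := fun c e => by
    rw [card_label, sum_labsI]
    simp only [reduceCtorEq, if_false, mul_zero, zero_add, sum_const_zero, Lab.gad.injEq, mul_ite,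
      mul_one, ite_and]
    rw [sum_congr rfl (g := fun x => if x = c then
      (if e ∈ range D ×ˢ range n ×ˢ range n then M * B ^ c else 0) else 0), sum_ite_eq']
    · simp only [mem_range]
    · intro x _
      by_cases hx : x = c
      · subst hx
        simp only [if_true]
        rw [sum_ite_eq']
      · simp [hx]
  hN := by rw [length_labsI, ← hW]; omega
  hZ := by rw [← hW]; omega
  hM := by omega
  hB := hB

theorem halfG_iff (U : List Unit) (n k t q m w D : ℕ) (mat : List Bool) (a b : Lab Gad) :
    (halfG U n k t q m w D mat (encL a) (encL b) ||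
      halfG U n k t q m w D mat (encL b) (encL a)) = true ↔
      Rel (fun c e => okGB U n k t q m D mat c e = true)
        (fun c e p => attGB U n k t m w c e p = true) a b := by
  cases a <;> cases b <;> simp [halfG, encL, Rel]
  tauto

theorem codeG_eq {U : List Unit} (n k t q m w D : ℕ) {K : ℕ} (hK : K ≤ U.length)
    (mat : List Bool) (L : List (Lab Gad)) :
    codeG U n k t q m w D K mat (L.map encL) = code L.length
      (gadGraph L (fun c e => okGB U n k t q m D mat c e = true)
        (fun c e p => attGB U n k t m w c e p = true)) K := by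
  unfold codeG code
  rw [rep_eq _ hK, List.zipIdx_map, zipIdx_eq_map, List.map_const', List.length_map]
  simp only [List.map_map, List.flatMap_map]
  congr 1
  refine List.flatMap_congr (fun i _ => List.map_congr_left (fun j _ => ?_))
  rw [Bool.eq_iff_iff, @decide_eq_true_iff _ (_)]
  simp only [Function.comp_apply, Prod.map_fst, Prod.map_snd, id, Bool.and_eq_true, halfG_iff,
    gadGraph, bne_iff_ne, ne_eq, Fin.val_inj]

end Pool.Agent.P.MP_8c536d_lc
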