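import Pool.Agent.P.MP_8c536d_lc.Main
import Pool.Agent.P.MP_8c536d_lc.GapProg

/-!
The reduction from Clique to constant-factor approximation of Vertex Bisection and its
running time.
-/

namespace Pool.Agent.P.MP_8c536d_lc

open Finset Pool.Agent.Lib.Helper47 Pool.Agent.Lib.Helper33

/-- the number of classes -/
def cOf (a k : ℕ) : ℕ := mOf a k * k ^ (2 * (4 * a))

/-- the base of the weights -/
def baseG (a k : ℕ) : ℕ := (a * kOf a k) ^ (2 * (4 * a) + 1) + 2

/-- the factor in the bound for the number of words -/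
def yOf (a k : ℕ) : ℕ := (2 * (k * mOf a k ^ k + 1)) ^ k

/-- the shape of the budget -/
def budG (n' X K L C E r : ℕ) : ℕ :=
  (L + 2 + K * X + X * n' * n' * ((K + L + 1) * (C * E))) +
    (2 * ((K + L + 1) * (C * E)) + K + L + 2) + K + X + n' + C + (K + L + 1) * E + r

/-- the budget -/
def budgetG (a n k : ℕ) : ℕ :=
  budG (n ^ (4 * a)) (yOf a k * (n + 1)) (kOf a k) (a * kOf a k) (cOf a k)
    (baseG a k ^ cOf a k) (k + (n + 1) + (2 * (4 * a) + 1) + wOf a k)

theorem redG_correct {n k a : ℕ} (G : SimpleGraph (Fin n)) (ha : 0 < a)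
    {U : List Unit} (hU : budgetG a n k ≤ U.length) :
    ∃ (N : ℕ) (H : SimpleGraph (Fin N)), N ≤ 3 * budgetG a n k ∧
      redG a U n k (matOf n G) = code N H (kOf a k) ∧
      ((∃ S : Finset (Fin n), G.IsNClique k S) →
        ∃ S : Finset (Fin N), IsBisector H S ∧ S.card ≤ kOf a k) ∧
      ∀ S : Finset (Fin N), IsBisector H S → S.card ≤ a * kOf a k →
        ∃ S : Finset (Fin n), G.IsNClique k S := by
  set t := 4 * a with ht
  set w := wOf a k with hwdef
  set m := mOf a k with hmdef
  set K := kOf a k with hKdef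
  set L := a * K with hL
  set C := cOf a k with hCdef
  set B := baseG a k with hBdef
  set E := B ^ C with hE
  set X := yOf a k * (n + 1) with hX
  set n' := n ^ t with hn'
  set q := rootUp n k with hq
  set D := k * q * m ^ k + 1 with hD
  have hKm : K = m + k * w := rfl
  have hmw : m = k * w := rfl
  have hww : w = 2 * (2 * a * k) ^ 2 := by rw [hwdef, wOf]; ring
  have hCm : C = m * k ^ (2 * t) := rfl
  have hBL : B = L ^ (2 * t + 1) + 2 := rfl
  have hbud : budgetG a n k = (L + 2 + K * X + X * n' * n' * ((K + L + 1) * (C * E))) +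
    (2 * ((K + L + 1) * (C * E)) + K + L + 2) + K + X + n' + C + (K + L + 1) * E +
    (k + (n + 1) + (2 * t + 1) + w) := rfl
  have hk : k ≤ U.length := by omega
  have hn1 : n + 1 ≤ U.length := by omega
  have htU : 2 * t + 1 ≤ U.length := by omega
  have hwU : w ≤ U.length := by omega
  have hK : K ≤ U.length := by omega
  have hXU : X ≤ U.length := by omega
  have hn'U : n' ≤ U.length := by omega
  have hC : C ≤ U.length := by omega
  have hB1 : 1 < B := by omega
  have hpow : ∀ c < C, B ^ c ≤ E := fun c hc => Nat.pow_le_pow_right (by omega) (by omega)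
  set W := (K + L + 1) * ∑ c ∈ range C, B ^ c with hW
  have hWle : W ≤ (K + L + 1) * (C * E) := by
    refine Nat.mul_le_mul_left _ ?_
    calc ∑ c ∈ range C, B ^ c ≤ ∑ _c ∈ range C, E :=
          sum_le_sum (fun c hc => hpow c (mem_range.1 hc))
      _ = C * E := by rw [sum_const, card_range, smul_eq_mul]
  have hwT : wG U (K + L + 1) B C = W := by
    unfold wG
    rw [rng_eq hC, List.map_congr_left (f := fun c => pw U B c) (g := fun c => B ^ c)
      (fun c hc => pw_eq _ ((List.mem_range.1 hc).le.trans hC)), sum_map_range]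
  set P := L + 2 + K * X + X * n' * n' * W with hP
  set Z := 2 * W + K + L + 2 with hZ
  have hPle : P ≤ L + 2 + K * X + X * n' * n' * ((K + L + 1) * (C * E)) :=
    Nat.add_le_add_left (Nat.mul_le_mul_left _ hWle) _
  have hPU : P ≤ U.length := by omega
  have hZU : Z ≤ U.length := by omega
  have hM : ∀ c < C, (K + L + 1) * B ^ c ≤ U.length := fun c hc => by
    have := Nat.mul_le_mul_left (K + L + 1) (hpow c hc)
    omega
  set ok : ℕ → Gad → Prop := fun c e => okGB U n k t q m D (matOf n G) c e = true with hok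
  set att : ℕ → Gad → ℕ × ℕ → Prop := fun c e p => attGB U n k t m w c e p = true with hatt
  have hG := isGadgetL n' K L X C ok att (K + L + 1) B W P Z rfl hB1 rfl rfl rfl
  have hnX : n ≤ X := by
    have : 1 ≤ yOf a k := Nat.pos_of_ne_zero (by unfold yOf; positivity)
    have := Nat.mul_le_mul_right (n + 1) this
    omega
  have hDX : D ^ k ≤ X := word_bound n k m
  refine ⟨_, gadGraph (labsI n' K X C (K + L + 1) B P Z) ok att, ?_, ?_, ?_, ?_⟩
  · have := hG.hN
    omega
  · unfold redG redP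
    rw [rootT_eq hn1 hk, pw_eq _ hk, pw_eq _ hk, pw_eq n (show 4 * a ≤ U.length by omega),
      pw_eq k (show 2 * (4 * a) ≤ U.length by omega),
      pw_eq (a * kOf a k) (show 2 * (4 * a) + 1 ≤ U.length by omega)]
    have e := labsT_eq (U := U) hn'U hK hXU hC hPU hZU hM
    rw [hP, hZ, ← hwT] at e
    exact (congrArg _ e).trans (by
      rw [hwT]
      exact codeG_eq n k t q m w D hK _ _)
  · intro hcl
    rcases Nat.eq_zero_or_pos k with hk0 | hk0
    · have hm0 : m = 0 := by rw [hmw, hk0, zero_mul]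
      refine hG.complete ∅ (empty_subset _) (by rw [hKm, hm0, hk0]; simp) (fun c hc => ?_)
      rw [hCm, hm0, zero_mul] at hc
      omega
    have hw0 : 0 < w := by rw [hww]; positivity
    have hm0 : 0 < m := by rw [hmw]; positivity
    obtain ⟨v, hv, hadj⟩ := (clique_iff G k).1 hcl
    obtain ⟨Del, h1, h2, h3⟩ := gap_complete (t := t) (w := w) hk0 hm0 (le_rootUp_pow hk0) hDX hnX
      (fun u w => (matOf n G).getD (u * n + w) false = true) v hv hadj
    refine hG.complete Del h1 h2 (fun c _ => ?_)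
    obtain ⟨e, he, h4, h5⟩ := h3 c
    exact ⟨e, he, (okGB_iff hk0 hk (by omega) _ _ _ _ _ _).2 h4,
      fun p _ hp => h5 p ((attGB_iff (by omega) hwU _ _ e p).1 hp)⟩
  · intro S hS hcard
    rw [clique_iff]
    rcases Nat.eq_zero_or_pos k with hk0 | hk0
    · exact ⟨fun _ => 0, fun i hi => by omega, fun i hi => by omega⟩
    have hw0 : 0 < w := by rw [hww]; positivity
    have hm0 : 0 < m := by rw [hmw]; positivity
    have hlift : ∀ c, ∀ (Del : Finset (ℕ × ℕ)), ∀ e ∈ range X ×ˢ range n' ×ˢ range n',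
        (∀ p ∈ range K ×ˢ range X, att c e p → p ∈ Del) →
        ∀ p, AttG n k t m w c e p → p ∈ Del := by
      intro c Del e he h2 p hp
      exact h2 p (attG_mem hk0 hm0 hnX he hp) ((attGB_iff (by omega) hwU _ _ e p).2 hp)
    obtain ⟨Del, h1, h2⟩ := hG.sound (fun c _ Del hDel T hT => by
      have h3 := gap_few (n := n) (k := k) (t := t) (m := m) (X := X) (c := c) hw0 Del T
        (fun e he => ⟨(hT e he).1, hlift c Del e (hT e he).1 (hT e he).2.2⟩)
      have h4 : Del.card ^ (2 * t + 1) ≤ L ^ (2 * t + 1) := Nat.pow_le_pow_left hDel _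
      omega) S hcard hS
    refine gap_sound (D := D) (X := X) hk0 ha (le_rootUp_pow hk0) hww hmw
      (fun u w => (matOf n G).getD (u * n + w) false = true) Del (h1.trans hcard) (fun c hc => ?_)
    obtain ⟨e, he, h3, h4⟩ := h2 c hc
    exact ⟨e, he, (okGB_iff hk0 hk (by omega) _ _ _ _ _ _).1 h3, hlift c Del e he h4⟩

theorem primrec_wOf (a : ℕ) : Primrec (wOf a) := by
  have p : Primrec fun k : ℕ => 2 * a * k :=
    Primrec.nat_mul.comp (Primrec.const (2 * a)) Primrec.id
  exact Primrec.nat_mul.comp (Primrec.nat_mul.comp (Primrec.const 2) p) p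

theorem primrec_mOf (a : ℕ) : Primrec (mOf a) :=
  Primrec.nat_mul.comp Primrec.id (primrec_wOf a)

theorem primrec_kOf (a : ℕ) : Primrec (kOf a) :=
  Primrec.nat_add.comp (primrec_mOf a) (Primrec.nat_mul.comp Primrec.id (primrec_wOf a))

theorem primrec_cOf (a : ℕ) : Primrec (cOf a) :=
  Primrec.nat_mul.comp (primrec_mOf a) (primrec_pow Primrec.id (Primrec.const _))

theorem primrec_baseG (a : ℕ) : Primrec (baseG a) :=
  Primrec.nat_add.comp (primrec_pow (Primrec.nat_mul.comp (Primrec.const a) (primrec_kOf a))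
    (Primrec.const _)) (Primrec.const 2)

theorem primrec_yOf (a : ℕ) : Primrec (yOf a) :=
  primrec_pow (Primrec.nat_mul.comp (Primrec.const 2) (Primrec.nat_add.comp
    (Primrec.nat_mul.comp Primrec.id (primrec_pow (primrec_mOf a) Primrec.id))
      (Primrec.const 1))) Primrec.id

theorem fb_budgetG (a : ℕ) : FB fun I => budgetG a I.n I.k := by
  have fK := FB.par (primrec_kOf a).to_comp
  have fL := (FB.const a).mul fK
  have fC := FB.par (primrec_cOf a).to_comp
  have fE := FB.par (primrec_pow (primrec_baseG a) (primrec_cOf a)).to_comp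
  have fk : FB fun I => I.k := FB.par Computable.id
  have fw := FB.par (primrec_wOf a).to_comp
  have fn1 := FB.vert.add (FB.const 1)
  have fX := (FB.par (primrec_yOf a).to_comp).mul fn1
  have fn := FB.vert.pow (4 * a)
  have fM := (fK.add fL).add (FB.const 1)
  have fW := fM.mul (fC.mul fE)
  exact (((((((((fL.add (FB.const 2)).add (fK.mul fX)).add (((fX.mul fn).mul fn).mul fW)).add
    (((((FB.const 2).mul fW).add fK).add fL).add (FB.const 2))).add fK).add fX).add fn).add
    fC).add (fM.mul fE)).add (((fk.add fn1).add (FB.const (2 * (4 * a) + 1))).add fw)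

/-- a first budget, long enough for the small exponents -/
def u0 (a : ℕ) (x : List Bool) : List Unit :=
  (x.map fun _ => ()) ++ List.replicate (2 * (4 * a) + 1) ()

theorem pt_u0 (a : ℕ) : PT (u0 a) := by unfold u0; fun_prop

/-- the machine computing the reduction -/
theorem exists_redG (a : ℕ) (w : List Bool) :
    ∃ (M : BTM) (t : Inst → ℕ), FB t ∧ ∀ I : Inst, (w ++ redG a
      (List.replicate (budgetG a I.n I.k) ()) I.n I.k (matOf I.n I.G)).length ≤ t I ∧
      M.Out (code I.n I.G I.k) (w ++ redG a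
        (List.replicate (budgetG a I.n I.k) ()) I.n I.k (matOf I.n I.G)) (t I) := by
  set s : Inst → ℕ := fun I => budgetG a I.n I.k + (code I.n I.G I.k).length with hs
  have fs : FB s := by
    refine (fb_budgetG a).add ?_
    simp only [length_code]
    exact (FB.vert.add (FB.const 1)).add
      (((FB.par Computable.id).add (FB.const 1)).add (FB.vert.mul FB.vert))
  have hlen : PB s fun I => (code I.n I.G I.k).length := PB.self.mono (fun I => by simp [hs])
  have hx : PB s fun I => size (code I.n I.G I.k) :=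
    (((PB.const 4).mul hlen).add (PB.const 1)).mono (fun I => size_bits_le _)
  have hn := pt_nOf
  have hr := pt_restOf
  have hu := pt_u0 a
  have en : ∀ I : Inst, nOf (code I.n I.G I.k) = I.n := fun I => by rw [code_eq, nOf_eq]
  have ek : ∀ I : Inst, nOf (restOf (code I.n I.G I.k)) = I.k := fun I => by
    rw [code_eq, restOf_eq, nOf_eq]
  have em : ∀ I : Inst, restOf (restOf (code I.n I.G I.k)) = matOf I.n I.G := fun I => by
    rw [code_eq, restOf_eq, restOf_eq]
  have lu : ∀ I : Inst, I.k + (2 * (4 * a) + 1) ≤ (u0 a (code I.n I.G I.k)).length := fun I => by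
    rw [u0, List.length_append, List.length_map, length_code, List.length_replicate]; omega
  have e1 : ∀ (I : Inst) (b : ℕ), pw (u0 a (code I.n I.G I.k)) b I.k = b ^ I.k :=
    fun I b => pw_eq _ (by have := lu I; omega)
  have e2 : ∀ (I : Inst) (b : ℕ), pw (u0 a (code I.n I.G I.k)) b (4 * a) = b ^ (4 * a) :=
    fun I b => pw_eq _ (by have := lu I; omega)
  have e3 : ∀ (I : Inst) (b : ℕ), pw (u0 a (code I.n I.G I.k)) b (2 * (4 * a))
      = b ^ (2 * (4 * a)) := fun I b => pw_eq _ (by have := lu I; omega)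
  have e4 : ∀ (I : Inst) (b : ℕ), pw (u0 a (code I.n I.G I.k)) b (2 * (4 * a) + 1)
      = b ^ (2 * (4 * a) + 1) := fun I b => pw_eq _ (by have := lu I; omega)
  -- first expansion
  have r1 : RT s (fun I => code I.n I.G I.k) (fun I => (cOf a I.k, code I.n I.G I.k)) :=
    (RT.of_PT (f := fun x : List Bool =>
      (mOf a (nOf (restOf x)) * pw (u0 a x) (nOf (restOf x)) (2 * (4 * a)), x))
      (by fun_prop) hx).of_eq (fun I => by simp only [ek, e3]; rfl)
  have b1 : PB s fun I => cOf a I.k :=
    PB.self.mono (fun I => by simp only [hs, budgetG, budG]; omega)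
  have r2 := r1.trans (RT.expand b1 hx)
  -- second expansion
  have r3 : RT s (fun I => (List.replicate (cOf a I.k) (), code I.n I.G I.k))
      (fun I => (budgetG a I.n I.k, code I.n I.G I.k)) :=
    (RT.of_PT (f := fun p : List Unit × List Bool => (budG (pw (u0 a p.2) (nOf p.2) (4 * a))
      (pw (u0 a p.2) (2 * (nOf (restOf p.2) * pw (u0 a p.2) (mOf a (nOf (restOf p.2)))
        (nOf (restOf p.2)) + 1)) (nOf (restOf p.2)) * (nOf p.2 + 1))
      (kOf a (nOf (restOf p.2))) (a * kOf a (nOf (restOf p.2))) p.1.length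
      (pw p.1 (pw (u0 a p.2) (a * kOf a (nOf (restOf p.2))) (2 * (4 * a) + 1) + 2) p.1.length)
      (nOf (restOf p.2) + (nOf p.2 + 1) + (2 * (4 * a) + 1) + wOf a (nOf (restOf p.2))), p.2))
      (by unfold budG; fun_prop) (r2.size_le hx)).of_eq (fun I => by
        simp only [en, ek, e1, e2, e4]
        rw [pw_eq _ le_rfl, List.length_replicate]
        rfl)
  have b2 : PB s fun I => budgetG a I.n I.k :=
    PB.self.mono (fun I => by simp only [hs]; omega)
  have r4 := (r2.trans r3).trans (RT.expand b2 hx)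
  have r5 := r4.trans ((RT.of_PT (f := fun p : List Unit × List Bool =>
      w ++ redG a p.1 (nOf p.2) (nOf (restOf p.2)) (restOf (restOf p.2))) (by fun_prop)
      (r4.size_le hx)).of_eq
      (z := fun I => w ++ redG a (List.replicate (budgetG a I.n I.k) ()) I.n I.k
        (matOf I.n I.G)) (fun I => by simp only [en, ek, em]))
  obtain ⟨M, t, ht, hy, hM⟩ := r5.exists_btm hlen
  exact ⟨M, _, fs.of_PB (ht.add hy), fun I => ⟨Nat.le_add_left _ _,
    (hM I).mono (Nat.le_add_right _ _)⟩⟩

theorem mainG (ε : ℝ) (w : List Bool) (h : SolvableFPT w (ApproxAnswer ε)) :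
    SolvableFPT [] CliqueAnswer := by
  obtain ⟨tm, e₀, e₁, f, c, hfin, hf, hA⟩ := h
  obtain ⟨a', ha'⟩ := exists_nat_ge ε
  set a := a' + 1 with hadef
  have ha : 0 < a := by omega
  have haε : 1 + ε ≤ (a : ℝ) := by rw [hadef]; push_cast; linarith
  obtain ⟨M₁, t₁, ft₁, h₁⟩ := exists_redG a w
  obtain ⟨M₃, p, h₃⟩ := exists_head
  let M₂ : BTM := ⟨tm, e₀, e₁, hfin⟩
  have fN : FB fun I => 3 * budgetG a I.n I.k + 1 :=
    ((FB.const 3).mul (fb_budgetG a)).add (FB.const 1)
  have ft₂ : FB fun I => f (kOf a I.k) * (3 * budgetG a I.n I.k + 1) ^ c :=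
    (FB.par (hf.comp (primrec_kOf a).to_comp)).mul (fN.pow c)
  obtain ⟨g, d, hg, hT⟩ := ((((ft₁.add ft₂).add ((FB.const 2).mul ft₁)).add (FB.const 2)).add
    (fN.eval p)).add ((FB.const 2).mul fN) |>.add (FB.const 2)
  refine ⟨((M₁.comp M₂).comp M₃).tm, ((M₁.comp M₂).comp M₃).e₀, ((M₁.comp M₂).comp M₃).e₁, g, d,
    ((M₁.comp M₂).comp M₃).fin, hg, fun n G k => ?_⟩
  obtain ⟨N, H, hN, hcode, hyes, hno⟩ := redG_correct (k := k) G ha
    (U := List.replicate (budgetG a n k) ()) (by simp)
  obtain ⟨out, hout, hrun⟩ := hA N H (kOf a k)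
  obtain ⟨l₁, o₁⟩ := h₁ ⟨n, G, k⟩
  dsimp only at l₁ o₁
  rw [hcode] at l₁ o₁
  have o₂ : M₂.Out (w ++ code N H (kOf a k)) out (f (kOf a k) * (N + 1) ^ c) := hrun
  have lout : out.length ≤ N + 1 := by
    rcases hout with ⟨S, -, -, rfl⟩ | ⟨rfl, -⟩ <;> simp
  have o := (o₁.comp o₂).comp (h₃ out)
  refine ⟨[out.headD false], ?_, o.mono (le_trans ?_ (hT ⟨n, G, k⟩))⟩
  · rcases hout with ⟨S, hS, hcard, rfl⟩ | ⟨rfl, hnone⟩
    · refine Or.inl ⟨rfl, hno S hS ?_⟩
      have hK : (0 : ℝ) ≤ ((kOf a k : ℕ) : ℝ) := Nat.cast_nonneg _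
      have : (S.card : ℝ) ≤ a * (kOf a k : ℕ) :=
        hcard.trans (mul_le_mul_of_nonneg_right haε hK)
      exact_mod_cast this
    · exact Or.inr ⟨rfl, fun hc => hnone (hyes hc)⟩
  · dsimp only
    have a1 : (N + 1) ^ c ≤ (3 * budgetG a n k + 1) ^ c := Nat.pow_le_pow_left (by omega) c
    have a2 := Nat.mul_le_mul_left (f (kOf a k)) a1
    have a3 := eval_mono p (show out.length ≤ 3 * budgetG a n k + 1 by omega)
    omega

end Pool.Agent.P.MP_8c536d_lc
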