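import Mathlib

/-!
The gap-creating constraint system on the grid `[q]^k` (points are coded by numbers `r < q^k`).
-/

namespace Pool.Agent.P.MP_8c536d_lc

open Finset

/-- a class of constraints: a point, two directions and two step lengths -/
abbrev Cls : Type := ℕ × ℕ × ℕ × ℕ × ℕ

/-- a gadget inside a class: a value and two vertices -/
abbrev Gad : Type := ℕ × ℕ × ℕ

/-- the classes that are used -/
def Valid (k q : ℕ) (t : Cls) : Prop :=
  t.1 < q ^ k ∧ t.2.1 < k ∧ t.2.2.1 < k ∧ 1 ≤ t.2.2.2.1 ∧ 1 ≤ t.2.2.2.2 ∧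
    t.1 / q ^ t.2.1 % q + t.2.2.2.1 < q ∧ t.1 / q ^ t.2.2.1 % q + t.2.2.2.2 < q

/-- the gadgets that can be cut off -/
def OkT (adj : ℕ → ℕ → Prop) (D : ℕ) (t : Cls) (e : Gad) : Prop :=
  (t.2.1 = t.2.2.1 ∨ adj e.2.1 e.2.2) ∧ e.1 + t.2.2.2.1 * e.2.1 < D ∧ e.1 + t.2.2.2.2 * e.2.2 < D

/-- the three selectors a gadget is attached to -/
def AttT (q : ℕ) (t : Cls) (e : Gad) (p : ℕ × ℕ) : Prop :=
  p = (t.1, e.1) ∨ p = (t.1 + t.2.2.2.1 * q ^ t.2.1, e.1 + t.2.2.2.1 * e.2.1) ∨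
    p = (t.1 + t.2.2.2.2 * q ^ t.2.2.1, e.1 + t.2.2.2.2 * e.2.2)

theorem div_high {q r a i l : ℕ} (h : r / q ^ i % q + a < q) (hl : i < l) :
    (r + a * q ^ i) / q ^ l = r / q ^ l := by
  have hq : 0 < q := by omega
  obtain ⟨s, rfl⟩ : ∃ s, l = i + (1 + s) := ⟨l - i - 1, by omega⟩
  rw [pow_add, pow_add, pow_one, ← Nat.div_div_eq_div_mul, ← Nat.div_div_eq_div_mul,
    ← Nat.div_div_eq_div_mul, ← Nat.div_div_eq_div_mul,
    Nat.add_mul_div_right _ _ (pow_pos hq i)]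
  congr 1
  set y := r / q ^ i
  have h1 := Nat.div_add_mod y q
  have : y + a = q * (y / q) + (y % q + a) := by omega
  rw [this, Nat.mul_add_div hq, Nat.div_eq_of_lt h]
  simp

theorem step_lt {q r a i k : ℕ} (h : r / q ^ i % q + a < q) (hi : i < k) (hr : r < q ^ k) :
    r + a * q ^ i < q ^ k := by
  have hq : 0 < q := by omega
  have h1 := div_high h hi
  rw [Nat.div_eq_of_lt hr] at h1
  exact (Nat.div_eq_zero_iff_lt (pow_pos hq k)).1 h1

theorem digit_step {q r a i : ℕ} (h : r / q ^ i % q + a < q) (l : ℕ) :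
    (r + a * q ^ i) / q ^ l % q = r / q ^ l % q + if l = i then a else 0 := by
  have hq : 0 < q := by omega
  rcases lt_trichotomy l i with hl | rfl | hl
  · obtain ⟨s, rfl⟩ : ∃ s, i = l + (1 + s) := ⟨i - l - 1, by omega⟩
    have e : a * q ^ (l + (1 + s)) = (q * (a * q ^ s)) * q ^ l := by ring
    rw [e, Nat.add_mul_div_right _ _ (pow_pos hq l), Nat.add_mul_mod_self_left,
      if_neg (by omega), add_zero]
  · rw [Nat.add_mul_div_right _ _ (pow_pos hq l), if_pos rfl, Nat.add_mod,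
      Nat.mod_eq_of_lt (show a < q by omega), Nat.mod_eq_of_lt h]
  · rw [div_high h hl, if_neg (by omega), add_zero]

/-- the honest value at a point of the grid -/
def val (k q : ℕ) (v : ℕ → ℕ) (r : ℕ) : ℕ := ∑ l ∈ range k, r / q ^ l % q * v l

theorem val_step {k q r a i : ℕ} (v : ℕ → ℕ) (h : r / q ^ i % q + a < q) (hi : i < k) :
    val k q v (r + a * q ^ i) = val k q v r + a * v i := by
  unfold val
  simp only [digit_step h, add_mul, sum_add_distrib, ite_mul, zero_mul]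
  rw [sum_ite_eq' (range k) i, if_pos (mem_range.2 hi)]

theorem val_lt {k q n : ℕ} (hq : 0 < q) (v : ℕ → ℕ) (hv : ∀ i < k, v i < n) (r : ℕ) :
    val k q v r < k * q * n + 1 := by
  unfold val
  have : ∑ l ∈ range k, r / q ^ l % q * v l ≤ ∑ _l ∈ range k, q * n :=
    sum_le_sum (fun l hl => Nat.mul_le_mul (Nat.mod_lt _ hq).le (hv l (mem_range.1 hl)).le)
  rw [sum_const, card_range, smul_eq_mul, ← mul_assoc] at this
  omega

theorem grid_complete {k q n : ℕ} (hq : 0 < q) (adj : ℕ → ℕ → Prop) (v : ℕ → ℕ)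
    (hv : ∀ i < k, v i < n) (hadj : ∀ i < k, ∀ j < k, i ≠ j → adj (v i) (v j)) :
    ∃ Del : Finset (ℕ × ℕ), Del ⊆ range (q ^ k) ×ˢ range (k * q * n + 1) ∧ Del.card = q ^ k ∧
      ∀ t, Valid k q t → ∃ e ∈ range (k * q * n + 1) ×ˢ range n ×ˢ range n,
        OkT adj (k * q * n + 1) t e ∧ ∀ p, AttT q t e p → p ∈ Del := by
  refine ⟨(range (q ^ k)).image fun r => (r, val k q v r), ?_, ?_, ?_⟩
  · intro p hp
    obtain ⟨r, hr, rfl⟩ := mem_image.1 hp
    exact mem_product.2 ⟨hr, mem_range.2 (val_lt hq v hv r)⟩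
  · rw [card_image_of_injective _ (fun a b hab => (Prod.ext_iff.1 hab).1), card_range]
  · rintro ⟨r, i, j, a, b⟩ ⟨hr, hi, hj, ha, hb, h1, h2⟩
    dsimp only at hr hi hj ha hb h1 h2
    refine ⟨(val k q v r, v i, v j), ?_, ⟨?_, ?_, ?_⟩, ?_⟩
    · simp only [mem_product, mem_range]
      exact ⟨val_lt hq v hv r, hv i hi, hv j hj⟩
    · by_cases hij : i = j
      · exact Or.inl hij
      · exact Or.inr (hadj i hi j hj hij)
    · dsimp only
      rw [← val_step v h1 hi]; exact val_lt hq v hv _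
    · dsimp only
      rw [← val_step v h2 hj]; exact val_lt hq v hv _
    · rintro p (rfl | rfl | rfl)
      · exact mem_image.2 ⟨r, mem_range.2 hr, rfl⟩
      · exact mem_image.2 ⟨_, mem_range.2 (step_lt h1 hi hr), by rw [val_step v h1 hi]⟩
      · exact mem_image.2 ⟨_, mem_range.2 (step_lt h2 hj hr), by rw [val_step v h2 hj]⟩

theorem att_mem {k q D : ℕ} {adj : ℕ → ℕ → Prop} {t : Cls} {e : Gad} (ht : Valid k q t)
    (he : e.1 < D) (hok : OkT adj D t e) {p : ℕ × ℕ} (hp : AttT q t e p) :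
    p ∈ range (q ^ k) ×ˢ range D := by
  obtain ⟨hr, hi, hj, ha, hb, h1, h2⟩ := ht
  simp only [mem_product, mem_range]
  rcases hp with rfl | rfl | rfl
  · exact ⟨hr, he⟩
  · exact ⟨step_lt h1 hi hr, hok.2.1⟩
  · exact ⟨step_lt h2 hj hr, hok.2.2⟩

theorem grid_few {k q : ℕ} {t : Cls} (ht : Valid k q t) (Del : Finset (ℕ × ℕ)) (T : Finset Gad)
    (hT : ∀ e ∈ T, ∀ p, AttT q t e p → p ∈ Del) : T.card ≤ Del.card ^ 3 := by
  obtain ⟨r, i, j, a, b⟩ := t
  obtain ⟨hr, hi, hj, ha, hb, h1, h2⟩ := ht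
  dsimp only at hr hi hj ha hb h1 h2
  have := card_le_card_of_injOn (s := T) (t := Del ×ˢ Del ×ˢ Del)
    (fun e : Gad => (((r, e.1), (r + a * q ^ i, e.1 + a * e.2.1),
      (r + b * q ^ j, e.1 + b * e.2.2)) : (ℕ × ℕ) × (ℕ × ℕ) × (ℕ × ℕ)))
    (fun e he => by
      simp only [coe_product, Set.mem_prod, mem_coe]
      exact ⟨hT e he _ (Or.inl rfl), hT e he _ (Or.inr (Or.inl rfl)),
        hT e he _ (Or.inr (Or.inr rfl))⟩)
    (fun e _ e' _ h => by
      obtain ⟨x, u, w⟩ := e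
      obtain ⟨x', u', w'⟩ := e'
      simp only [Prod.mk.injEq, true_and] at h
      obtain ⟨rfl, h3, h4⟩ := h
      have h5 := Nat.eq_of_mul_eq_mul_left ha (Nat.add_left_cancel h3)
      have h6 := Nat.eq_of_mul_eq_mul_left hb (Nat.add_left_cancel h4)
      rw [h5, h6])
  simp only [card_product] at this
  calc T.card ≤ _ := this
    _ = _ := by ring

theorem top_card {k q i : ℕ} (hq : 0 < q) (hi : i < k) (A Top : Finset ℕ)
    (hA : ∀ r ∈ A, r < q ^ k) (hsub : Top ⊆ A)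
    (hTop : ∀ r ∈ Top, ∀ a, 1 ≤ a → r / q ^ i % q + a < q → r + a * q ^ i ∉ A) :
    Top.card ≤ q ^ (k - 1) := by
  have dec : ∀ r, r = q ^ i * (q * (r / q ^ (i + 1)) + r / q ^ i % q) + r % q ^ i := by
    intro r
    rw [pow_succ, ← Nat.div_div_eq_div_mul, Nat.div_add_mod, Nat.div_add_mod]
  have key : ∀ r ∈ Top, ∀ r' ∈ Top, r / q ^ (i + 1) = r' / q ^ (i + 1) → r % q ^ i = r' % q ^ i →
      r / q ^ i % q ≤ r' / q ^ i % q → r = r' := by
    intro r hr r' hr' h1 h2 hle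
    obtain ⟨a, ha⟩ := Nat.exists_eq_add_of_le hle
    have e : r' = r + a * q ^ i := by
      have d1 := dec r
      have d2 := dec r'
      rw [ha, ← h1, ← h2] at d2
      generalize r / q ^ i % q = d at d1 d2
      generalize r / q ^ (i + 1) = s at d1 d2
      generalize r % q ^ i = u at d1 d2
      rw [d2]
      conv_rhs => rw [d1]
      ring
    rcases Nat.eq_zero_or_pos a with rfl | hpos
    · simpa using e.symm
    · exfalso
      refine hTop r hr a hpos ?_ (e ▸ hsub hr')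
      rw [← ha]; exact Nat.mod_lt _ hq
  have := card_le_card_of_injOn (s := Top) (t := range (q ^ (k - 1 - i)) ×ˢ range (q ^ i))
    (fun r => (r / q ^ (i + 1), r % q ^ i))
    (fun r hr => by
      simp only [coe_product, Set.mem_prod, mem_coe, mem_range]
      refine ⟨?_, Nat.mod_lt _ (pow_pos hq i)⟩
      rw [Nat.div_lt_iff_lt_mul (pow_pos hq _), ← pow_add]
      have e : k - 1 - i + (i + 1) = k := by omega
      rw [e]
      exact hA r (hsub hr))
    (fun r hr r' hr' h => by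
      simp only [Prod.mk.injEq] at h
      rcases le_total (r / q ^ i % q) (r' / q ^ i % q) with hle | hle
      · exact key r hr r' hr' h.1 h.2 hle
      · exact (key r' hr' r hr h.1.symm h.2.symm hle).symm)
  rw [card_product, card_range, card_range, ← pow_add] at this
  have e : k - 1 - i + i = k - 1 := by omega
  rwa [e] at this

theorem grid_sound {k q n m D : ℕ} (hq : 2 * k * m < q) (adj : ℕ → ℕ → Prop)
    (Del : Finset (ℕ × ℕ)) (hDel : m * Del.card + q ^ k ≤ 2 * m * q ^ k)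
    (h : ∀ t, Valid k q t → ∃ e ∈ range D ×ˢ range n ×ˢ range n,
      OkT adj D t e ∧ ∀ p, AttT q t e p → p ∈ Del) :
    ∃ v : ℕ → ℕ, (∀ i < k, v i < n) ∧ ∀ i < k, ∀ j < k, i ≠ j → adj (v i) (v j) := by
  classical
  rcases Nat.eq_zero_or_pos k with rfl | hk
  · exact ⟨fun _ => 0, fun i hi => by omega, fun i hi => by omega⟩
  have hq0 : 0 < q := by omega
  set A := (range (q ^ k)).filter fun r => (Del.filter fun p => p.1 = r).card ≤ 1 with hA
  set A' := (range (q ^ k)).filter fun r => ¬ (Del.filter fun p => p.1 = r).card ≤ 1 with hA'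
  have c1 : A.card + A'.card = q ^ k := by
    rw [hA, hA', card_filter_add_card_filter_not, card_range]
  have c2 : 2 * A'.card ≤ Del.card := by
    calc 2 * A'.card = ∑ _r ∈ A', 2 := by rw [sum_const, smul_eq_mul, mul_comm]
      _ ≤ ∑ r ∈ A', (Del.filter fun p => p.1 = r).card :=
        sum_le_sum (fun r hr => by have := (mem_filter.1 hr).2; omega)
      _ = (Del.filter fun p => p.1 ∈ A').card := sum_card_fiberwise_eq_card_filter _ _ _
      _ ≤ Del.card := card_filter_le _ _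
  set Top : ℕ → Finset ℕ := fun i =>
    A.filter fun r => ∀ a, 1 ≤ a → r / q ^ i % q + a < q → r + a * q ^ i ∉ A with hTop
  have c3 : ((range k).biUnion Top).card ≤ k * q ^ (k - 1) := by
    refine (card_biUnion_le_card_mul _ _ (q ^ (k - 1)) (fun i hi => ?_)).trans (by rw [card_range])
    exact top_card hq0 (mem_range.1 hi) A _ (fun r hr => mem_range.1 (mem_filter.1 hr).1)
      (filter_subset _ _) (fun r hr => (mem_filter.1 hr).2)
  have c4 : k * q ^ (k - 1) < A.card := by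
    by_contra hle
    push Not at hle
    have e : q ^ k = q * q ^ (k - 1) := by
      rw [← pow_succ']; congr 1; omega
    have hpos : 0 < q ^ (k - 1) := pow_pos hq0 _
    have h1 : 2 * k * m * q ^ (k - 1) < q ^ k := by
      rw [e]; exact Nat.mul_lt_mul_of_pos_right hq hpos
    have h2 : m * (2 * A'.card) ≤ m * Del.card := Nat.mul_le_mul_left _ c2
    have h3 : m * A.card ≤ m * (k * q ^ (k - 1)) := Nat.mul_le_mul_left _ hle
    have h4 : m * A.card + m * A'.card = m * q ^ k := by rw [← mul_add, c1]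
    nlinarith
  obtain ⟨r, hrA, hrT⟩ : ∃ r ∈ A, r ∉ (range k).biUnion Top :=
    exists_mem_notMem_of_card_lt_card (c3.trans_lt c4)
  have hr : r < q ^ k := mem_range.1 (mem_filter.1 hrA).1
  have huniq : ∀ s ∈ A, ∀ x y, (s, x) ∈ Del → (s, y) ∈ Del → x = y := by
    intro s hs x y hx hy
    have := card_le_one.1 (mem_filter.1 hs).2 (s, x) (mem_filter.2 ⟨hx, rfl⟩) (s, y)
      (mem_filter.2 ⟨hy, rfl⟩)
    exact (Prod.ext_iff.1 this).2
  have hstep : ∀ i < k, ∃ a, 1 ≤ a ∧ r / q ^ i % q + a < q ∧ r + a * q ^ i ∈ A := by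
    intro i hi
    by_contra hne
    push Not at hne
    exact hrT (mem_biUnion.2 ⟨i, mem_range.2 hi, mem_filter.2 ⟨hrA, hne⟩⟩)
  choose! a ha1 ha2 ha3 using hstep
  have hpair : ∀ i < k, ∀ j < k, ∃ x u w, u < n ∧ (i = j ∨ adj u w) ∧ (r, x) ∈ Del ∧
      (r + a i * q ^ i, x + a i * u) ∈ Del ∧ (r + a j * q ^ j, x + a j * w) ∈ Del := by
    intro i hi j hj
    obtain ⟨⟨x, u, w⟩, he, hok, hatt⟩ := h (r, i, j, a i, a j)
      ⟨hr, hi, hj, ha1 i hi, ha1 j hj, ha2 i hi, ha2 j hj⟩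
    simp only [mem_product, mem_range] at he
    exact ⟨x, u, w, he.2.1, hok.1, hatt _ (Or.inl rfl), hatt _ (Or.inr (Or.inl rfl)),
      hatt _ (Or.inr (Or.inr rfl))⟩
  have hone : ∀ i < k, ∃ x u, u < n ∧ (r, x) ∈ Del ∧ (r + a i * q ^ i, x + a i * u) ∈ Del := by
    intro i hi
    obtain ⟨x, u, w, h1, -, h2, h3, -⟩ := hpair i hi i hi
    exact ⟨x, u, h1, h2, h3⟩
  choose! y v hv1 hv2 hv3 using hone
  refine ⟨v, hv1, fun i hi j hj hij => ?_⟩
  obtain ⟨x, u, w, -, h1, h2, h3, h4⟩ := hpair i hi j hj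
  have e1 := huniq r hrA _ _ h2 (hv2 i hi)
  have e2 := huniq r hrA _ _ h2 (hv2 j hj)
  have e3 := huniq _ (ha3 i hi) _ _ h3 (hv3 i hi)
  have e4 := huniq _ (ha3 j hj) _ _ h4 (hv3 j hj)
  rw [← e1] at e3
  rw [← e2] at e4
  rw [← Nat.eq_of_mul_eq_mul_left (ha1 i hi) (Nat.add_left_cancel e3),
    ← Nat.eq_of_mul_eq_mul_left (ha1 j hj) (Nat.add_left_cancel e4)]
  exact h1.resolve_left hij

end Pool.Agent.P.MP_8c536d_lc
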