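import Pool.Agent.P.MP_8c536d_lc.Correct

/-!
The reduction from Clique to approximate Vertex Bisection and its running time.
-/

namespace Pool.Agent.P.MP_8c536d_lc

open Finset Pool.Agent.Lib.Helper47 Pool.Agent.Lib.Helper33

/-- bound for the number of classes -/
def c0 (k q K : ℕ) : ℕ := K * k * k * q * q

/-- bound for the weight of a gadget, `E` standing for a power of the base -/
def bud (n k q K E : ℕ) : ℕ :=
  (2 * K + 2 + K * (k * q * n + 1) + (k * q * n + 1) * n * n * ((2 * K + 1) * (c0 k q K * E))) +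
    (2 * ((2 * K + 1) * (c0 k q K * E)) + 3 * K + 2) + K + (k * q * n + 1) + q + k + c0 k q K + n +
    (2 * K + 1) * E

/-- the base of the weights -/
def base (K : ℕ) : ℕ := 2 * K * (2 * K) * (2 * K) + 2

/-- the budget -/
def budget (n k q : ℕ) : ℕ := bud n k q (q ^ k) (base (q ^ k) ^ c0 k q (q ^ k))

theorem red_correct {n k q m : ℕ} (G : SimpleGraph (Fin n)) (hm : 0 < m) (hq : 2 * k * m < q)
    {U : List Unit} (hU : budget n k q ≤ U.length) :
    ∃ (N : ℕ) (H : SimpleGraph (Fin N)), N ≤ 3 * budget n k q ∧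
      redT U n k q (matOf n G) = code N H (q ^ k) ∧
      ((∃ S : Finset (Fin n), G.IsNClique k S) →
        ∃ S : Finset (Fin N), IsBisector H S ∧ S.card ≤ q ^ k) ∧
      ∀ S : Finset (Fin N), IsBisector H S → m * S.card + q ^ k ≤ 2 * m * q ^ k →
        ∃ S : Finset (Fin n), G.IsNClique k S := by
  have hq0 : 0 < q := by omega
  set K := q ^ k with hKdef
  set E := base K ^ c0 k q K with hE
  set D := k * q * n + 1 with hD
  have hbud : budget n k q = (2 * K + 2 + K * D + D * n * n * ((2 * K + 1) * (c0 k q K * E))) +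
    (2 * ((2 * K + 1) * (c0 k q K * E)) + 3 * K + 2) + K + D + q + k + c0 k q K + n +
    (2 * K + 1) * E := rfl
  have hk : k ≤ U.length := by omega
  have hqU : q ≤ U.length := by omega
  have hK : K ≤ U.length := by omega
  have hDU : D ≤ U.length := by omega
  have hn : n ≤ U.length := by omega
  set cls := clsT U k q with hcls
  set C := cls.length with hCdef
  have hC0 : C ≤ c0 k q K := length_clsT_le hk hqU hK
  have hC : C ≤ U.length := by omega
  have hBpos : 1 ≤ base K := by unfold base; omega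
  have hpow : ∀ c < C, base K ^ c ≤ E := fun c hc =>
    Nat.pow_le_pow_right hBpos (by omega)
  set W := (2 * K + 1) * ∑ c ∈ range C, base K ^ c with hW
  have hWle : W ≤ (2 * K + 1) * (c0 k q K * E) := by
    refine Nat.mul_le_mul_left _ ?_
    calc ∑ c ∈ range C, base K ^ c ≤ ∑ _c ∈ range C, E :=
          sum_le_sum (fun c hc => hpow c (mem_range.1 hc))
      _ = C * E := by rw [sum_const, card_range, smul_eq_mul]
      _ ≤ _ := Nat.mul_le_mul_right _ hC0
  have hwT : wT U K C = W := by
    unfold wT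
    rw [rng_eq hC, List.map_congr_left (f := fun c => pw U (2 * K * (2 * K) * (2 * K) + 2) c)
      (g := fun c => base K ^ c)
      (fun c hc => pw_eq _ ((List.mem_range.1 hc).le.trans hC)), sum_map_range]
  set P := 2 * K + 2 + K * D + D * n * n * W with hP
  set Z := 2 * W + 3 * K + 2 with hZ
  have hPle : P ≤ 2 * K + 2 + K * D + D * n * n * ((2 * K + 1) * (c0 k q K * E)) :=
    Nat.add_le_add_left (Nat.mul_le_mul_left _ hWle) _
  have hPU : P ≤ U.length := by omega
  have hZU : Z ≤ U.length := by omega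
  have hM : ∀ c < C, (2 * K + 1) * base K ^ c ≤ U.length := fun c hc => by
    have := Nat.mul_le_mul_left (2 * K + 1) (hpow c hc)
    omega
  set ok : ℕ → Gad → Prop := fun c e =>
    okB n D (matOf n G) (cls.getD c (0, 0, 0, 0, 0)) e = true with hok
  set att : ℕ → Gad → ℕ × ℕ → Prop := fun c e p =>
    attB U q (cls.getD c (0, 0, 0, 0, 0)) e p = true with hatt
  have hG := isGadget n K D C ok att (2 * K + 1) (base K) W P Z rfl rfl rfl rfl rfl
  have hvalid : ∀ c < C, Valid k q (cls.getD c (0, 0, 0, 0, 0)) := by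
    intro c hc
    rw [← mem_clsT hk hqU hK, List.getD_eq_getElem _ _ hc]
    exact List.getElem_mem hc
  refine ⟨_, gadGraph (labsI n K D C (2 * K + 1) (base K) P Z) ok att, ?_, ?_, ?_, ?_⟩
  · have := hG.hN
    omega
  · unfold redT
    rw [pw_eq _ hk, hwT]
    exact (congrArg _ (labsT_eq hn hK hDU hC hPU hZU hM)).trans
      (codeT_eq n q D hK _ _ _)
  · intro hcl
    obtain ⟨v, hv, hadj⟩ := (clique_iff G k).1 hcl
    obtain ⟨Del, h1, h2, h3⟩ := grid_complete hq0
      (fun u w => (matOf n G).getD (u * n + w) false = true) v hv hadj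
    refine hG.complete Del h1 h2 (fun c hc => ?_)
    obtain ⟨e, he, h4, h5⟩ := h3 _ (hvalid c hc)
    exact ⟨e, he, (okB_iff _ _ _ _ _).2 h4,
      fun p _ hp => h5 p ((attB_iff hk (hvalid c hc) e p).1 hp)⟩
  · intro S hS hcard
    have hS2 : S.card ≤ 2 * K := by
      refine Nat.le_of_mul_le_mul_left ?_ hm
      nlinarith
    have hlift : ∀ c < C, ∀ (Del : Finset (ℕ × ℕ)), ∀ e ∈ range D ×ˢ range n ×ˢ range n,
        ok c e → (∀ p ∈ range K ×ˢ range D, att c e p → p ∈ Del) →
        ∀ p, AttT q (cls.getD c (0, 0, 0, 0, 0)) e p → p ∈ Del := by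
      intro c hc Del e he h1 h2 p hp
      exact h2 p (att_mem (hvalid c hc) (mem_range.1 (mem_product.1 he).1)
        ((okB_iff _ _ _ _ _).1 h1) hp) ((attB_iff hk (hvalid c hc) e p).2 hp)
    obtain ⟨Del, h1, h2⟩ := hG.sound (fun c hc Del hDel T hT => by
      have h3 := grid_few (hvalid c hc) Del T
        (fun e he => hlift c hc Del e (hT e he).1 (hT e he).2.1 (hT e he).2.2)
      have h4 : Del.card ^ 3 ≤ (2 * K) ^ 3 := Nat.pow_le_pow_left hDel 3
      have h5 : (2 * K) ^ 3 = 2 * K * (2 * K) * (2 * K) := by ring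
      unfold base
      omega) S hS2 hS
    rw [clique_iff]
    refine grid_sound (D := D) hq (fun u w => (matOf n G).getD (u * n + w) false = true) Del
      (le_trans (Nat.add_le_add_right (Nat.mul_le_mul_left _ h1) _) hcard) (fun t ht => ?_)
    obtain ⟨c, hc, rfl⟩ := List.getElem_of_mem ((mem_clsT hk hqU hK t).2 ht)
    obtain ⟨e, he, h3, h4⟩ := h2 c hc
    have := hlift c hc Del e he h3 h4
    rw [List.getD_eq_getElem _ _ hc] at this
    refine ⟨e, he, ?_, this⟩
    have h5 := (okB_iff _ _ _ _ _).1 h3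
    rwa [List.getD_eq_getElem _ _ hc] at h5

/-- instances -/
structure Inst where
  n : ℕ
  G : SimpleGraph (Fin n)
  k : ℕ

/-- bounded by `f k * (n + 1) ^ c` with `f` computable -/
def FB (t : Inst → ℕ) : Prop :=
  ∃ (f : ℕ → ℕ) (c : ℕ), Computable f ∧ ∀ I, t I ≤ f I.k * (I.n + 1) ^ c

namespace FB
variable {s t : Inst → ℕ}

theorem par {f : ℕ → ℕ} (hf : Computable f) : FB fun I => f I.k := ⟨f, 0, hf, by simp⟩
theorem const (a : ℕ) : FB fun _ => a := par (Computable.const a)
theorem vert : FB fun I => I.n := ⟨fun _ => 1, 1, Computable.const 1, by simp⟩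
theorem mono (h : FB t) (hle : ∀ I, s I ≤ t I) : FB s := by
  obtain ⟨f, c, hf, h⟩ := h
  exact ⟨f, c, hf, fun I => (hle I).trans (h I)⟩
theorem add (h1 : FB s) (h2 : FB t) : FB fun I => s I + t I := by
  obtain ⟨f, c, hf, h1⟩ := h1
  obtain ⟨g, d, hg, h2⟩ := h2
  refine ⟨fun k => f k + g k, c + d, Primrec.nat_add.to_comp.comp hf hg, fun I => ?_⟩
  have e1 : (I.n + 1) ^ c ≤ (I.n + 1) ^ (c + d) := Nat.pow_le_pow_right (by omega) (by omega)
  have e2 : (I.n + 1) ^ d ≤ (I.n + 1) ^ (c + d) := Nat.pow_le_pow_right (by omega) (by omega)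
  rw [add_mul]
  exact Nat.add_le_add ((h1 I).trans (Nat.mul_le_mul_left _ e1))
    ((h2 I).trans (Nat.mul_le_mul_left _ e2))
theorem mul (h1 : FB s) (h2 : FB t) : FB fun I => s I * t I := by
  obtain ⟨f, c, hf, h1⟩ := h1
  obtain ⟨g, d, hg, h2⟩ := h2
  refine ⟨fun k => f k * g k, c + d, Primrec.nat_mul.to_comp.comp hf hg, fun I => ?_⟩
  calc s I * t I ≤ _ := Nat.mul_le_mul (h1 I) (h2 I)
    _ = _ := by ring
theorem pow (h : FB s) (c : ℕ) : FB fun I => s I ^ c := by
  induction c with
  | zero => simpa using const 1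
  | succ c ih => simpa [pow_succ] using ih.mul h
theorem eval (h : FB s) (p : Polynomial ℕ) : FB fun I => p.eval (s I) := by
  induction p using Polynomial.induction_on' with
  | add p q hp hq => simpa using hp.add hq
  | monomial c a => simpa [Polynomial.eval_monomial] using (const a).mul (h.pow c)
theorem of_PB (h : FB s) (ht : PB s t) : FB t := by
  obtain ⟨p, hp⟩ := ht
  exact (h.eval p).mono hp
end FB

theorem primrec_pow {f g : ℕ → ℕ} (hf : Primrec f) (hg : Primrec g) :
    Primrec fun k => f k ^ g k :=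
  (Primrec₂.unpaired'.1 Nat.Primrec.pow).comp hf hg

theorem length_matOf (n : ℕ) (G : SimpleGraph (Fin n)) : (matOf n G).length = n * n := by
  simp [matOf, List.length_flatMap, List.map_const']

theorem code_eq (n : ℕ) (G : SimpleGraph (Fin n)) (k : ℕ) : code n G k =
    List.replicate n true ++ [false] ++ (List.replicate k true ++ [false] ++ matOf n G) := by
  simp [code, matOf]

theorem length_code (n : ℕ) (G : SimpleGraph (Fin n)) (k : ℕ) :
    (code n G k).length = n + 1 + (k + 1 + n * n) := by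
  simp [code_eq, length_matOf]; omega

theorem fb_budget (m : ℕ) : FB fun I => budget I.n I.k (2 * I.k * m + 1) := by
  have pq : Primrec fun k : ℕ => 2 * k * m + 1 :=
    Primrec.nat_add.comp (Primrec.nat_mul.comp (Primrec.nat_mul.comp (Primrec.const 2) Primrec.id)
      (Primrec.const m)) (Primrec.const 1)
  have pK : Primrec fun k : ℕ => (2 * k * m + 1) ^ k := primrec_pow pq Primrec.id
  have pC : Primrec fun k : ℕ => c0 k (2 * k * m + 1) ((2 * k * m + 1) ^ k) :=
    Primrec.nat_mul.comp (Primrec.nat_mul.comp (Primrec.nat_mul.comp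
      (Primrec.nat_mul.comp pK Primrec.id) Primrec.id) pq) pq
  have p2 : Primrec fun k : ℕ => 2 * (2 * k * m + 1) ^ k :=
    Primrec.nat_mul.comp (Primrec.const 2) pK
  have pB : Primrec fun k : ℕ => base ((2 * k * m + 1) ^ k) :=
    Primrec.nat_add.comp (Primrec.nat_mul.comp (Primrec.nat_mul.comp p2 p2) p2) (Primrec.const 2)
  have fq := FB.par pq.to_comp
  have fK := FB.par pK.to_comp
  have fC := FB.par pC.to_comp
  have fE := FB.par (primrec_pow pB pC).to_comp
  have fk : FB fun I => I.k := FB.par Computable.id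
  have fn := FB.vert
  have fD := ((fk.mul fq).mul fn).add (FB.const 1)
  have fM := ((FB.const 2).mul fK).add (FB.const 1)
  have fW := fM.mul (fC.mul fE)
  exact (((((((((((FB.const 2).mul fK).add (FB.const 2)).add (fK.mul fD)).add
    (((fD.mul fn).mul fn).mul fW)).add
    ((((FB.const 2).mul fW).add ((FB.const 3).mul fK)).add (FB.const 2))).add fK).add fD).add
    fq).add fk).add fC |>.add fn).add (fM.mul fE)

/-- the machine computing the reduction -/
theorem exists_red (m : ℕ) (w : List Bool) :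
    ∃ (M : BTM) (t : Inst → ℕ), FB t ∧ ∀ I : Inst, (w ++ redT
      (List.replicate (budget I.n I.k (2 * I.k * m + 1)) ()) I.n I.k (2 * I.k * m + 1)
        (matOf I.n I.G)).length ≤ t I ∧
      M.Out (code I.n I.G I.k) (w ++ redT
        (List.replicate (budget I.n I.k (2 * I.k * m + 1)) ()) I.n I.k (2 * I.k * m + 1)
          (matOf I.n I.G)) (t I) := by
  set s : Inst → ℕ := fun I => budget I.n I.k (2 * I.k * m + 1) + (code I.n I.G I.k).length
    with hs
  have fs : FB s := by
    refine (fb_budget m).add ?_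
    simp only [length_code]
    exact (FB.vert.add (FB.const 1)).add
      (((FB.par Computable.id).add (FB.const 1)).add (FB.vert.mul FB.vert))
  have hlen : PB s fun I => (code I.n I.G I.k).length := PB.self.mono (fun I => by simp [hs])
  have hx : PB s fun I => size (code I.n I.G I.k) :=
    (((PB.const 4).mul hlen).add (PB.const 1)).mono (fun I => size_bits_le _)
  have hn := pt_nOf
  have hr := pt_restOf
  have en : ∀ I : Inst, nOf (code I.n I.G I.k) = I.n := fun I => by rw [code_eq, nOf_eq]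
  have ek : ∀ I : Inst, nOf (restOf (code I.n I.G I.k)) = I.k := fun I => by
    rw [code_eq, restOf_eq, nOf_eq]
  have em : ∀ I : Inst, restOf (restOf (code I.n I.G I.k)) = matOf I.n I.G := fun I => by
    rw [code_eq, restOf_eq, restOf_eq]
  have eK : ∀ I : Inst, pw ((code I.n I.G I.k).map fun _ => ()) (2 * I.k * m + 1) I.k
      = (2 * I.k * m + 1) ^ I.k := fun I => pw_eq _ (by rw [List.length_map, length_code]; omega)
  -- first expansion
  have r1 : RT s (fun I => code I.n I.G I.k) (fun I =>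
      (c0 I.k (2 * I.k * m + 1) ((2 * I.k * m + 1) ^ I.k), code I.n I.G I.k)) :=
    (RT.of_PT (f := fun x : List Bool => (c0 (nOf (restOf x)) (2 * nOf (restOf x) * m + 1)
      (pw (x.map fun _ => ()) (2 * nOf (restOf x) * m + 1) (nOf (restOf x))), x))
      (by unfold c0; fun_prop) hx).of_eq (fun I => by simp only [ek, eK])
  have b1 : PB s fun I => c0 I.k (2 * I.k * m + 1) ((2 * I.k * m + 1) ^ I.k) :=
    PB.self.mono (fun I => by simp only [hs, budget, bud]; omega)
  have r2 := r1.trans (RT.expand b1 hx)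
  -- second expansion
  have r3 : RT s (fun I => (List.replicate (c0 I.k (2 * I.k * m + 1) ((2 * I.k * m + 1) ^ I.k)) (),
      code I.n I.G I.k)) (fun I => (budget I.n I.k (2 * I.k * m + 1), code I.n I.G I.k)) :=
    (RT.of_PT (f := fun p : List Unit × List Bool => (bud (nOf p.2) (nOf (restOf p.2))
      (2 * nOf (restOf p.2) * m + 1)
      (pw (p.2.map fun _ => ()) (2 * nOf (restOf p.2) * m + 1) (nOf (restOf p.2)))
      (pw p.1 (base (pw (p.2.map fun _ => ()) (2 * nOf (restOf p.2) * m + 1) (nOf (restOf p.2))))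
        p.1.length), p.2))
      (by unfold bud c0 base; fun_prop) (r2.size_le hx)).of_eq (fun I => by
        simp only [en, ek, eK]
        rw [pw_eq _ le_rfl, List.length_replicate]
        rfl)
  have b2 : PB s fun I => budget I.n I.k (2 * I.k * m + 1) :=
    PB.self.mono (fun I => by simp only [hs]; omega)
  have r4 := (r2.trans r3).trans (RT.expand b2 hx)
  have r5 := r4.trans ((RT.of_PT (f := fun p : List Unit × List Bool =>
      w ++ redT p.1 (nOf p.2) (nOf (restOf p.2)) (2 * nOf (restOf p.2) * m + 1)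
        (restOf (restOf p.2))) (by fun_prop) (r4.size_le hx)).of_eq
      (z := fun I => w ++ redT (List.replicate (budget I.n I.k (2 * I.k * m + 1)) ()) I.n I.k
        (2 * I.k * m + 1) (matOf I.n I.G)) (fun I => by simp only [en, ek, em]))
  obtain ⟨M, t, ht, hy, hM⟩ := r5.exists_btm hlen
  exact ⟨M, _, fs.of_PB (ht.add hy), fun I => ⟨Nat.le_add_left _ _,
    (hM I).mono (Nat.le_add_right _ _)⟩⟩

/-- the machine that keeps the first bit -/
theorem exists_head : ∃ (M : BTM) (p : Polynomial ℕ), ∀ y : List Bool,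
    M.Out y [y.headD false] (p.eval y.length) := by
  have h : RT (fun y : List Bool => y.length) (fun y => y) (fun y => [y.headD false]) :=
    RT.of_PT (f := fun y : List Bool => [y.headD false]) (by fun_prop)
      ((((PB.const 4).mul PB.self).add (PB.const 1)).mono (fun a => size_bits_le _))
  obtain ⟨M, t, ⟨p, hp⟩, -, hM⟩ := h.exists_btm PB.self
  exact ⟨M, p, fun y => (hM y).mono (hp y)⟩

theorem main (ε : ℝ) (hε : ε < 1) (w : List Bool) (h : SolvableFPT w (ApproxAnswer ε)) :
    SolvableFPT [] CliqueAnswer := by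
  obtain ⟨tm, e₀, e₁, f, c, hfin, hf, hA⟩ := h
  obtain ⟨m, hm⟩ := exists_nat_gt (1 / (1 - ε))
  have hε' : 0 < 1 - ε := by linarith
  have hm1 : 1 < m * (1 - ε) := by rwa [div_lt_iff₀ hε'] at hm
  have hm0 : 0 < m := by
    rcases Nat.eq_zero_or_pos m with rfl | h
    · norm_num at hm1
    · exact h
  obtain ⟨M₁, t₁, ft₁, h₁⟩ := exists_red m w
  obtain ⟨M₃, p, h₃⟩ := exists_head
  let M₂ : BTM := ⟨tm, e₀, e₁, hfin⟩
  have pK : Primrec fun k : ℕ => (2 * k * m + 1) ^ k :=
    primrec_pow (Primrec.nat_add.comp (Primrec.nat_mul.comp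
      (Primrec.nat_mul.comp (Primrec.const 2) Primrec.id) (Primrec.const m)) (Primrec.const 1))
      Primrec.id
  have fN : FB fun I => 3 * budget I.n I.k (2 * I.k * m + 1) + 1 :=
    ((FB.const 3).mul (fb_budget m)).add (FB.const 1)
  have ft₂ : FB fun I => f ((2 * I.k * m + 1) ^ I.k) *
      (3 * budget I.n I.k (2 * I.k * m + 1) + 1) ^ c :=
    (FB.par (hf.comp pK.to_comp)).mul (fN.pow c)
  obtain ⟨g, d, hg, hT⟩ := ((((ft₁.add ft₂).add ((FB.const 2).mul ft₁)).add (FB.const 2)).add
    (fN.eval p)).add ((FB.const 2).mul fN) |>.add (FB.const 2)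
  refine ⟨((M₁.comp M₂).comp M₃).tm, ((M₁.comp M₂).comp M₃).e₀, ((M₁.comp M₂).comp M₃).e₁, g, d,
    ((M₁.comp M₂).comp M₃).fin, hg, fun n G k => ?_⟩
  obtain ⟨N, H, hN, hcode, hyes, hno⟩ := red_correct (q := 2 * k * m + 1) G hm0
    (Nat.lt_succ_self _) (U := List.replicate (budget n k (2 * k * m + 1)) ()) (by simp)
  obtain ⟨out, hout, hrun⟩ := hA N H ((2 * k * m + 1) ^ k)
  obtain ⟨l₁, o₁⟩ := h₁ ⟨n, G, k⟩
  dsimp only at l₁ o₁
  rw [hcode] at l₁ o₁
  have o₂ : M₂.Out (w ++ code N H ((2 * k * m + 1) ^ k)) out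
      (f ((2 * k * m + 1) ^ k) * (N + 1) ^ c) := hrun
  have lout : out.length ≤ N + 1 := by
    rcases hout with ⟨S, -, -, rfl⟩ | ⟨rfl, -⟩ <;> simp
  have o := (o₁.comp o₂).comp (h₃ out)
  refine ⟨[out.headD false], ?_, o.mono (le_trans ?_ (hT ⟨n, G, k⟩))⟩
  · rcases hout with ⟨S, hS, hcard, rfl⟩ | ⟨rfl, hnone⟩
    · refine Or.inl ⟨rfl, hno S hS ?_⟩
      have hK : (0 : ℝ) ≤ (((2 * k * m + 1) ^ k : ℕ) : ℝ) := Nat.cast_nonneg _
      generalize (2 * k * m + 1) ^ k = K at hcard hK ⊢
      have hm' : (0 : ℝ) ≤ m := Nat.cast_nonneg _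
      have : (m : ℝ) * S.card + K ≤ 2 * m * K := by
        have h1 := mul_le_mul_of_nonneg_left hcard hm'
        have h2 := mul_le_mul_of_nonneg_right hm1.le hK
        nlinarith
      exact_mod_cast this
    · exact Or.inr ⟨rfl, fun hc => hnone (hyes hc)⟩
  · dsimp only
    have a1 : (N + 1) ^ c ≤ (3 * budget n k (2 * k * m + 1) + 1) ^ c :=
      Nat.pow_le_pow_left (by omega) c
    have a2 := Nat.mul_le_mul_left (f ((2 * k * m + 1) ^ k)) a1
    have a3 := eval_mono p (show out.length ≤ 3 * budget n k (2 * k * m + 1) + 1 by omega)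
    omega

end Pool.Agent.P.MP_8c536d_lc
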