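import Pool.Agent.Lib.Helper33.RT
import Pool.Agent.P.MP_8c536d_lc.Grid

/-!
The reduction as a program: all loops are cut off at the length of a unary budget `U`, so the
program is polynomial time in the budget and the input.
-/

namespace Pool.Agent.P.MP_8c536d_lc

open Pool.Agent.Lib.Helper47 Pool.Agent.Lib.Helper33

/-- truncated range -/
def rng (U : List Unit) (a : ℕ) : List ℕ := (List.range U.length).take a

/-- truncated replicate -/
def rep {β : Type} (U : List Unit) (a : ℕ) (x : β) : List β := (U.take a).map fun _ => x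

/-- power with truncated exponent -/
def pw (U : List Unit) (b e : ℕ) : ℕ := b ^ min e U.length

theorem rng_eq {U : List Unit} {a : ℕ} (h : a ≤ U.length) : rng U a = List.range a := by
  simp [rng, List.take_range, h]

theorem rep_eq {β : Type} {U : List Unit} {a : ℕ} (x : β) (h : a ≤ U.length) :
    rep U a x = List.replicate a x := by
  simp [rep, List.map_const', h]

theorem pw_eq {U : List Unit} (b : ℕ) {e : ℕ} (h : e ≤ U.length) : pw U b e = b ^ e := by
  simp [pw, h]

section pt
variable {α β : Type} [Enc α] [Enc β]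

@[fun_prop] theorem pt_rng {U : α → List Unit} {a : α → ℕ} (hU : PT U) (ha : PT a) :
    PT (fun x => rng (U x) (a x)) := PT.take ha (PT.rangeLength hU)

@[fun_prop] theorem pt_rep {U : α → List Unit} {a : α → ℕ} {y : α → β} (hU : PT U) (ha : PT a)
    (hy : PT y) : PT (fun x => rep (U x) (a x) (y x)) := by
  unfold rep
  exact PT.map (g := fun x _ => y x) (by fun_prop) (PT.take ha hU)

@[fun_prop] theorem pt_pw {U : α → List Unit} {b e : α → ℕ} (hU : PT U) (hb : PT b) (he : PT e) :
    PT (fun x => pw (U x) (b x) (e x)) :=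
  PT.pow hb (PT.min he (PT.length hU))
    (hU.size_le.mono (fun x => (min_le_right _ _).trans (length_lt_size _).le))

end pt

/-- tuples coding the labels -/
abbrev Tup : Type := ℕ × ℕ × ℕ × ℕ × ℕ

/-- the parameters of the construction: budget, `n`, `k`, `q`, adjacency matrix -/
abbrev Par : Type := List Unit × ℕ × ℕ × ℕ × List Bool

/-- test for the classes in use -/
def validB (U : List Unit) (q : ℕ) (t : Cls) : Bool :=
  Nat.ble 1 t.2.2.2.1 && Nat.ble 1 t.2.2.2.2 &&
    Nat.blt (t.1 / pw U q t.2.1 % q + t.2.2.2.1) q && Nat.blt (t.1 / pw U q t.2.2.1 % q + t.2.2.2.2) q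

/-- the list of classes -/
def clsT (U : List Unit) (k q : ℕ) : List Cls :=
  ((rng U (pw U q k)).flatMap fun r => (rng U k).flatMap fun i => (rng U k).flatMap fun j =>
    (rng U q).flatMap fun a => (rng U q).map fun b => ((r, i, j, a, b) : Cls)).filter (validB U q)

/-- detachable gadgets -/
def okB (n D : ℕ) (mat : List Bool) (t : Cls) (e : Gad) : Bool :=
  (t.2.1 == t.2.2.1 || mat.getD (e.2.1 * n + e.2.2) false) &&
    Nat.blt (e.1 + t.2.2.2.1 * e.2.1) D && Nat.blt (e.1 + t.2.2.2.2 * e.2.2) D

/-- attachments -/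
def attB (U : List Unit) (q : ℕ) (t : Cls) (e : Gad) (p : ℕ × ℕ) : Bool :=
  p == (t.1, e.1) || p == (t.1 + t.2.2.2.1 * pw U q t.2.1, e.1 + t.2.2.2.1 * e.2.1) ||
    p == (t.1 + t.2.2.2.2 * pw U q t.2.2.1, e.1 + t.2.2.2.2 * e.2.2)

/-- one direction of the adjacency test -/
def halfB (U : List Unit) (n q D : ℕ) (mat : List Bool) (cls : List Cls) (a b : Tup) : Bool :=
  (a.1 == 0 && b.1 == 0) || (a.1 == 1 && b.1 == 1) || (a.1 == 1 && b.1 == 2) ||
    (a.1 == 3 && a == b) ||
    (a.1 == 3 && b.1 == 2 && attB U q (cls.getD a.2.1 (0, 0, 0, 0, 0)) a.2.2 (b.2.1, b.2.2.1)) ||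
    (a.1 == 3 && b.1 == 1 && !okB n D mat (cls.getD a.2.1 (0, 0, 0, 0, 0)) a.2.2)

/-- the list of the labels of all vertices -/
def labsT (U : List Unit) (n K D C M B P Z : ℕ) : List Tup :=
  rep U P ((0, 0, 0, 0, 0) : Tup) ++ rep U Z ((1, 0, 0, 0, 0) : Tup) ++
    ((rng U K).flatMap fun r => (rng U D).map fun x => ((2, r, x, 0, 0) : Tup)) ++
    (rng U C).flatMap fun c => (rng U D).flatMap fun x => (rng U n).flatMap fun u =>
      (rng U n).flatMap fun w => rep U (M * pw U B c) ((3, c, x, u, w) : Tup)

/-- the code of the graph with vertex labels `L` -/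
def codeT (U : List Unit) (n q K D : ℕ) (mat : List Bool) (cls : List Cls) (L : List Tup) :
    List Bool :=
  L.map (fun _ => true) ++ [false] ++ rep U K true ++ [false] ++
    L.zipIdx.flatMap fun a => L.zipIdx.map fun b =>
      (a.2 != b.2 && (halfB U n q D mat cls a.1 b.1 || halfB U n q D mat cls b.1 a.1))

/-- total weight of one gadget per class -/
def wT (U : List Unit) (K C : ℕ) : ℕ :=
  (2 * K + 1) * ((rng U C).map fun c => pw U (2 * K * (2 * K) * (2 * K) + 2) c).sum

/-- the reduction, on parsed input -/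
def redT (U : List Unit) (n k q : ℕ) (mat : List Bool) : List Bool :=
  codeT U n q (pw U q k) (k * q * n + 1) mat (clsT U k q)
    (labsT U n (pw U q k) (k * q * n + 1) (clsT U k q).length (2 * pw U q k + 1)
      (2 * pw U q k * (2 * pw U q k) * (2 * pw U q k) + 2)
      (2 * pw U q k + 2 + pw U q k * (k * q * n + 1) +
        (k * q * n + 1) * n * n * wT U (pw U q k) (clsT U k q).length)
      (2 * wT U (pw U q k) (clsT U k q).length + 3 * pw U q k + 2))

section pt
variable {α : Type} [Enc α]

@[fun_prop] theorem pt_validB {U : α → List Unit} {q : α → ℕ} {t : α → Cls} (hU : PT U)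
    (hq : PT q) (ht : PT t) : PT (fun x => validB (U x) (q x) (t x)) := by
  unfold validB; fun_prop

@[fun_prop] theorem pt_clsT {U : α → List Unit} {k q : α → ℕ} (hU : PT U) (hk : PT k)
    (hq : PT q) : PT (fun x => clsT (U x) (k x) (q x)) := by
  unfold clsT; fun_prop

@[fun_prop] theorem pt_okB {n D : α → ℕ} {mat : α → List Bool} {t : α → Cls} {e : α → Gad}
    (hn : PT n) (hD : PT D) (hm : PT mat) (ht : PT t) (he : PT e) :
    PT (fun x => okB (n x) (D x) (mat x) (t x) (e x)) := by
  unfold okB; fun_prop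

@[fun_prop] theorem pt_attB {U : α → List Unit} {q : α → ℕ} {t : α → Cls} {e : α → Gad}
    {p : α → ℕ × ℕ} (hU : PT U) (hq : PT q) (ht : PT t) (he : PT e) (hp : PT p) :
    PT (fun x => attB (U x) (q x) (t x) (e x) (p x)) := by
  unfold attB; fun_prop

@[fun_prop] theorem pt_halfB {U : α → List Unit} {n q D : α → ℕ} {mat : α → List Bool}
    {cls : α → List Cls} {a b : α → Tup} (hU : PT U) (hn : PT n) (hq : PT q) (hD : PT D)
    (hm : PT mat) (hc : PT cls) (ha : PT a) (hb : PT b) :
    PT (fun x => halfB (U x) (n x) (q x) (D x) (mat x) (cls x) (a x) (b x)) := by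
  unfold halfB; fun_prop

@[fun_prop] theorem pt_labsT {U : α → List Unit} {n K D C M B P Z : α → ℕ} (hU : PT U)
    (hn : PT n) (hK : PT K) (hD : PT D) (hC : PT C) (hM : PT M) (hB : PT B) (hP : PT P)
    (hZ : PT Z) :
    PT (fun x => labsT (U x) (n x) (K x) (D x) (C x) (M x) (B x) (P x) (Z x)) := by
  unfold labsT; fun_prop

@[fun_prop] theorem pt_codeT {U : α → List Unit} {n q K D : α → ℕ} {mat : α → List Bool}
    {cls : α → List Cls} {L : α → List Tup} (hU : PT U) (hn : PT n) (hq : PT q) (hK : PT K)
    (hD : PT D) (hm : PT mat) (hc : PT cls) (hL : PT L) :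
    PT (fun x => codeT (U x) (n x) (q x) (K x) (D x) (mat x) (cls x) (L x)) := by
  unfold codeT; fun_prop

@[fun_prop] theorem pt_wT {U : α → List Unit} {K C : α → ℕ} (hU : PT U) (hK : PT K) (hC : PT C) :
    PT (fun x => wT (U x) (K x) (C x)) := by
  unfold wT; fun_prop

@[fun_prop] theorem pt_redT {U : α → List Unit} {n k q : α → ℕ} {mat : α → List Bool}
    (hU : PT U) (hn : PT n) (hk : PT k) (hq : PT q) (hm : PT mat) :
    PT (fun x => redT (U x) (n x) (k x) (q x) (mat x)) := by
  unfold redT; fun_prop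

end pt

/-- parser: the number of vertices -/
def nOf (x : List Bool) : ℕ := (x.takeWhile fun b => b).length
/-- parser: the rest after a unary number -/
def restOf (x : List Bool) : List Bool := (x.dropWhile fun b => b).tail

theorem pt_nOf : PT nOf := by unfold nOf; fun_prop
theorem pt_restOf : PT restOf := by unfold restOf; fun_prop

theorem nOf_eq (n : ℕ) (l : List Bool) : nOf (List.replicate n true ++ [false] ++ l) = n := by
  induction n with
  | zero => simp [nOf]
  | succ n ih => simpa [nOf, List.replicate_succ] using ih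

theorem restOf_eq (n : ℕ) (l : List Bool) : restOf (List.replicate n true ++ [false] ++ l) = l := by
  induction n with
  | zero => simp [restOf]
  | succ n ih => simpa [restOf, List.replicate_succ] using ih

end Pool.Agent.P.MP_8c536d_lc
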