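import Pool.Agent.P.MP_8c536d_lc.Defs

namespace Pool.Agent.P.MP_8c536d_lc

/-- A Turing machine, started on the code of `(G, k)`, halts with an output accepted by `Good`
within `f k * (n + 1) ^ (c * e k)` steps, for a computable `f` and a constant `c`. -/
def SolvableExp (e : ℕ → ℕ)
    (Good : (n : ℕ) → SimpleGraph (Fin n) → ℕ → List Bool → Prop) : Prop :=
  ∃ (tm : Turing.FinTM2) (e₀ : tm.Γ tm.k₀ ≃ Bool) (e₁ : tm.Γ tm.k₁ ≃ Bool) (f : ℕ → ℕ) (c : ℕ),
    (∀ s, Finite (tm.Γ s)) ∧ Computable f ∧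
    ∀ (n : ℕ) (G : SimpleGraph (Fin n)) (k : ℕ), ∃ out : List Bool, Good n G k out ∧
      Nonempty (Turing.TM2OutputsInTime tm ((code n G k).map e₀.symm)
        (some (out.map e₁.symm)) (f k * (n + 1) ^ (c * e k)))

end Pool.Agent.P.MP_8c536d_lc
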