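import Mathlib

/-!
Polynomial hashing at rapidly growing points: every position with a collision is a new linear
equation on the digit vectors, so there are at most (number of vectors) times (number of digits)
such positions.
-/

namespace Pool.Agent.P.MP_8c536d_lc

open Finset

/-- integer vectors of height at most `H` -/
def Ht {ι : Type} (H : ℕ) (u : ι → ℚ) : Prop := ∀ i, ∃ z : ℤ, u i = z ∧ |z| ≤ H

/-- the subspace is spanned by its integer vectors of height at most `H` -/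
def Spanned {ι : Type} (H : ℕ) (W : Submodule ℚ (ι → ℚ)) : Prop :=
  W ≤ Submodule.span ℚ {u | u ∈ W ∧ Ht H u}

theorem Spanned.mono {ι : Type} {H H' : ℕ} {W : Submodule ℚ (ι → ℚ)} (h : Spanned H W)
    (hH : H ≤ H') : Spanned H' W := by
  refine h.trans (Submodule.span_mono fun u hu => ⟨hu.1, fun i => ?_⟩)
  obtain ⟨z, h1, h2⟩ := hu.2 i
  exact ⟨z, h1, h2.trans (by exact_mod_cast hH)⟩

theorem spanned_top {ι : Type} [Fintype ι] [DecidableEq ι] :
    Spanned 1 (⊤ : Submodule ℚ (ι → ℚ)) := by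
  intro u _
  rw [← univ_sum_single u]
  refine Submodule.sum_mem _ fun i _ => ?_
  have e : Pi.single i (u i) = u i • (Pi.single i 1 : ι → ℚ) := by
    rw [← Pi.single_smul, smul_eq_mul, mul_one]
  rw [e]
  refine Submodule.smul_mem _ _ (Submodule.subset_span ⟨trivial, fun j => ?_⟩)
  by_cases h : j = i
  · subst h
    exact ⟨1, by simp, by simp⟩
  · exact ⟨0, by simp [h], by simp⟩

theorem Spanned.cut {ι : Type} {H R : ℕ} {W : Submodule ℚ (ι → ℚ)} (hW : Spanned H W)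
    (φ : (ι → ℚ) →ₗ[ℚ] ℚ) (hφ : ∀ u, Ht H u → ∃ z : ℤ, φ u = z ∧ |z| ≤ R) {u₀ : ι → ℚ}
    (h₀ : u₀ ∈ W) (hu₀ : Ht H u₀) (hne : φ u₀ ≠ 0) :
    Spanned (2 * R * H) (W ⊓ LinearMap.ker φ) := by
  set ψ : (ι → ℚ) →ₗ[ℚ] (ι → ℚ) := φ u₀ • LinearMap.id - φ.smulRight u₀ with hψ
  have hψa : ∀ u, ψ u = φ u₀ • u - φ u • u₀ := fun u => rfl
  intro y hy
  have h1 : ψ y ∈ Submodule.span ℚ {u | u ∈ W ⊓ LinearMap.ker φ ∧ Ht (2 * R * H) u} := by
    have h2 := Submodule.mem_map_of_mem (f := ψ) (hW hy.1)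
    rw [Submodule.map_span] at h2
    refine Submodule.span_mono ?_ h2
    rintro _ ⟨u, ⟨hu, hu'⟩, rfl⟩
    refine ⟨⟨?_, ?_⟩, fun i => ?_⟩
    · rw [hψa]
      exact W.sub_mem (W.smul_mem _ hu) (W.smul_mem _ h₀)
    · change φ (ψ u) = 0
      rw [hψa, map_sub, map_smul, map_smul, smul_eq_mul, smul_eq_mul]
      ring
    · obtain ⟨a, ha, ha'⟩ := hφ u₀ hu₀
      obtain ⟨b, hb, hb'⟩ := hφ u hu'
      obtain ⟨c, hc, hc'⟩ := hu' i
      obtain ⟨e, he, he'⟩ := hu₀ i
      refine ⟨a * c - b * e, ?_, ?_⟩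
      · rw [hψa, Pi.sub_apply, Pi.smul_apply, Pi.smul_apply, ha, hb, hc, he]
        push_cast
        simp
      · have h3 : |a * c| ≤ (R : ℤ) * H := by
          rw [abs_mul]
          exact mul_le_mul ha' hc' (abs_nonneg _) (by positivity)
        have h4 : |b * e| ≤ (R : ℤ) * H := by
          rw [abs_mul]
          exact mul_le_mul hb' he' (abs_nonneg _) (by positivity)
        have h5 := abs_sub (a * c) (b * e)
        push_cast
        linarith
  have h3 : φ y = 0 := hy.2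
  have h4 : y = (φ u₀)⁻¹ • ψ y := by
    rw [hψa, h3, zero_smul, sub_zero, smul_smul, inv_mul_cancel₀ hne, one_smul]
  rw [h4]
  exact Submodule.smul_mem _ _ h1

theorem digits_zero {b : ℤ} (d : ℕ) : ∀ c : ℕ → ℤ, (∀ l < d, |c l| < b) →
    ∑ l ∈ range d, c l * b ^ l = 0 → ∀ l < d, c l = 0 := by
  induction d with
  | zero => intro c _ _ l hl; omega
  | succ d ih =>
    intro c hc h
    rw [sum_range_succ'] at h
    have e : ∑ l ∈ range d, c (l + 1) * b ^ (l + 1) = b * ∑ l ∈ range d, c (l + 1) * b ^ l := by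
      rw [mul_sum]
      exact sum_congr rfl fun l _ => by ring
    rw [e, pow_zero, mul_one] at h
    have h0 : c 0 = 0 := by
      refine Int.eq_zero_of_abs_lt_dvd (m := b) ⟨-∑ l ∈ range d, c (l + 1) * b ^ l, ?_⟩
        (hc 0 (by omega))
      linarith
    have hb : b ≠ 0 := by
      have := hc 0 (by omega)
      have := abs_nonneg (c 0)
      omega
    rw [h0, add_zero] at h
    have h1 := ih (fun l => c (l + 1)) (fun l hl => hc _ (by omega))
      ((mul_eq_zero.1 h).resolve_left hb)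
    intro l hl
    rcases l with _ | l
    · exact h0
    · exact h1 l (by omega)

/-- the difference of the hash values of two blocks of coordinates -/
noncomputable def diffF {κ : Type} (d : ℕ) (b : ℕ) (p p' : κ) : (κ × Fin d → ℚ) →ₗ[ℚ] ℚ :=
  ∑ l : Fin d, ((b : ℚ) ^ (l : ℕ)) •
    ((LinearMap.proj (p, l) : (κ × Fin d → ℚ) →ₗ[ℚ] ℚ) - LinearMap.proj (p', l))

theorem diffF_apply {κ : Type} (d b : ℕ) (p p' : κ) (u : κ × Fin d → ℚ) :
    diffF d b p p' u = ∑ l : Fin d, (u (p, l) - u (p', l)) * (b : ℚ) ^ (l : ℕ) := by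
  unfold diffF
  rw [LinearMap.sum_apply]
  exact sum_congr rfl fun l _ => by simp [mul_comm]

theorem diffF_int {κ : Type} {d b H : ℕ} (p p' : κ) {u : κ × Fin d → ℚ} (hu : Ht H u) :
    ∃ c : ℕ → ℤ, (∀ l, |c l| ≤ 2 * H) ∧ (∀ l : Fin d, u (p, l) - u (p', l) = c l) ∧
      diffF d b p p' u = ((∑ l ∈ range d, c l * (b : ℤ) ^ l : ℤ) : ℚ) := by
  choose z hz hz' using hu
  refine ⟨fun l => if h : l < d then z (p, ⟨l, h⟩) - z (p', ⟨l, h⟩) else 0, fun l => ?_,
    fun l => ?_, ?_⟩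
  · beta_reduce
    split_ifs with h
    · have h1 := hz' (p, ⟨l, h⟩)
      have h2 := hz' (p', ⟨l, h⟩)
      have h3 := abs_sub (z (p, ⟨l, h⟩)) (z (p', ⟨l, h⟩))
      linarith
    · simp
  · simp only [dif_pos l.2, hz]
    push_cast
    rfl
  · rw [diffF_apply, ← Fin.sum_univ_eq_sum_range
      (fun l => (if h : l < d then z (p, ⟨l, h⟩) - z (p', ⟨l, h⟩) else 0) * (b : ℤ) ^ l)]
    push_cast
    refine sum_congr rfl fun l _ => ?_
    simp only [dif_pos l.2, hz]
    push_cast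
    rfl

theorem cut_step {κ : Type} [Fintype κ] {d b H : ℕ} (hb : 2 * H < b) {x : κ × Fin d → ℚ}
    {W : Submodule ℚ (κ × Fin d → ℚ)} (hx : x ∈ W) (hW : Spanned H W) {p p' : κ}
    (hne : ∃ l, x (p, l) ≠ x (p', l)) (h0 : diffF d b p p' x = 0) :
    ∃ W' : Submodule ℚ (κ × Fin d → ℚ), x ∈ W' ∧ Spanned (4 * d * b ^ d * H ^ 2) W' ∧
      Module.finrank ℚ W' + 1 ≤ Module.finrank ℚ W := by
  obtain ⟨l₀, hl₀⟩ := hne
  have hex : ∃ u, u ∈ W ∧ Ht H u ∧ u (p, l₀) ≠ u (p', l₀) := by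
    by_contra hno
    push Not at hno
    have h1 : Submodule.span ℚ {u | u ∈ W ∧ Ht H u} ≤ LinearMap.ker
        ((LinearMap.proj (p, l₀) : (κ × Fin d → ℚ) →ₗ[ℚ] ℚ) - LinearMap.proj (p', l₀)) := by
      rw [Submodule.span_le]
      intro u hu
      change u (p, l₀) - u (p', l₀) = 0
      rw [hno u hu.1 hu.2, sub_self]
    have h2 : x (p, l₀) - x (p', l₀) = 0 := h1 (hW hx)
    exact hl₀ (sub_eq_zero.1 h2)
  obtain ⟨u₀, h₀, hu₀, hl⟩ := hex
  have hφ₀ : diffF d b p p' u₀ ≠ 0 := by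
    obtain ⟨c, h1, h2, h3⟩ := diffF_int (b := b) p p' hu₀
    intro h
    rw [h3, Int.cast_eq_zero] at h
    have h4 := digits_zero d c (fun l _ => (h1 l).trans_lt (by exact_mod_cast hb)) h l₀ l₀.2
    have h5 := h2 l₀
    rw [h4, Int.cast_zero] at h5
    exact hl (sub_eq_zero.1 h5)
  have hb1 : 1 ≤ b := by omega
  refine ⟨W ⊓ LinearMap.ker (diffF d b p p'), ⟨hx, h0⟩, ?_, ?_⟩
  · refine (hW.cut (R := d * (2 * H * b ^ d)) _ (fun u hu => ?_) h₀ hu₀ hφ₀).mono
      (le_of_eq (by ring))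
    obtain ⟨c, h1, -, h3⟩ := diffF_int (b := b) p p' hu
    refine ⟨_, h3, (abs_sum_le_sum_abs _ _).trans ?_⟩
    have h4 : ∀ l ∈ range d, |c l * (b : ℤ) ^ l| ≤ 2 * H * (b : ℤ) ^ d := fun l hl => by
      rw [abs_mul, abs_of_nonneg (show (0 : ℤ) ≤ (b : ℤ) ^ l by positivity)]
      exact mul_le_mul (h1 l) (pow_le_pow_right₀ (by exact_mod_cast hb1) (mem_range.1 hl).le)
        (by positivity) (by positivity)
    refine (sum_le_sum h4).trans (le_of_eq ?_)
    rw [sum_const, card_range, nsmul_eq_mul]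
    push_cast
    ring
  · refine Submodule.finrank_lt_finrank_of_lt (lt_of_le_of_ne inf_le_left fun h => hφ₀ ?_)
    have : u₀ ∈ W ⊓ LinearMap.ker (diffF d b p p') := by rw [h]; exact h₀
    exact this.2

open Classical in
theorem few_coll (V : Finset ℕ) (d : ℕ) (x : ℕ → ℕ → ℕ)
    (hx : ∀ v ∈ V, ∀ v' ∈ V, (∀ l < d, x v l = x v' l) → v = v') (b H : ℕ → ℕ) (h0 : 1 ≤ H 0)
    (hb : ∀ j, 2 * H j < b j) (hs : ∀ j, 4 * d * b j ^ d * H j ^ 2 ≤ H (j + 1))
    (hm : ∀ j, H j ≤ H (j + 1)) (m : ℕ) :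
    ((range m).filter fun j => ∃ v ∈ V, ∃ v' ∈ V, v ≠ v' ∧
      ∑ l ∈ range d, x v l * b j ^ l = ∑ l ∈ range d, x v' l * b j ^ l).card ≤ V.card * d := by
  set y : V × Fin d → ℚ := fun p => x p.1 p.2 with hy
  have key : ∀ m, ∃ W : Submodule ℚ (V × Fin d → ℚ), y ∈ W ∧ Spanned (H m) W ∧
      Module.finrank ℚ W + ((range m).filter fun j => ∃ v ∈ V, ∃ v' ∈ V, v ≠ v' ∧
        ∑ l ∈ range d, x v l * b j ^ l = ∑ l ∈ range d, x v' l * b j ^ l).card ≤ V.card * d := by
    intro m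
    induction m with
    | zero =>
      refine ⟨⊤, trivial, spanned_top.mono h0, ?_⟩
      simp
    | succ m ih =>
      obtain ⟨W, h1, h2, h3⟩ := ih
      rw [range_add_one, filter_insert]
      split_ifs with h
      · obtain ⟨v, hv, v', hv', hne, he⟩ := h
        obtain ⟨W', g1, g2, g3⟩ := cut_step (hb m) h1 h2 (p := ⟨v, hv⟩) (p' := ⟨v', hv'⟩)
          (by
            by_contra hno
            push Not at hno
            refine hne (hx v hv v' hv' fun l hl => ?_)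
            have := hno ⟨l, hl⟩
            simp only [hy] at this
            exact_mod_cast this)
          (by
            rw [diffF_apply]
            simp only [hy, sub_mul, sum_sub_distrib]
            rw [Fin.sum_univ_eq_sum_range (fun l => (x v l : ℚ) * (b m : ℚ) ^ l),
              Fin.sum_univ_eq_sum_range (fun l => (x v' l : ℚ) * (b m : ℚ) ^ l), sub_eq_zero]
            exact_mod_cast he)
        refine ⟨W', g1, g2.mono (hs m), ?_⟩
        rw [card_insert_of_notMem (by simp)]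
        omega
      · exact ⟨W, h1, h2.mono (hm m), h3⟩
  obtain ⟨W, -, -, h⟩ := key m
  omega

end Pool.Agent.P.MP_8c536d_lc
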