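import Pool.Agent.P.MP_8c536d_lc.GapHash
import Pool.Agent.P.MP_8c536d_lc.RtLin

/-!
The constraint system with an arbitrary family of hash functions, and a family with few
positions of collision.
-/

namespace Pool.Agent.P.MP_8c536d_lc

open Finset

/-- the gadgets of the class `c` that can be cut off -/
def OkH (adj : ℕ → ℕ → Prop) (n k t m D : ℕ) (hs : ℕ → ℕ → ℕ) (c : ℕ) (e : Gad) : Prop :=
  ∀ s < t, (dg k (c / m) s = dg k (c / m) (t + s) ∨ adj (dg n e.2.1 s) (dg n e.2.2 s)) ∧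
    dg D e.1 (dg k (c / m) s) = hs (c % m) (dg n e.2.1 s) ∧
    dg D e.1 (dg k (c / m) (t + s)) = hs (c % m) (dg n e.2.2 s)

open Classical in
/-- every small set of vertices has a collision in at most half of the positions -/
def FewColl (n m r : ℕ) (hs : ℕ → ℕ → ℕ) : Prop :=
  ∀ V ⊆ range n, V.card ≤ r →
    2 * ((range m).filter fun j => ∃ v ∈ V, ∃ v' ∈ V, v ≠ v' ∧ hs j v = hs j v').card ≤ m

theorem gapH_complete {n k t m w D X : ℕ} {hs : ℕ → ℕ → ℕ} (hk : 0 < k) (hm : 0 < m)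
    (hD : ∀ j < m, ∀ v < n, hs j v < D) (hX : D ^ k ≤ X) (hnX : n ≤ X) (adj : ℕ → ℕ → Prop) (v : ℕ → ℕ)
    (hv : ∀ i < k, v i < n) (hadj : ∀ i < k, ∀ j < k, i ≠ j → adj (v i) (v j)) :
    ∃ Del : Finset (ℕ × ℕ), Del ⊆ range (m + k * w) ×ˢ range X ∧ Del.card = m + k * w ∧
      ∀ c, ∃ e ∈ range X ×ˢ range (n ^ t) ×ˢ range (n ^ t),
        OkH adj n k t m D hs c e ∧ ∀ p, AttG n k t m w c e p → p ∈ Del := by
  have hσ : ∀ j, j < m → ∃ x < D ^ k, ∀ i < k, dg D x i = hs j (v i) := fun j hj =>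
    exists_dg k (fun i => hs j (v i)) (fun i hi => hD j hj _ (hv i hi))
  choose! σ hσ1 hσ2 using hσ
  set g : ℕ → ℕ := fun r => if r < m then σ r else v ((r - m) / w) with hg
  have hrow : ∀ i y, y < w → g (m + i * w + y) = v i := by
    intro i y hy
    have e : (m + i * w + y - m) / w = i := by
      have : m + i * w + y - m = y + i * w := by omega
      rw [this, Nat.add_mul_div_right _ _ (by omega), Nat.div_eq_of_lt hy, zero_add]
    simp only [hg]
    rw [if_neg (by omega), e]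
  refine ⟨(range (m + k * w)).image fun r => (r, g r), ?_, ?_, ?_⟩
  · intro p hp
    obtain ⟨r, hr, rfl⟩ := mem_image.1 hp
    refine mem_product.2 ⟨hr, mem_range.2 ?_⟩
    have hr := mem_range.1 hr
    simp only [hg]
    split_ifs with h
    · exact (hσ1 r h).trans_le hX
    · refine (hv _ ?_).trans_le hnX
      exact Nat.div_lt_of_lt_mul (by rw [mul_comm]; omega)
  · rw [card_image_of_injective _ (fun a b hab => (Prod.ext_iff.1 hab).1), card_range]
  · intro c
    have hj := Nat.mod_lt c hm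
    obtain ⟨y₁, hy₁, h₁⟩ := exists_dg (b := n) t (fun s => v (dg k (c / m) s))
      (fun s _ => hv _ (dg_lt hk _ _))
    obtain ⟨y₂, hy₂, h₂⟩ := exists_dg (b := n) t (fun s => v (dg k (c / m) (t + s)))
      (fun s _ => hv _ (dg_lt hk _ _))
    refine ⟨(σ (c % m), y₁, y₂), ?_, ?_, ?_⟩
    · simp only [mem_product, mem_range]
      exact ⟨(hσ1 _ hj).trans_le hX, hy₁, hy₂⟩
    · intro s hst
      dsimp only
      rw [h₁ s hst, h₂ s hst]
      refine ⟨?_, hσ2 _ hj _ (dg_lt hk _ _), hσ2 _ hj _ (dg_lt hk _ _)⟩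
      by_cases h : dg k (c / m) s = dg k (c / m) (t + s)
      · exact Or.inl h
      · exact Or.inr (hadj _ (dg_lt hk _ _) _ (dg_lt hk _ _) h)
    · rintro p (rfl | ⟨s, hst, y, hy, rfl | rfl⟩)
      · exact mem_image.2 ⟨c % m, mem_range.2 (by omega), by simp only [hg]; rw [if_pos hj]⟩
      · exact mem_image.2 ⟨_, mem_range.2 (row_lt m (dg_lt hk _ _) hy),
          by rw [hrow _ _ hy]; dsimp only; rw [h₁ s hst]⟩
      · exact mem_image.2 ⟨_, mem_range.2 (row_lt m (dg_lt hk _ _) hy),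
          by rw [hrow _ _ hy]; dsimp only; rw [h₂ s hst]⟩

theorem exists_good_posH {n k m w a : ℕ} {hs : ℕ → ℕ → ℕ} (hk : 0 < k) (hw0 : 0 < w)
    (hm : m = k * w) (hfew : FewColl n m (2 * a * k) hs) (Del : Finset (ℕ × ℕ))
    (hDel : Del.card ≤ a * (m + k * w)) :
    ∃ j < m, (Del.filter fun p => p.1 = j).card ≤ 4 * a ∧
      ∀ v v' i i', v < n → v' < n → i < k → i' < k → (∀ y < w, (m + i * w + y, v) ∈ Del) →
        (∀ y < w, (m + i' * w + y, v') ∈ Del) → hs j v = hs j v' → v = v' := by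
  classical
  have hm0 : 0 < m := by rw [hm]; positivity
  set V := (range n).filter fun v => ∃ i < k, ∀ y < w, (m + i * w + y, v) ∈ Del with hV
  have cV : V.card ≤ 2 * a * k := by
    have hex : ∀ v ∈ V, ∃ i, ∀ y < w, (m + i * w + y, v) ∈ Del := fun v hv => by
      obtain ⟨i, -, h⟩ := (mem_filter.1 hv).2
      exact ⟨i, h⟩
    choose! ι hι using hex
    have h1 := card_le_card_of_injOn (s := V ×ˢ range w) (t := Del)
      (fun p : ℕ × ℕ => (m + ι p.1 * w + p.2, p.1))
      (fun p hp => by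
        simp only [coe_product, Set.mem_prod, mem_coe, mem_range] at hp
        exact hι _ hp.1 _ hp.2)
      (fun p _ p' _ h => by
        obtain ⟨v, y⟩ := p
        obtain ⟨v', y'⟩ := p'
        simp only [Prod.mk.injEq] at h
        obtain ⟨h1, rfl⟩ := h
        rw [Nat.add_left_cancel h1])
    rw [card_product, card_range] at h1
    refine Nat.le_of_mul_le_mul_right ?_ hw0
    calc V.card * w ≤ a * (m + k * w) := h1.trans hDel
      _ = 2 * a * k * w := by rw [hm]; ring
  set Bad := (range m).filter fun j => ∃ v ∈ V, ∃ v' ∈ V, v ≠ v' ∧ hs j v = hs j v' with hBad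
  have cBad : 2 * Bad.card ≤ m := by
    have := hfew V (filter_subset _ _) cV
    convert this
  set Hv := (range m).filter fun j => ¬ (Del.filter fun p => p.1 = j).card ≤ 4 * a with hHv
  have cHv : 2 * Hv.card < m := by
    have h1 : (4 * a + 1) * Hv.card ≤ Del.card := by
      calc (4 * a + 1) * Hv.card = ∑ _r ∈ Hv, (4 * a + 1) := by
            rw [sum_const, smul_eq_mul, mul_comm]
        _ ≤ ∑ r ∈ Hv, (Del.filter fun p => p.1 = r).card :=
          sum_le_sum (fun r hr => by have := (mem_filter.1 hr).2; omega)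
        _ = (Del.filter fun p => p.1 ∈ Hv).card := sum_card_fiberwise_eq_card_filter _ _ _
        _ ≤ Del.card := card_filter_le _ _
    rw [← hm] at hDel
    by_contra hle
    push Not at hle
    have h2 : (4 * a + 1) * m ≤ (4 * a + 1) * (2 * Hv.card) := Nat.mul_le_mul_left _ hle
    nlinarith
  obtain ⟨j, hj, hjn⟩ : ∃ j ∈ range m, j ∉ Bad ∪ Hv := by
    apply exists_mem_notMem_of_card_lt_card
    have := card_union_le Bad Hv
    rw [card_range]
    omega
  rw [mem_union, not_or] at hjn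
  refine ⟨j, mem_range.1 hj, ?_, fun v v' i i' hv hv' hi hi' h1 h2 h3 => ?_⟩
  · by_contra h
    exact hjn.2 (mem_filter.2 ⟨hj, h⟩)
  · by_contra hne
    exact hjn.1 (mem_filter.2 ⟨hj, v, mem_filter.2 ⟨mem_range.2 hv, i, hi, h1⟩, v',
      mem_filter.2 ⟨mem_range.2 hv', i', hi', h2⟩, hne, h3⟩)

theorem gapH_sound {n k m w a D X : ℕ} {hs : ℕ → ℕ → ℕ} (hk : 0 < k) (hw0 : 0 < w)
    (hm : m = k * w) (hcoll : FewColl n m (2 * a * k) hs) (adj : ℕ → ℕ → Prop)
    (Del : Finset (ℕ × ℕ))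
    (hDel : Del.card ≤ a * (m + k * w))
    (h : ∀ c < m * k ^ (2 * (4 * a)),
      ∃ e ∈ range X ×ˢ range (n ^ (4 * a)) ×ˢ range (n ^ (4 * a)),
        OkH adj n k (4 * a) m D hs c e ∧ ∀ p, AttG n k (4 * a) m w c e p → p ∈ Del) :
    ∃ v : ℕ → ℕ, (∀ i < k, v i < n) ∧ ∀ i < k, ∀ j < k, i ≠ j → adj (v i) (v j) := by
  classical
  obtain ⟨j, hj, hfew, huniq⟩ := exists_good_posH hk hw0 hm hcoll Del hDel
  set t := 4 * a with ht
  by_contra hno
  -- every word has a pair of indices on which it cannot be decoded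
  have hkill : ∀ x : ℕ, ∃ ii : ℕ × ℕ, ii.1 < k ∧ ii.2 < k ∧ ∀ u u', u < n → u' < n →
      (∀ y < w, (m + ii.1 * w + y, u) ∈ Del) → (∀ y < w, (m + ii.2 * w + y, u') ∈ Del) →
      dg D x ii.1 = hs j u → dg D x ii.2 = hs j u' →
      ¬ (ii.1 = ii.2 ∨ adj u u') := by
    intro x
    by_contra hx
    push Not at hx
    have h1 : ∀ i < k, ∃ u, u < n ∧ (∀ y < w, (m + i * w + y, u) ∈ Del) ∧
        dg D x i = hs j u := by
      intro i hi
      obtain ⟨u, u', hu, -, h1, -, h2, -⟩ := hx (i, i) hi hi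
      exact ⟨u, hu, h1, h2⟩
    choose! v hv1 hv2 hv3 using h1
    refine hno ⟨v, hv1, fun i hi i' hi' hne => ?_⟩
    obtain ⟨u, u', hu, hu', h1, h2, h3, h4, h5⟩ := hx (i, i') hi hi'
    dsimp only at h1 h2 h3 h4 h5
    rw [huniq _ _ _ _ (hv1 i hi) hu hi hi (hv2 i hi) h1 ((hv3 i hi).symm.trans h3),
      huniq _ _ _ _ (hv1 i' hi') hu' hi' hi' (hv2 i' hi') h2 ((hv3 i' hi').symm.trans h4)]
    exact h5.resolve_left hne
  choose κ hκ1 hκ2 hκ3 using hkill
  set l := (Del.filter fun p => p.1 = j).toList with hl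
  have hlen : l.length ≤ t := by rw [hl, length_toList]; exact hfew
  obtain ⟨z, hz, hdz⟩ := exists_dg (b := k) (2 * t)
    (fun s => if s < t then (κ (l.getD s (0, 0)).2).1 else (κ (l.getD (s - t) (0, 0)).2).2)
    (fun s _ => by
      split_ifs
      · exact hκ1 _
      · exact hκ2 _)
  have hc : j + m * z < m * k ^ (2 * t) := by
    have : m * (z + 1) ≤ m * k ^ (2 * t) := Nat.mul_le_mul_left _ hz
    rw [mul_add, mul_one] at this
    omega
  have hm0 : 0 < m := by omega
  have e1 : (j + m * z) % m = j := by rw [Nat.add_mul_mod_self_left, Nat.mod_eq_of_lt hj]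
  have e2 : (j + m * z) / m = z := by
    rw [Nat.add_mul_div_left _ _ hm0, Nat.div_eq_of_lt hj, zero_add]
  obtain ⟨e, he, hok, hatt⟩ := h _ hc
  unfold OkH at hok
  unfold AttG at hatt
  rw [e1, e2] at hok hatt
  have hmem : (j, e.1) ∈ l := by
    rw [hl, mem_toList]
    exact mem_filter.2 ⟨hatt _ (Or.inl rfl), rfl⟩
  obtain ⟨s, hsl, hse⟩ := List.getElem_of_mem hmem
  have hst : s < t := by omega
  have hget : (l.getD s (0, 0)).2 = e.1 := by rw [List.getD_eq_getElem _ _ hsl, hse]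
  have d1 : dg k z s = (κ e.1).1 := by
    rw [hdz s (by omega), if_pos hst, hget]
  have d2 : dg k z (t + s) = (κ e.1).2 := by
    rw [hdz (t + s) (by omega), if_neg (by omega), Nat.add_sub_cancel_left, hget]
  have hn : 0 < n := by
    simp only [mem_product, mem_range] at he
    rcases Nat.eq_zero_or_pos n with rfl | hn
    · have := he.2.1
      rw [zero_pow (by omega)] at this
      omega
    · exact hn
  obtain ⟨o1, o2, o3⟩ := hok s hst
  rw [d1] at o1 o2
  rw [d2] at o1 o3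
  refine hκ3 e.1 _ _ (dg_lt hn _ _) (dg_lt hn _ _) (fun y hy => ?_) (fun y hy => ?_) o2 o3 o1
  · exact hatt _ (Or.inr ⟨s, hst, y, hy, Or.inl (by rw [d1])⟩)
  · exact hatt _ (Or.inr ⟨s, hst, y, hy, Or.inr (by rw [d2])⟩)

/-- the evaluation points -/
def ptB (d j : ℕ) : ℕ := 2 ^ ((4 * d + 4) ^ j + 2)

/-- the hash value of the vertex `v` at the position `j` -/
def hash2 (q d j v : ℕ) : ℕ := ∑ l ∈ range d, dg q v l * ptB d j ^ l

theorem ptB_mono (d : ℕ) {j m : ℕ} (h : j ≤ m) : ptB d j ≤ ptB d m :=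
  Nat.pow_le_pow_right (by omega)
    (Nat.add_le_add_right (Nat.pow_le_pow_right (by omega) h) 2)

theorem hash2_lt {q d m j : ℕ} (hq : 0 < q) (hj : j < m) (v : ℕ) :
    hash2 q d j v < d * q * ptB d m ^ d + 1 := by
  unfold hash2
  have h1 : 0 < ptB d m := by unfold ptB; positivity
  have : ∑ l ∈ range d, dg q v l * ptB d j ^ l ≤ ∑ _l ∈ range d, q * ptB d m ^ d :=
    sum_le_sum (fun l hl => Nat.mul_le_mul (dg_lt hq _ _).le
      ((Nat.pow_le_pow_left (ptB_mono d hj.le) l).trans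
        (Nat.pow_le_pow_right h1 (mem_range.1 hl).le)))
  rw [sum_const, card_range, smul_eq_mul, ← mul_assoc] at this
  omega

theorem fewColl_hash2 {n q d m r : ℕ} (hq : n ≤ q ^ d) (hm : 2 * (r * d) ≤ m) :
    FewColl n m r (hash2 q d) := by
  intro V hV hr
  have h := few_coll V d (fun v l => dg q v l)
    (fun v hv v' hv' h => eq_of_dg d v v' ((mem_range.1 (hV hv)).trans_le hq)
      ((mem_range.1 (hV hv')).trans_le hq) h)
    (ptB d) (fun j => 2 ^ (4 * d + 4) ^ j) (by simp)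
    (fun j => by
      unfold ptB
      rw [pow_add]
      have : 0 < 2 ^ (4 * d + 4) ^ j := by positivity
      omega)
    (fun j => by
      unfold ptB
      rw [pow_succ (4 * d + 4)]
      have h1 : 1 ≤ (4 * d + 4) ^ j := Nat.pos_of_ne_zero (by positivity)
      generalize (4 * d + 4) ^ j = e at h1
      calc 4 * d * (2 ^ (e + 2)) ^ d * (2 ^ e) ^ 2
          ≤ 4 * 2 ^ d * (2 ^ (e + 2)) ^ d * (2 ^ e) ^ 2 := by
            have := (Nat.lt_two_pow_self (n := d)).le
            gcongr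
        _ = 2 ^ (2 + d + (e + 2) * d + e * 2) := by
            rw [← pow_mul, ← pow_mul, pow_add, pow_add, pow_add]
            norm_num
        _ ≤ 2 ^ (e * (4 * d + 4)) := Nat.pow_le_pow_right (by omega) (by nlinarith))
    (fun j => Nat.pow_le_pow_right (by omega) (Nat.pow_le_pow_right (by omega) (by omega))) m
  have h2 := Nat.mul_le_mul_right d hr
  refine le_trans (Nat.mul_le_mul_left 2 (le_trans ?_ h2)) hm
  unfold hash2
  convert h

theorem word_bound2 (n d a k b : ℕ) (hk : k ≤ d * a) :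
    (d * rootUp n d * b + 1) ^ k ≤ 2 ^ (d * a) * (d * b + 1) ^ k * (n + 1) ^ a := by
  have h2 := rootUp_pow_le n d
  rcases Nat.eq_zero_or_pos (rootUp n d) with h | h
  · rw [h, mul_zero, zero_mul, zero_add, one_pow]
    exact Nat.pos_of_ne_zero (by positivity)
  · have h1 : d * rootUp n d * b + 1 ≤ rootUp n d * (d * b + 1) := by nlinarith
    calc _ ≤ (rootUp n d * (d * b + 1)) ^ k := Nat.pow_le_pow_left h1 k
      _ = rootUp n d ^ k * (d * b + 1) ^ k := mul_pow _ _ _
      _ ≤ rootUp n d ^ (d * a) * (d * b + 1) ^ k :=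
        Nat.mul_le_mul_right _ (Nat.pow_le_pow_right h hk)
      _ ≤ (2 ^ d * (n + 1)) ^ a * (d * b + 1) ^ k := by
        rw [pow_mul]
        exact Nat.mul_le_mul_right _ (Nat.pow_le_pow_left h2 a)
      _ = _ := by rw [mul_pow, ← pow_mul]; ring

end Pool.Agent.P.MP_8c536d_lc
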