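import Pool.Agent.Lib.Helper33.RT
import Pool.Agent.Lib.Helper33.Sim

/-!
Loops whose body has a running time of its own, and calls of a given machine from a program.
-/

namespace Pool.Agent.P.MP_8c536d_lc

open Pool.Agent.Lib.Helper47 Pool.Agent.Lib.Helper47.Enc Pool.Agent.Lib.Helper33
  Pool.Agent.Lib.Helper33.Sim Pool.Agent.P.MP_ba7db8_lc Turing Turing.TM2

/-- a loop with at least one round -/
theorem rt_loop {α σ : Type} [Enc σ] {s : α → ℕ} (st : α → ℕ → σ) (N : α → ℕ) (hN : PB s N)
    (h0 : ∀ a, 0 < N a)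
    (hbody : RT (fun p : {p : α × ℕ // p.2 < N p.1} => s p.1.1) (fun p => st p.1.1 p.1.2)
      (fun p => (decide (p.1.2 + 1 < N p.1.1), st p.1.1 (p.1.2 + 1)))) :
    RT s (fun a => (true, st a 0)) (fun a => st a (N a)) := by
  obtain ⟨P, n, ⟨p, hp⟩, hP⟩ := hbody
  refine ⟨whileP P, fun a => N a * (p.eval (s a) + 20) + 6,
    (hN.mul ((PB.self.eval p).add (PB.const 20))).add (PB.const 6), fun a => ?_⟩
  refine Comp.while (s := fun i => toT (st a i)) (N := N a) ?_ (by simp [h0 a])
  intro i hi f hf
  have e : f = decide (i + 1 < N a) := by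
    rw [Bool.eq_iff_iff, hf, decide_eq_true_iff]
  rw [e]
  exact (hP ⟨(a, i), hi⟩).mono (hp ⟨(a, i), hi⟩)

/-- a call of the machine `M` -/
theorem rt_oracle {α β : Type} [Enc β] {s : α → ℕ} (M : BTM) {x y : α → List Bool} {z : α → β}
    {t : α → ℕ} (ht : PB s t) (hx : PB s fun a => size (x a)) (hz : PB s fun a => size (z a))
    (h : ∀ a, M.Out (x a) (y a) (t a)) : RT s (fun a => (x a, z a)) (fun a => (y a, z a)) := by
  classical
  have := M.tm.kFin
  have := M.tm.ΛFin
  have := M.tm.σFin
  have := M.fin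
  let A : Set (Σ k, M.tm.Γ k) := Set.univ
  have hA : Finite A := Set.finite_univ.to_subtype
  have hM : ∀ l, pushSet (M.tm.m l) ⊆ A := fun l => Set.subset_univ _
  let _ : Enc M.tm.Λ := Enc.ofFinite _
  let _ : Enc M.tm.σ := Enc.ofFinite _
  let _ : Enc A := Enc.ofFinite _
  let c := Finset.univ.sup fun l => depth (M.tm.m l)
  have hc : ∀ l, depth (M.tm.m l) ≤ c := fun l =>
    Finset.le_sup (f := fun l => depth (M.tm.m l)) (Finset.mem_univ l)
  let ι : Bool → A := fun b => ⟨⟨M.tm.k₀, M.e₀.symm b⟩, trivial⟩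
  let s₀ : List Bool → Option M.tm.Λ × M.tm.σ × List A := fun x =>
    (some M.tm.main, M.tm.initialState, x.map ι)
  have hι : PT ι := PT.of_finite _
  have hs₀ : PT s₀ := by fun_prop
  have hstep : PT (stepS A M.tm.m) := by
    have h1 := pt_cases (g := fun l (p : M.tm.σ × List A) => sim A (M.tm.m l) p.1 p.2)
      (fun l => pt_sim A _) (fun p => (none, p)) (by fun_prop)
    exact PT.optElim (o := fun c : Option M.tm.Λ × M.tm.σ × List A => c.1) (n := fun c => c)
      (c := fun c l => sim A (M.tm.m l) c.2.1 c.2.2) (by fun_prop) (by fun_prop)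
      (h1.comp (g := fun y : (Option M.tm.Λ × M.tm.σ × List A) × M.tm.Λ => (y.2, y.1.2))
        (by fun_prop))
  have hlen : ∀ x i, ((stepS A M.tm.m)^[i] (s₀ x)).2.2.length ≤ x.length + i * c := by
    intro x i
    induction i with
    | zero => simp [s₀]
    | succ i ih =>
      rw [Function.iterate_succ_apply']
      generalize (stepS A M.tm.m)^[i] (s₀ x) = t at ih
      obtain ⟨_ | l, v, L⟩ := t
      · exact ih.trans (by rw [Nat.add_mul]; omega)
      · have := length_sim A (M.tm.m l) v L
        have := hc l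
        simp only [stepS, Option.elim] at *
        rw [Nat.add_mul]
        omega
  obtain ⟨C₁, hC₁⟩ := exists_size_le (Option M.tm.Λ)
  obtain ⟨C₂, hC₂⟩ := exists_size_le M.tm.σ
  obtain ⟨C₃, hC₃⟩ := exists_size_le A
  have hcfg : ∀ x i, cfg A ((stepS A M.tm.m)^[i] (s₀ x)) =
      (run M.tm.m)^[i] (initList M.tm (x.map M.e₀.symm)) := by
    intro x i
    induction i with
    | zero =>
      change (⟨_, _, _⟩ : Cfg _ _ _) = ⟨_, _, _⟩
      congr 1
      funext k
      change stk A (x.map ι) k = (initList M.tm (x.map M.e₀.symm)).stk k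
      by_cases hk : k = M.tm.k₀
      · subst hk
        rw [Pool.Agent.Lib.Helper33.initList_stk_self]
        simp [stk, List.filterMap_map, ι, dec_self]
      · rw [Pool.Agent.Lib.Helper33.initList_stk_ne _ _ hk]
        simp only [stk, List.filterMap_map, List.filterMap_eq_nil_iff]
        exact fun b _ => dec_ne A (Ne.symm hk)
    | succ i ih =>
      rw [Function.iterate_succ_apply', Function.iterate_succ_apply', cfg_stepS A _ hM, ih]
  have hex : ∀ a, ∃ m, m ≤ t a ∧ (run M.tm.m)^[m] (initList M.tm ((x a).map M.e₀.symm)) =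
      haltList M.tm ((y a).map M.e₁.symm) := by
    intro a
    obtain ⟨e⟩ := h a
    exact ⟨e.steps, e.steps_le_m, iterate_run_of_evals M.tm.m e.steps _ _ e.evals_in_steps⟩
  choose m hm1 hm2 using hex
  have hhalt : ∀ a, ((stepS A M.tm.m)^[m a] (s₀ (x a))).1 = none := fun a => by
    have := congrArg (fun c => c.l) (hcfg (x a) (m a))
    rw [hm2 a] at this
    exact this
  have hex : ∀ a, ∃ i, ((stepS A M.tm.m)^[i] (s₀ (x a))).1 = none := fun a => ⟨_, hhalt a⟩
  have hNt : ∀ a, Nat.find (hex a) ≤ t a := fun a =>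
    (Nat.find_min' (hex a) (hhalt a)).trans (hm1 a)
  have it : ∀ (u : Option M.tm.Λ × M.tm.σ × List A) (b : β) (i : ℕ),
      (fun p : (Option M.tm.Λ × M.tm.σ × List A) × β => (stepS A M.tm.m p.1, p.2))^[i] (u, b)
        = ((stepS A M.tm.m)^[i] u, b) := by
    intro u b i
    induction i with
    | zero => rfl
    | succ i ih => rw [Function.iterate_succ_apply', ih, Function.iterate_succ_apply']
  have hxl : PB s fun a => (x a).length := hx.mono (fun a => (length_lt_size _).le)
  have hin : PB s fun a => size (x a, z a) :=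
    ((hx.add hz).add (PB.const 1)).mono (fun a => by simp)
  have r0 : RT s (fun a => (x a, z a)) (fun a => (s₀ (x a), z a)) :=
    RT.of_PT (f := fun p : List Bool × β => (s₀ p.1, p.2)) (by fun_prop) hin
  have r1 := RT.whileN (s := s) (σ := (Option M.tm.Λ × M.tm.σ × List A) × β)
    (step := fun p => (stepS A M.tm.m p.1, p.2)) (go := fun p => p.1.1.isSome)
    (start := fun a => (s₀ (x a), z a)) (by fun_prop) (by fun_prop) (fun a => Nat.find (hex a))
    (fun a => C₁ + C₂ + 2 + (((x a).length + t a * c) * (C₃ + 1) + 1) + size (z a) + 1)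
    (ht.mono hNt)
    ((((PB.const _).add (((hxl.add (ht.mul (PB.const c))).mul (PB.const _)).add
      (PB.const 1))).add hz).add (PB.const 1))
    (fun a i hi => by
      rw [it]
      exact Option.isSome_iff_ne_none.2 (Nat.find_min (hex a) hi))
    (fun a => by
      rw [it]
      dsimp only
      rw [Nat.find_spec (hex a)]
      rfl)
    (fun a i hi => by
      rw [it]
      have h1 := hlen (x a) i
      generalize (stepS A M.tm.m)^[i] (s₀ (x a)) = u at h1
      have h2 := size_list_le (l := u.2.2) fun y _ => hC₃ y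
      have h3 : u.2.2.length * (C₃ + 1) ≤ ((x a).length + t a * c) * (C₃ + 1) :=
        Nat.mul_le_mul_right _ (h1.trans (Nat.add_le_add_left
          (Nat.mul_le_mul_right _ (hi.trans (hNt a))) _))
      have := hC₁ u.1
      have := hC₂ u.2.1
      rw [size_pair, size_prod, size_prod]
      omega)
  have ho : PT fun s : A => (dec A M.tm.k₁ s).map M.e₁ := PT.of_finite _
  have hf : PT fun p : (Option M.tm.Λ × M.tm.σ × List A) × β =>
      (p.1.2.2.filterMap fun s => (dec A M.tm.k₁ s).map M.e₁, p.2) :=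
    PT.prodMk (PT.filterMap (g := fun _ s => (dec A M.tm.k₁ s).map M.e₁)
      (ho.comp (g := fun p : ((Option M.tm.Λ × M.tm.σ × List A) × β) × A => p.2) (by fun_prop))
      (by fun_prop)) (by fun_prop)
  refine ((r0.trans r1).trans (RT.of_PT hf (r1.size_le (r0.size_le hin)))).of_eq fun a => ?_
  rw [it]
  obtain ⟨r, hr⟩ := Nat.exists_eq_add_of_le' (Nat.find_min' (hex a) (hhalt a))
  have e1 := hcfg (x a) (Nat.find (hex a))
  have e2 := hm2 a
  rw [hr, Function.iterate_add_apply (run M.tm.m), ← e1,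
    iterate_run_of_halt _ (Nat.find_spec (hex a))] at e2
  have e4 := congrArg (fun c => c.stk M.tm.k₁) e2
  simp only [Pool.Agent.Lib.Helper33.haltList_stk_self, cfg, stk] at e4
  dsimp only
  rw [← List.map_filterMap, e4]
  simp

end Pool.Agent.P.MP_8c536d_lc
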