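import Pool.Agent.P.MP_8c536d_lc.GapMain
import Pool.Agent.P.MP_8c536d_lc.RtHash

/-!
The reduction with the ratio `a` as an input, and the exhaustive search for a clique.
-/

namespace Pool.Agent.P.MP_8c536d_lc

open Finset Pool.Agent.Lib.Helper47 Pool.Agent.Lib.Helper33

/-- evaluation points -/
def ptT (U : List Unit) (d j : ℕ) : ℕ := pw U 2 (pw U (4 * d + 4) j + 2)

/-- hash values -/
def hash2T (U : List Unit) (q d j v : ℕ) : ℕ :=
  ((rng U d).map fun l => dgT U q v l * pw U (ptT U d j) l).sum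

/-- detachable gadgets -/
def okHB (U : List Unit) (n k t q d m D : ℕ) (mat : List Bool) (c : ℕ) (e : Gad) : Bool :=
  (rng U t).all fun s =>
    (dgT U k (c / m) s == dgT U k (c / m) (t + s) ||
      mat.getD (dgT U n e.2.1 s * n + dgT U n e.2.2 s) false) &&
    dgT U D e.1 (dgT U k (c / m) s) == hash2T U q d (c % m) (dgT U n e.2.1 s) &&
    dgT U D e.1 (dgT U k (c / m) (t + s)) == hash2T U q d (c % m) (dgT U n e.2.2 s)

/-- one direction of the adjacency test -/
def halfH (U : List Unit) (n k t q d m w D : ℕ) (mat : List Bool) (a b : Tup) : Bool :=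
  (a.1 == 0 && b.1 == 0) || (a.1 == 1 && b.1 == 1) || (a.1 == 1 && b.1 == 2) ||
    (a.1 == 3 && a == b) ||
    (a.1 == 3 && b.1 == 2 && attGB U n k t m w a.2.1 a.2.2 (b.2.1, b.2.2.1)) ||
    (a.1 == 3 && b.1 == 1 && !okHB U n k t q d m D mat a.2.1 a.2.2)

/-- the code of the graph with vertex labels `L` -/
def codeH (U : List Unit) (n k t q d m w D K : ℕ) (mat : List Bool) (L : List Tup) : List Bool :=
  L.map (fun _ => true) ++ [false] ++ rep U K true ++ [false] ++
    L.zipIdx.flatMap fun a => L.zipIdx.map fun b =>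
      (a.2 != b.2 && (halfH U n k t q d m w D mat a.1 b.1 || halfH U n k t q d m w D mat b.1 a.1))

/-- the reduction with all parameters given -/
def redQ (U : List Unit) (n k t q d m w K L n' X C B : ℕ) (mat : List Bool) : List Bool :=
  codeH U n k t q d m w (d * q * pw U (ptT U d m) d + 1) K mat
    (labsT U n' K X C (K + L + 1) B (L + 2 + K * X + X * n' * n' * wG U (K + L + 1) B C)
      (2 * wG U (K + L + 1) B C + K + L + 2))

/-- the number of digits -/
def dH (a k : ℕ) : ℕ := k / a + 1

/-- the number of positions -/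
def mH (k : ℕ) : ℕ := k * (8 * k)

/-- the new parameter -/
def kH (k : ℕ) : ℕ := mH k + k * (8 * k)

/-- the first budget -/
def r0 (a k : ℕ) : ℕ := mH k + k + (2 * (4 * a) + 1) + dH a k * a + dH a k + 8 * k

/-- the number of classes -/
def cH (a k : ℕ) : ℕ := mH k * k ^ (2 * (4 * a))

/-- the second budget -/
def r1 (a k : ℕ) : ℕ := r0 a k + cH a k + ((4 * dH a k + 4) ^ mH k + 2)

/-- the base of the weights -/
def baseH (a k : ℕ) : ℕ := (a * kH k) ^ (2 * (4 * a) + 1) + 2

/-- the factor in the bound for the number of words -/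
def yH (a k : ℕ) : ℕ := 2 ^ (dH a k * a) * (dH a k * ptB (dH a k) (mH k) ^ dH a k + 1) ^ k

/-- the budget -/
def budgetH (a n k : ℕ) : ℕ :=
  budG (n ^ (4 * a)) (yH a k * (n + 1) ^ a) (kH k) (a * kH k) (cH a k) (baseH a k ^ cH a k)
    (r1 a k + (n + 1))

/-- program for the number of classes -/
def cT (U : List Unit) (a k : ℕ) : ℕ := mH k * pw U k (2 * (4 * a))

/-- program for the second budget -/
def r1T (U : List Unit) (a k : ℕ) : ℕ := r0 a k + cT U a k + (pw U (4 * dH a k + 4) (mH k) + 2)

/-- program for the base -/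
def baseT (U : List Unit) (a k : ℕ) : ℕ := pw U (a * kH k) (2 * (4 * a) + 1) + 2

/-- program for the bound on the number of words -/
def xT (U : List Unit) (a n k : ℕ) : ℕ :=
  pw U 2 (dH a k * a) * pw U (dH a k * pw U (ptT U (dH a k) (mH k)) (dH a k) + 1) k *
    pw U (n + 1) a

/-- program for the budget -/
def budgetT (U : List Unit) (a n k : ℕ) : ℕ :=
  budG (pw U n (4 * a)) (xT U a n k) (kH k) (a * kH k) (cT U a k)
    (pw U (baseT U a k) (cT U a k)) (r1T U a k + (n + 1))

/-- the reduction, on parsed input -/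
def redH (U : List Unit) (a n k : ℕ) (mat : List Bool) : List Bool :=
  redQ U n k (4 * a) (rootT U n (dH a k)) (dH a k) (mH k) (8 * k) (kH k) (a * kH k)
    (pw U n (4 * a)) (xT U a n k) (cT U a k) (baseT U a k) mat

/-- exhaustive search for a clique -/
def bruteT (U : List Unit) (n k : ℕ) (mat : List Bool) : Bool :=
  (rng U (pw U n k)).any fun x => (rng U k).all fun i => (rng U k).all fun j =>
    i == j || mat.getD (dgT U n x i * n + dgT U n x j) false

section pt
variable {α : Type} [Enc α]

@[fun_prop] theorem pt_ptT {U : α → List Unit} {d j : α → ℕ} (hU : PT U) (hd : PT d)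
    (hj : PT j) : PT (fun z => ptT (U z) (d z) (j z)) := by
  unfold ptT; fun_prop

@[fun_prop] theorem pt_hash2T {U : α → List Unit} {q d j v : α → ℕ} (hU : PT U) (hq : PT q)
    (hd : PT d) (hj : PT j) (hv : PT v) : PT (fun z => hash2T (U z) (q z) (d z) (j z) (v z)) := by
  unfold hash2T; fun_prop

@[fun_prop] theorem pt_okHB {U : α → List Unit} {n k t q d m D c : α → ℕ} {mat : α → List Bool}
    {e : α → Gad} (hU : PT U) (hn : PT n) (hk : PT k) (ht : PT t) (hq : PT q) (hd : PT d)
    (hm : PT m) (hD : PT D) (hmat : PT mat) (hc : PT c) (he : PT e) :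
    PT (fun z => okHB (U z) (n z) (k z) (t z) (q z) (d z) (m z) (D z) (mat z) (c z) (e z)) := by
  unfold okHB; fun_prop

@[fun_prop] theorem pt_halfH {U : α → List Unit} {n k t q d m w D : α → ℕ} {mat : α → List Bool}
    {a b : α → Tup} (hU : PT U) (hn : PT n) (hk : PT k) (ht : PT t) (hq : PT q) (hd : PT d)
    (hm : PT m) (hw : PT w) (hD : PT D) (hmat : PT mat) (ha : PT a) (hb : PT b) :
    PT (fun z => halfH (U z) (n z) (k z) (t z) (q z) (d z) (m z) (w z) (D z) (mat z) (a z)
      (b z)) := by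
  unfold halfH; fun_prop

@[fun_prop] theorem pt_codeH {U : α → List Unit} {n k t q d m w D K : α → ℕ}
    {mat : α → List Bool} {L : α → List Tup} (hU : PT U) (hn : PT n) (hk : PT k) (ht : PT t)
    (hq : PT q) (hd : PT d) (hm : PT m) (hw : PT w) (hD : PT D) (hK : PT K) (hmat : PT mat)
    (hL : PT L) : PT (fun z => codeH (U z) (n z) (k z) (t z) (q z) (d z) (m z) (w z) (D z) (K z)
      (mat z) (L z)) := by
  unfold codeH; fun_prop

@[fun_prop] theorem pt_redQ {U : α → List Unit} {n k t q d m w K L n' X C B : α → ℕ}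
    {mat : α → List Bool} (hU : PT U) (hn : PT n) (hk : PT k) (ht : PT t) (hq : PT q) (hd : PT d)
    (hm : PT m) (hw : PT w) (hK : PT K) (hL : PT L) (hn' : PT n') (hX : PT X) (hC : PT C)
    (hB : PT B) (hmat : PT mat) : PT (fun z => redQ (U z) (n z) (k z) (t z) (q z) (d z) (m z)
      (w z) (K z) (L z) (n' z) (X z) (C z) (B z) (mat z)) := by
  unfold redQ; fun_prop

@[fun_prop] theorem pt_dH {a k : α → ℕ} (ha : PT a) (hk : PT k) :
    PT (fun z => dH (a z) (k z)) := by
  unfold dH; fun_prop

@[fun_prop] theorem pt_mH {k : α → ℕ} (hk : PT k) : PT (fun z => mH (k z)) := by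
  unfold mH; fun_prop

@[fun_prop] theorem pt_kH {k : α → ℕ} (hk : PT k) : PT (fun z => kH (k z)) := by
  unfold kH; fun_prop

@[fun_prop] theorem pt_r0 {a k : α → ℕ} (ha : PT a) (hk : PT k) :
    PT (fun z => r0 (a z) (k z)) := by
  unfold r0; fun_prop

@[fun_prop] theorem pt_cT {U : α → List Unit} {a k : α → ℕ} (hU : PT U) (ha : PT a) (hk : PT k) :
    PT (fun z => cT (U z) (a z) (k z)) := by
  unfold cT; fun_prop

@[fun_prop] theorem pt_r1T {U : α → List Unit} {a k : α → ℕ} (hU : PT U) (ha : PT a)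
    (hk : PT k) : PT (fun z => r1T (U z) (a z) (k z)) := by
  unfold r1T; fun_prop

@[fun_prop] theorem pt_baseT {U : α → List Unit} {a k : α → ℕ} (hU : PT U) (ha : PT a)
    (hk : PT k) : PT (fun z => baseT (U z) (a z) (k z)) := by
  unfold baseT; fun_prop

@[fun_prop] theorem pt_xT {U : α → List Unit} {a n k : α → ℕ} (hU : PT U) (ha : PT a)
    (hn : PT n) (hk : PT k) : PT (fun z => xT (U z) (a z) (n z) (k z)) := by
  unfold xT; fun_prop

@[fun_prop] theorem pt_budgetT {U : α → List Unit} {a n k : α → ℕ} (hU : PT U) (ha : PT a)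
    (hn : PT n) (hk : PT k) : PT (fun z => budgetT (U z) (a z) (n z) (k z)) := by
  unfold budgetT budG; fun_prop

@[fun_prop] theorem pt_redH {U : α → List Unit} {a n k : α → ℕ} {mat : α → List Bool}
    (hU : PT U) (ha : PT a) (hn : PT n) (hk : PT k) (hmat : PT mat) :
    PT (fun z => redH (U z) (a z) (n z) (k z) (mat z)) := by
  unfold redH; fun_prop

@[fun_prop] theorem pt_bruteT {U : α → List Unit} {n k : α → ℕ} {mat : α → List Bool}
    (hU : PT U) (hn : PT n) (hk : PT k) (hmat : PT mat) :
    PT (fun z => bruteT (U z) (n z) (k z) (mat z)) := by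
  unfold bruteT; fun_prop

end pt

theorem ptT_eq {U : List Unit} {d j m : ℕ} (hj : j ≤ m) (hm : m ≤ U.length)
    (h : (4 * d + 4) ^ m + 2 ≤ U.length) : ptT U d j = ptB d j := by
  unfold ptT ptB
  have : (4 * d + 4) ^ j ≤ (4 * d + 4) ^ m := Nat.pow_le_pow_right (by omega) hj
  rw [pw_eq _ (hj.trans hm), pw_eq _ (by omega)]

theorem hash2T_eq {U : List Unit} (q : ℕ) {d j m : ℕ} (v : ℕ) (hd : d ≤ U.length) (hj : j ≤ m)
    (hm : m ≤ U.length) (h : (4 * d + 4) ^ m + 2 ≤ U.length) :
    hash2T U q d j v = hash2 q d j v := by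
  unfold hash2T hash2
  rw [rng_eq hd, ptT_eq hj hm h, List.map_congr_left (g := fun l => dg q v l * ptB d j ^ l)
    (fun l hl => by
      have := (List.mem_range.1 hl).le.trans hd
      rw [dgT_eq _ _ this, pw_eq _ this]), sum_map_range]

theorem okHB_iff {U : List Unit} {n k t d m : ℕ} (hk0 : 0 < k) (hm0 : 0 < m) (hk : k ≤ U.length)
    (ht : 2 * t ≤ U.length) (hd : d ≤ U.length) (hm : m ≤ U.length)
    (h : (4 * d + 4) ^ m + 2 ≤ U.length) (q D : ℕ) (mat : List Bool) (c : ℕ) (e : Gad) :
    okHB U n k t q d m D mat c e = true ↔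
      OkH (fun u w => mat.getD (u * n + w) false = true) n k t m D (hash2 q d) c e := by
  unfold okHB OkH
  rw [rng_eq (by omega), List.all_eq_true]
  refine forall_congr' (fun s => ?_)
  rw [List.mem_range]
  refine imp_congr_right (fun hs => ?_)
  have h1 : s ≤ U.length := by omega
  have h2 : t + s ≤ U.length := by omega
  simp only [dgT_eq _ _ h1, dgT_eq _ _ h2, hash2T_eq _ _ hd (Nat.mod_lt c hm0).le hm h,
    dgT_eq _ _ ((dg_lt hk0 _ _).le.trans hk), Bool.and_eq_true, Bool.or_eq_true, beq_iff_eq,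
    and_assoc]

theorem halfH_iff (U : List Unit) (n k t q d m w D : ℕ) (mat : List Bool) (a b : Lab Gad) :
    (halfH U n k t q d m w D mat (encL a) (encL b) ||
      halfH U n k t q d m w D mat (encL b) (encL a)) = true ↔
      Rel (fun c e => okHB U n k t q d m D mat c e = true)
        (fun c e p => attGB U n k t m w c e p = true) a b := by
  cases a <;> cases b <;> simp [halfH, encL, Rel]
  tauto

theorem codeH_eq {U : List Unit} (n k t q d m w D : ℕ) {K : ℕ} (hK : K ≤ U.length)
    (mat : List Bool) (L : List (Lab Gad)) :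
    codeH U n k t q d m w D K mat (L.map encL) = code L.length
      (gadGraph L (fun c e => okHB U n k t q d m D mat c e = true)
        (fun c e p => attGB U n k t m w c e p = true)) K := by
  unfold codeH code
  rw [rep_eq _ hK, List.zipIdx_map, zipIdx_eq_map, List.map_const', List.length_map]
  simp only [List.map_map, List.flatMap_map]
  congr 1
  refine List.flatMap_congr (fun i _ => List.map_congr_left (fun j _ => ?_))
  rw [Bool.eq_iff_iff, @decide_eq_true_iff _ (_)]
  simp only [Function.comp_apply, Prod.map_fst, Prod.map_snd, id, Bool.and_eq_true, halfH_iff,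
    gadGraph, bne_iff_ne, ne_eq, Fin.val_inj]

theorem cT_eq {U : List Unit} {a k : ℕ} (h : r0 a k ≤ U.length) : cT U a k = cH a k := by
  unfold cT cH
  unfold r0 at h
  rw [pw_eq _ (by omega)]

theorem r1T_eq {U : List Unit} {a k : ℕ} (h : r0 a k ≤ U.length) : r1T U a k = r1 a k := by
  unfold r1T r1
  rw [cT_eq h]
  unfold r0 at h
  rw [pw_eq _ (by omega)]

theorem baseT_eq {U : List Unit} {a k : ℕ} (h : r0 a k ≤ U.length) :
    baseT U a k = baseH a k := by
  unfold baseT baseH
  unfold r0 at h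
  rw [pw_eq _ (by omega)]

theorem xT_eq {U : List Unit} {a k : ℕ} (n : ℕ) (h : r1 a k ≤ U.length) :
    xT U a n k = yH a k * (n + 1) ^ a := by
  unfold xT yH
  unfold r1 r0 at h
  rw [ptT_eq le_rfl (by omega) (by omega), pw_eq _ (by omega), pw_eq _ (by omega),
    pw_eq _ (by omega), pw_eq _ (by omega)]

theorem budgetT_eq {U : List Unit} {a k : ℕ} (n : ℕ) (h : r1 a k ≤ U.length) :
    budgetT U a n k = budgetH a n k := by
  have h0 : r0 a k ≤ U.length := by unfold r1 at h; omega
  unfold budgetT budgetH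
  rw [xT_eq n h, cT_eq h0, r1T_eq h0, baseT_eq h0]
  unfold r1 r0 at h
  rw [pw_eq _ (by omega), pw_eq _ (by omega)]

theorem bruteT_iff {U : List Unit} {n k : ℕ} (G : SimpleGraph (Fin n)) (hk : k ≤ U.length)
    (hn : n ^ k ≤ U.length) :
    bruteT U n k (matOf n G) = true ↔ ∃ S : Finset (Fin n), G.IsNClique k S := by
  rw [clique_iff]
  unfold bruteT
  rw [pw_eq _ hk, rng_eq hn, rng_eq hk]
  simp only [List.any_eq_true, List.all_eq_true, List.mem_range, Bool.or_eq_true, beq_iff_eq]
  constructor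
  · rintro ⟨x, hx, h⟩
    refine ⟨fun i => dg n x i, fun i hi => dg_lt ?_ _ _, fun i hi j hj hij => ?_⟩
    · rcases Nat.eq_zero_or_pos n with rfl | h0
      · rw [zero_pow (by omega)] at hx
        omega
      · exact h0
    · have := (h i hi j hj).resolve_left hij
      rwa [dgT_eq _ _ (by omega), dgT_eq _ _ (by omega)] at this
  · rintro ⟨v, hv, h⟩
    obtain ⟨x, hx, hd⟩ := exists_dg k v hv
    refine ⟨x, hx, fun i hi j hj => ?_⟩
    by_cases hij : i = j
    · exact Or.inl hij
    · rw [dgT_eq _ _ (by omega), dgT_eq _ _ (by omega), hd i hi, hd j hj]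
      exact Or.inr (h i hi j hj hij)

theorem redH_correct {n : ℕ} (k a : ℕ) (G : SimpleGraph (Fin n))
    {U : List Unit} (hU : budgetH a n k ≤ U.length) :
    ∃ (N : ℕ) (H : SimpleGraph (Fin N)), N ≤ 3 * budgetH a n k ∧
      redH U a n k (matOf n G) = code N H (kH k) ∧ (0 < a → a ≤ k →
      ((∃ S : Finset (Fin n), G.IsNClique k S) →
        ∃ S : Finset (Fin N), IsBisector H S ∧ S.card ≤ kH k) ∧
      ∀ S : Finset (Fin N), IsBisector H S → S.card ≤ a * kH k →
        ∃ S : Finset (Fin n), G.IsNClique k S) := by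
  set t := 4 * a with ht
  set d := dH a k with hddef
  set w := 8 * k with hwdef
  set m := mH k with hmdef
  set K := kH k with hKdef
  set L := a * K with hL
  set C := cH a k with hCdef
  set B := baseH a k with hBdef
  set E := B ^ C with hE
  set X := yH a k * (n + 1) ^ a with hX
  set n' := n ^ t with hn'
  set q := rootUp n d with hq
  set D := d * q * ptB d m ^ d + 1 with hD
  have hKm : K = m + k * w := rfl
  have hmw : m = k * w := rfl
  have hCm : C = m * k ^ (2 * t) := rfl
  have hBL : B = L ^ (2 * t + 1) + 2 := rfl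
  have hbud : budgetH a n k = (L + 2 + K * X + X * n' * n' * ((K + L + 1) * (C * E))) +
    (2 * ((K + L + 1) * (C * E)) + K + L + 2) + K + X + n' + C + (K + L + 1) * E +
    (r1 a k + (n + 1)) := rfl
  have hr1 : r1 a k = r0 a k + C + ((4 * d + 4) ^ m + 2) := rfl
  have hr0 : r0 a k = m + k + (2 * t + 1) + d * a + d + w := rfl
  have hk : k ≤ U.length := by omega
  have hn1 : n + 1 ≤ U.length := by omega
  have htU : 2 * t + 1 ≤ U.length := by omega
  have hwU : w ≤ U.length := by omega
  have hdU : d ≤ U.length := by omega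
  have hmU : m ≤ U.length := by omega
  have hpU : (4 * d + 4) ^ m + 2 ≤ U.length := by omega
  have hK : K ≤ U.length := by omega
  have hXU : X ≤ U.length := by omega
  have hn'U : n' ≤ U.length := by omega
  have hC : C ≤ U.length := by omega
  have hB1 : 1 < B := by omega
  have hpow : ∀ c < C, B ^ c ≤ E := fun c hc => Nat.pow_le_pow_right (by omega) (by omega)
  set W := (K + L + 1) * ∑ c ∈ range C, B ^ c with hW
  have hWle : W ≤ (K + L + 1) * (C * E) := by
    refine Nat.mul_le_mul_left _ ?_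
    calc ∑ c ∈ range C, B ^ c ≤ ∑ _c ∈ range C, E :=
          sum_le_sum (fun c hc => hpow c (mem_range.1 hc))
      _ = C * E := by rw [sum_const, card_range, smul_eq_mul]
  have hwT : wG U (K + L + 1) B C = W := by
    unfold wG
    rw [rng_eq hC, List.map_congr_left (f := fun c => pw U B c) (g := fun c => B ^ c)
      (fun c hc => pw_eq _ ((List.mem_range.1 hc).le.trans hC)), sum_map_range]
  set P := L + 2 + K * X + X * n' * n' * W with hP
  set Z := 2 * W + K + L + 2 with hZ
  have hPle : P ≤ L + 2 + K * X + X * n' * n' * ((K + L + 1) * (C * E)) :=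
    Nat.add_le_add_left (Nat.mul_le_mul_left _ hWle) _
  have hPU : P ≤ U.length := by omega
  have hZU : Z ≤ U.length := by omega
  have hM : ∀ c < C, (K + L + 1) * B ^ c ≤ U.length := fun c hc => by
    have := Nat.mul_le_mul_left (K + L + 1) (hpow c hc)
    omega
  set ok : ℕ → Gad → Prop := fun c e => okHB U n k t q d m D (matOf n G) c e = true with hok
  set att : ℕ → Gad → ℕ × ℕ → Prop := fun c e p => attGB U n k t m w c e p = true with hatt
  have hG := isGadgetL n' K L X C ok att (K + L + 1) B W P Z rfl hB1 rfl rfl rfl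
  refine ⟨_, gadGraph (labsI n' K X C (K + L + 1) B P Z) ok att, ?_, ?_, fun ha hak => ?_⟩
  · have := hG.hN
    omega
  · unfold redH redQ
    rw [rootT_eq hn1 hdU, xT_eq n (by omega), cT_eq (by omega), baseT_eq (by omega),
      ptT_eq le_rfl hmU hpU, pw_eq _ hdU, pw_eq n (show 4 * a ≤ U.length by omega)]
    have e := labsT_eq (U := U) hn'U hK hXU hC hPU hZU hM
    rw [hP, hZ, ← hwT] at e
    exact (congrArg _ e).trans (by
      rw [hwT]
      exact codeH_eq n k t q d m w D hK _ _)
  have hk0 : 0 < k := by omega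
  have hw0 : 0 < w := by omega
  have hm0 : 0 < m := by rw [hmw]; positivity
  have hd0 : 0 < d := Nat.succ_pos _
  have hda : d * a = k / a * a + a := by rw [hddef, dH]; ring
  have hda1 : k ≤ d * a := by
    have := Nat.lt_div_mul_add (a := k) ha
    omega
  have hda2 : d * a ≤ 2 * k := by
    have := Nat.div_mul_le_self k a
    omega
  have hnX : n ≤ X := by
    have h1 : 1 ≤ yH a k := Nat.pos_of_ne_zero (by unfold yH; positivity)
    have h2 := Nat.mul_le_mul_right ((n + 1) ^ a) h1
    have h3 : n + 1 ≤ (n + 1) ^ a := Nat.le_self_pow (by omega) _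
    omega
  have hDX : D ^ k ≤ X := word_bound2 n d a k _ hda1
  have hnq : n ≤ q ^ d := le_rootUp_pow hd0
  constructor
  · intro hcl
    obtain ⟨v, hv, hadj⟩ := (clique_iff G k).1 hcl
    have hq0 : 0 < q := by
      rcases Nat.eq_zero_or_pos q with h | h
      · have := hv 0 hk0
        rw [h, zero_pow (by omega)] at hnq
        omega
      · exact h
    obtain ⟨Del, h1, h2, h3⟩ := gapH_complete (t := t) (w := w) (hs := hash2 q d) hk0 hm0
      (fun j hj v _ => hash2_lt hq0 hj v) hDX hnX
      (fun u w => (matOf n G).getD (u * n + w) false = true) v hv hadj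
    refine hG.complete Del h1 h2 (fun c _ => ?_)
    obtain ⟨e, he, h4, h5⟩ := h3 c
    exact ⟨e, he, (okHB_iff hk0 hm0 hk (by omega) hdU hmU hpU _ _ _ _ _).2 h4,
      fun p _ hp => h5 p ((attGB_iff (by omega) hwU _ _ e p).1 hp)⟩
  · intro S hS hcard
    rw [clique_iff]
    have hlift : ∀ c, ∀ (Del : Finset (ℕ × ℕ)), ∀ e ∈ range X ×ˢ range n' ×ˢ range n',
        (∀ p ∈ range K ×ˢ range X, att c e p → p ∈ Del) →
        ∀ p, AttG n k t m w c e p → p ∈ Del := by
      intro c Del e he h2 p hp
      exact h2 p (attG_mem hk0 hm0 hnX he hp) ((attGB_iff (by omega) hwU _ _ e p).2 hp)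
    obtain ⟨Del, h1, h2⟩ := hG.sound (fun c _ Del hDel T hT => by
      have h3 := gap_few (n := n) (k := k) (t := t) (m := m) (X := X) (c := c) hw0 Del T
        (fun e he => ⟨(hT e he).1, hlift c Del e (hT e he).1 (hT e he).2.2⟩)
      have h4 : Del.card ^ (2 * t + 1) ≤ L ^ (2 * t + 1) := Nat.pow_le_pow_left hDel _
      omega) S hcard hS
    have hcoll : FewColl n m (2 * a * k) (hash2 q d) := fewColl_hash2 hnq (by
      calc 2 * (2 * a * k * d) = 4 * k * (d * a) := by ring
        _ ≤ 4 * k * (2 * k) := Nat.mul_le_mul_left _ hda2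
        _ = m := by rw [hmw, hwdef]; ring)
    refine gapH_sound (D := D) (X := X) hk0 hw0 hmw hcoll
      (fun u w => (matOf n G).getD (u * n + w) false = true) Del (h1.trans hcard) (fun c hc => ?_)
    obtain ⟨e, he, h3, h4⟩ := h2 c hc
    exact ⟨e, he, (okHB_iff hk0 hm0 hk (by omega) hdU hmU hpU _ _ _ _ _).1 h3,
      hlift c Del e he h4⟩

end Pool.Agent.P.MP_8c536d_lc
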