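import Pool.Agent.P.MP_8c536d_lc.RtDefs
import Pool.Agent.P.MP_8c536d_lc.RtLoop
import Pool.Agent.P.MP_8c536d_lc.RtProg

/-!
The machine for Clique: it tries the ratios `a = 1, 2, …` until the approximation algorithm
gives a conclusive answer, or until exhaustive search is as cheap as one round.
-/

namespace Pool.Agent.P.MP_8c536d_lc

open Finset Pool.Agent.Lib.Helper47 Pool.Agent.Lib.Helper33

/-- bounded by `g (a, k) * (n + 1) ^ (c * a)` -/
def FE (t : ℕ → ℕ → ℕ → ℕ) : Prop :=
  ∃ (g : ℕ × ℕ → ℕ) (c : ℕ), Primrec g ∧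
    ∀ a n k, 0 < a → t a n k ≤ g (a, k) * (n + 1) ^ (c * a)

namespace FE
variable {s t : ℕ → ℕ → ℕ → ℕ}

theorem par {g : ℕ × ℕ → ℕ} (hg : Primrec g) : FE fun a _ k => g (a, k) :=
  ⟨g, 0, hg, by simp⟩
theorem const (b : ℕ) : FE fun _ _ _ => b := par (Primrec.const b)
theorem vpow (j : ℕ) : FE fun a n _ => (n + 1) ^ (j * a) :=
  ⟨fun _ => 1, j, Primrec.const 1, by simp⟩
theorem mono (h : FE t) (hle : ∀ a n k, 0 < a → s a n k ≤ t a n k) : FE s := by
  obtain ⟨f, c, hf, h⟩ := h
  exact ⟨f, c, hf, fun a n k ha => (hle a n k ha).trans (h a n k ha)⟩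
theorem add (h1 : FE s) (h2 : FE t) : FE fun a n k => s a n k + t a n k := by
  obtain ⟨f, c, hf, h1⟩ := h1
  obtain ⟨g, d, hg, h2⟩ := h2
  refine ⟨fun p => f p + g p, c + d, Primrec.nat_add.comp hf hg, fun a n k ha => ?_⟩
  have e1 : (n + 1) ^ (c * a) ≤ (n + 1) ^ ((c + d) * a) :=
    Nat.pow_le_pow_right (by omega) (Nat.mul_le_mul_right _ (by omega))
  have e2 : (n + 1) ^ (d * a) ≤ (n + 1) ^ ((c + d) * a) :=
    Nat.pow_le_pow_right (by omega) (Nat.mul_le_mul_right _ (by omega))
  rw [add_mul]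
  exact Nat.add_le_add ((h1 a n k ha).trans (Nat.mul_le_mul_left _ e1))
    ((h2 a n k ha).trans (Nat.mul_le_mul_left _ e2))
theorem mul (h1 : FE s) (h2 : FE t) : FE fun a n k => s a n k * t a n k := by
  obtain ⟨f, c, hf, h1⟩ := h1
  obtain ⟨g, d, hg, h2⟩ := h2
  refine ⟨fun p => f p * g p, c + d, Primrec.nat_mul.comp hf hg, fun a n k ha => ?_⟩
  calc s a n k * t a n k ≤ _ := Nat.mul_le_mul (h1 a n k ha) (h2 a n k ha)
    _ = _ := by ring
end FE

theorem primrec_pow' {α : Type} [Primcodable α] {f g : α → ℕ} (hf : Primrec f) (hg : Primrec g) :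
    Primrec fun x => f x ^ g x :=
  (Primrec₂.unpaired'.1 Nat.Primrec.pow).comp hf hg

theorem primrec_mH : Primrec mH :=
  Primrec.nat_mul.comp Primrec.id (Primrec.nat_mul.comp (Primrec.const 8) Primrec.id)

theorem primrec_kH : Primrec kH :=
  Primrec.nat_add.comp primrec_mH primrec_mH

theorem fe_budgetH : FE budgetH := by
  have pa : Primrec fun p : ℕ × ℕ => p.1 := Primrec.fst
  have pk : Primrec fun p : ℕ × ℕ => p.2 := Primrec.snd
  have pd : Primrec fun p : ℕ × ℕ => dH p.1 p.2 :=
    Primrec.nat_add.comp (Primrec.nat_div.comp pk pa) (Primrec.const 1)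
  have pm : Primrec fun p : ℕ × ℕ => mH p.2 := primrec_mH.comp pk
  have pK : Primrec fun p : ℕ × ℕ => kH p.2 := primrec_kH.comp pk
  have pL : Primrec fun p : ℕ × ℕ => p.1 * kH p.2 := Primrec.nat_mul.comp pa pK
  have p8 : Primrec fun p : ℕ × ℕ => 2 * (4 * p.1) :=
    Primrec.nat_mul.comp (Primrec.const 2) (Primrec.nat_mul.comp (Primrec.const 4) pa)
  have p9 : Primrec fun p : ℕ × ℕ => 2 * (4 * p.1) + 1 :=
    Primrec.nat_add.comp p8 (Primrec.const 1)
  have pda : Primrec fun p : ℕ × ℕ => dH p.1 p.2 * p.1 := Primrec.nat_mul.comp pd pa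
  have p0 : Primrec fun p : ℕ × ℕ => r0 p.1 p.2 :=
    Primrec.nat_add.comp (Primrec.nat_add.comp (Primrec.nat_add.comp (Primrec.nat_add.comp
      (Primrec.nat_add.comp pm pk) p9) pda) pd) (Primrec.nat_mul.comp (Primrec.const 8) pk)
  have pC : Primrec fun p : ℕ × ℕ => cH p.1 p.2 := Primrec.nat_mul.comp pm (primrec_pow' pk p8)
  have pe : Primrec fun p : ℕ × ℕ => (4 * dH p.1 p.2 + 4) ^ mH p.2 + 2 :=
    Primrec.nat_add.comp (primrec_pow' (Primrec.nat_add.comp
      (Primrec.nat_mul.comp (Primrec.const 4) pd) (Primrec.const 4)) pm) (Primrec.const 2)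
  have p1 : Primrec fun p : ℕ × ℕ => r1 p.1 p.2 :=
    Primrec.nat_add.comp (Primrec.nat_add.comp p0 pC) pe
  have pB : Primrec fun p : ℕ × ℕ => baseH p.1 p.2 :=
    Primrec.nat_add.comp (primrec_pow' pL p9) (Primrec.const 2)
  have pb : Primrec fun p : ℕ × ℕ => ptB (dH p.1 p.2) (mH p.2) :=
    primrec_pow' (Primrec.const 2) pe
  have pY : Primrec fun p : ℕ × ℕ => yH p.1 p.2 :=
    Primrec.nat_mul.comp (primrec_pow' (Primrec.const 2) pda) (primrec_pow'
      (Primrec.nat_add.comp (Primrec.nat_mul.comp pd (primrec_pow' pb pd)) (Primrec.const 1)) pk)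
  have fK := FE.par pK
  have fL := FE.par pL
  have fC := FE.par pC
  have fE := FE.par (primrec_pow' pB pC)
  have fn1 : FE fun _ n _ => n + 1 :=
    (FE.vpow 1).mono fun a n _ ha => Nat.le_self_pow (by omega) _
  have fX : FE fun a n k => yH a k * (n + 1) ^ a :=
    ((FE.par pY).mul (FE.vpow 1)).mono fun a n k _ => by rw [one_mul]
  have fn : FE fun a n _ => n ^ (4 * a) :=
    (FE.vpow 4).mono fun a n _ _ => Nat.pow_le_pow_left (by omega) _
  have fM := (fK.add fL).add (FE.const 1)
  have fW := fM.mul (fC.mul fE)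
  exact (((((((((fL.add (FE.const 2)).add (fK.mul fX)).add (((fX.mul fn).mul fn).mul fW)).add
    (((((FE.const 2).mul fW).add fK).add fL).add (FE.const 2))).add fK).add fX).add fn).add
    fC).add (fM.mul fE)).add ((FE.par p1).add fn1)

theorem exists_boundH : ∃ (g : ℕ → ℕ) (c : ℕ), Primrec g ∧
    ∀ a n k A, 0 < a → a ≤ k + 1 → a ≤ A → budgetH a n k ≤ g k * (n + 1) ^ (c * A) := by
  obtain ⟨g, c, hg, h⟩ := fe_budgetH
  have hp : Primrec fun k : ℕ =>
      (Nat.rec 0 (fun a acc => acc + g (a, k)) (k + 2) : ℕ) :=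
    Primrec.nat_rec' (f := fun k : ℕ => k + 2) (g := fun _ => 0)
      (h := fun k (p : ℕ × ℕ) => p.2 + g (p.1, k))
      (Primrec.nat_add.comp Primrec.id (Primrec.const 2)) (Primrec.const 0)
      (Primrec.nat_add.comp (Primrec.snd.comp Primrec.snd)
        (hg.comp ((Primrec.fst.comp Primrec.snd).pair Primrec.fst))).to₂
  have he : ∀ k m : ℕ, (Nat.rec 0 (fun a acc => acc + g (a, k)) m : ℕ)
      = ∑ a ∈ range m, g (a, k) := by
    intro k m
    induction m with
    | zero => rfl
    | succ m ih => rw [sum_range_succ, ← ih]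
  refine ⟨_, c, hp, fun a n k A ha h1 h2 => (h a n k ha).trans (Nat.mul_le_mul ?_
    (Nat.pow_le_pow_right (by omega) (Nat.mul_le_mul_left _ h2)))⟩
  exact (single_le_sum (f := fun a => g (a, k)) (fun _ _ => Nat.zero_le _)
    (mem_range.2 (by omega))).trans (he k (k + 2)).ge

theorem poly_le (p : Polynomial ℕ) : ∃ c e : ℕ, ∀ m : ℕ, p.eval m ≤ c * (m + 1) ^ e := by
  induction p using Polynomial.induction_on' with
  | add p q hp hq =>
    obtain ⟨c, e, h⟩ := hp
    obtain ⟨c', e', h'⟩ := hq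
    refine ⟨c + c', e + e', fun m => ?_⟩
    rw [Polynomial.eval_add, add_mul]
    exact Nat.add_le_add
      ((h m).trans (Nat.mul_le_mul_left _ (Nat.pow_le_pow_right (by omega) (by omega))))
      ((h' m).trans (Nat.mul_le_mul_left _ (Nat.pow_le_pow_right (by omega) (by omega))))
  | monomial n a =>
    refine ⟨a, n, fun m => ?_⟩
    rw [Polynomial.eval_monomial]
    exact Nat.mul_le_mul_left _ (Nat.pow_le_pow_left (by omega) _)

theorem le_budgetH (a n k : ℕ) : r1 a k + (n + 1) + n ^ (4 * a) ≤ budgetH a n k := by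
  unfold budgetH budG
  omega

theorem pb_code {ι : Type} {s : ι → ℕ} {I : ι → Inst} (hn : PB s fun i => (I i).n)
    (hk : PB s fun i => (I i).k) : PB s fun i => (code (I i).n (I i).G (I i).k).length := by
  simp only [length_code]
  exact (hn.add (PB.const 1)).add ((hk.add (PB.const 1)).add (hn.mul hn))

/-- writing the budget of a round in unary -/
theorem rt_budget {ι : Type} {s : ι → ℕ} (a : ι → ℕ) (I : ι → Inst)
    (hs : ∀ i, budgetH (a i) (I i).n (I i).k ≤ s i) :
    PB s (fun i => size (a i, code (I i).n (I i).G (I i).k)) ∧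
    RT s (fun i => (a i, code (I i).n (I i).G (I i).k))
      (fun i => (List.replicate (budgetH (a i) (I i).n (I i).k) (),
        a i, code (I i).n (I i).G (I i).k)) := by
  have hb := fun i => (le_budgetH (a i) (I i).n (I i).k).trans (hs i)
  have b1 : PB s fun i => r1 (a i) (I i).k := PB.self.mono (fun i => by have := hb i; omega)
  have b0 : PB s fun i => r0 (a i) (I i).k := b1.mono (fun i => by unfold r1; omega)
  have b2 : PB s fun i => budgetH (a i) (I i).n (I i).k := PB.self.mono hs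
  have ba : PB s a := b0.mono (fun i => by unfold r0; omega)
  have bk : PB s fun i => (I i).k := b0.mono (fun i => by unfold r0; omega)
  have bn : PB s fun i => (I i).n := PB.self.mono (fun i => by have := hb i; omega)
  have hx : PB s fun i => size (a i, code (I i).n (I i).G (I i).k) :=
    (((((PB.const 4).mul ba).add (PB.const 1)).add
      (((PB.const 4).mul (pb_code bn bk)).add (PB.const 1))).add (PB.const 1)).mono (fun i => by
        have h1 := size_nat_le (a i)
        have h2 := size_bits_le (code (I i).n (I i).G (I i).k)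
        rw [size_pair]
        omega)
  have hn := pt_nOf
  have hr := pt_restOf
  have en : ∀ I : Inst, nOf (code I.n I.G I.k) = I.n := fun I => by rw [code_eq, nOf_eq]
  have ek : ∀ I : Inst, nOf (restOf (code I.n I.G I.k)) = I.k := fun I => by
    rw [code_eq, restOf_eq, nOf_eq]
  have s0 := ((RT.of_PT (f := fun p : ℕ × List Bool => (r0 p.1 (nOf (restOf p.2)), p))
    (by fun_prop) hx).of_eq (z := fun i => (r0 (a i) (I i).k, a i, code (I i).n (I i).G (I i).k))
      (fun i => by simp only [ek])).trans (RT.expand b0 hx)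
  have s1 := (s0.trans ((RT.of_PT (f := fun p : List Unit × ℕ × List Bool =>
    (r1T p.1 p.2.1 (nOf (restOf p.2.2)), p.2)) (by fun_prop) (s0.size_le hx)).of_eq
      (z := fun i => (r1 (a i) (I i).k, a i, code (I i).n (I i).G (I i).k))
      (fun i => by simp only [ek]; rw [r1T_eq (by simp)]))).trans (RT.expand b1 hx)
  have s2 := (s1.trans ((RT.of_PT (f := fun p : List Unit × ℕ × List Bool =>
    (budgetT p.1 p.2.1 (nOf p.2.2) (nOf (restOf p.2.2)), p.2)) (by fun_prop)
      (s1.size_le hx)).of_eq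
      (z := fun i => (budgetH (a i) (I i).n (I i).k, a i, code (I i).n (I i).G (I i).k))
      (fun i => by simp only [ek, en]; rw [budgetT_eq _ (by simp)]))).trans (RT.expand b2 hx)
  exact ⟨hx, s2⟩

/-- the test that ends the search -/
def stopB (a k : ℕ) (out : List Bool) : Bool :=
  Nat.ble k a || !out.headD false || Nat.ble (out.tail.count true) (a * kH k)

/-- the answer of the last round -/
def verdict (a k : ℕ) (br : Bool) (out : List Bool) : Bool :=
  bif Nat.ble k a then br else out.headD false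

theorem count_indicator {N : ℕ} (S : Finset (Fin N)) :
    ((List.finRange N).map fun i => decide (i ∈ S)).count true = S.card := by
  rw [List.count_eq_countP, List.countP_map, List.countP_eq_length_filter,
    ← List.toFinset_card_of_nodup ((List.nodup_finRange N).filter _)]
  congr 1
  ext i
  simp

/-- one round -/
theorem rt_round {ι : Type} {s : ι → ℕ} (M : BTM) (w : List Bool) (a : ι → ℕ) (I : ι → Inst)
    (hs : ∀ i, budgetH (a i) (I i).n (I i).k ≤ s i) (out : ι → List Bool) {t : ι → ℕ}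
    (ht : PB s t) (b : ι → Bool)
    (hM : ∀ i, M.Out (w ++ redH (List.replicate (budgetH (a i) (I i).n (I i).k) ()) (a i)
      (I i).n (I i).k (matOf (I i).n (I i).G)) (out i) (t i)) :
    RT s (fun i => (a i, b i, code (I i).n (I i).G (I i).k))
      (fun i => (!stopB (a i) (I i).k (out i), a i + 1,
        verdict (a i) (I i).k (bruteT (List.replicate (budgetH (a i) (I i).n (I i).k) ())
          (I i).n (I i).k (matOf (I i).n (I i).G)) (out i), code (I i).n (I i).G (I i).k)) := by
  obtain ⟨hx, r1⟩ := rt_budget a I hs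
  have hn := pt_nOf
  have hr := pt_restOf
  have en : ∀ I : Inst, nOf (code I.n I.G I.k) = I.n := fun I => by rw [code_eq, nOf_eq]
  have ek : ∀ I : Inst, nOf (restOf (code I.n I.G I.k)) = I.k := fun I => by
    rw [code_eq, restOf_eq, nOf_eq]
  have em : ∀ I : Inst, restOf (restOf (code I.n I.G I.k)) = matOf I.n I.G := fun I => by
    rw [code_eq, restOf_eq, restOf_eq]
  have hin : PB s fun i => size (a i, b i, code (I i).n (I i).G (I i).k) :=
    (hx.add (PB.const 4)).mono (fun i => by
      have := size_bool (b i)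
      simp only [size_pair]
      omega)
  have r0 := (RT.of_PT (f := fun p : ℕ × Bool × List Bool => (p.1, p.2.2)) (by fun_prop)
    hin).trans r1
  have r2 := r0.trans ((RT.of_PT (f := fun p : List Unit × ℕ × List Bool =>
    (w ++ redH p.1 p.2.1 (nOf p.2.2) (nOf (restOf p.2.2)) (restOf (restOf p.2.2)),
      bruteT p.1 (nOf p.2.2) (nOf (restOf p.2.2)) (restOf (restOf p.2.2)), p.2))
    (by fun_prop) (r0.size_le hin)).of_eq
    (z := fun i => (w ++ redH (List.replicate (budgetH (a i) (I i).n (I i).k) ()) (a i)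
      (I i).n (I i).k (matOf (I i).n (I i).G),
      bruteT (List.replicate (budgetH (a i) (I i).n (I i).k) ()) (I i).n (I i).k
        (matOf (I i).n (I i).G), a i, code (I i).n (I i).G (I i).k))
    (fun i => by simp only [en, ek, em]))
  have hz := r2.size_le hin
  have r3 := r2.trans (rt_oracle M ht (hz.mono (fun i => by rw [size_pair]; omega))
    (hz.mono (fun i => by rw [size_pair (w ++ _)]; omega)) hM)
  refine r3.trans ((RT.of_PT (f := fun p : List Bool × Bool × ℕ × List Bool =>
    (!stopB p.2.2.1 (nOf (restOf p.2.2.2)) p.1, p.2.2.1 + 1,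
      verdict p.2.2.1 (nOf (restOf p.2.2.2)) p.2.1 p.1, p.2.2.2))
    (by unfold stopB verdict; fun_prop) (r3.size_le hin)).of_eq (fun i => by simp only [ek]))

theorem mainH (ε : ℕ → ℝ) (w : List Bool)
    (h : SolvableFPT w fun n G k => ApproxAnswer (ε k) n G k) :
    SolvableExp (fun k => ⌈ε (16 * k ^ 2)⌉₊ + 1) CliqueAnswer := by
  classical
  obtain ⟨tm, e₀, e₁, f, c, hfin, hf, hA⟩ := h
  let M : BTM := ⟨tm, e₀, e₁, hfin⟩
  have hK : ∀ k, kH k = 16 * k ^ 2 := fun k => by unfold kH mH; ring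
  obtain ⟨g, d, hg, hb⟩ := exists_boundH
  have hred := fun (I : Inst) (a : ℕ) => redH_correct I.k a I.G
    (U := List.replicate (budgetH a I.n I.k) ()) (by simp)
  choose N H hN hcode hcor using hred
  have hout := fun (I : Inst) (a : ℕ) => hA (N I a) (H I a) (kH I.k)
  choose out hgood hrun using hout
  set A : ℕ → ℕ := fun k => ⌈ε (16 * k ^ 2)⌉₊ + 1 with hAdef
  have hA0 : ∀ k, 0 < A k := fun k => Nat.succ_pos _
  have hstopk : ∀ I : Inst, 0 < I.k + 1 ∧ stopB (I.k + 1) I.k (out I (I.k + 1)) = true :=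
    fun I => ⟨Nat.succ_pos _, by simp [stopB]⟩
  have hstopA : ∀ I : Inst, 0 < A I.k ∧ stopB (A I.k) I.k (out I (A I.k)) = true := by
    intro I
    refine ⟨hA0 _, ?_⟩
    rcases hgood I (A I.k) with ⟨S, -, hcard, he⟩ | ⟨he, -⟩
    · have h1 : 1 + ε (kH I.k) ≤ (A I.k : ℝ) := by
        have := Nat.le_ceil (ε (16 * I.k ^ 2))
        rw [hK]
        simp only [hAdef]
        push_cast
        linarith
      have h2 : (S.card : ℝ) ≤ A I.k * (kH I.k : ℕ) :=
        hcard.trans (mul_le_mul_of_nonneg_right h1 (Nat.cast_nonneg _))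
      have h3 : S.card ≤ A I.k * kH I.k := by exact_mod_cast h2
      rw [he, stopB, List.tail_cons, count_indicator, Nat.ble_eq_true_of_le h3, Bool.or_true]
    · rw [he]
      simp [stopB]
  have hex : ∀ I : Inst, ∃ a, 0 < a ∧ stopB a I.k (out I a) = true := fun I => ⟨_, hstopk I⟩
  set R : Inst → ℕ := fun I => Nat.find (hex I) with hR
  have hR0 : ∀ I, 0 < R I := fun I => (Nat.find_spec (hex I)).1
  have hR1 : ∀ I, R I ≤ I.k + 1 := fun I => Nat.find_min' (hex I) (hstopk I)
  have hR2 : ∀ I, R I ≤ A I.k := fun I => Nat.find_min' (hex I) (hstopA I)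
  set s : Inst → ℕ := fun I => (g I.k + f (kH I.k)) * (I.n + 1) ^ (d * A I.k) with hs
  have hs1 : ∀ I a, 0 < a → a ≤ R I → budgetH a I.n I.k ≤ s I := fun I a h0 h1 =>
    (hb a I.n I.k (A I.k) h0 (h1.trans (hR1 I)) (h1.trans (hR2 I))).trans
      (Nat.mul_le_mul_right _ (Nat.le_add_right _ _))
  have hs2 : ∀ I, f (kH I.k) ≤ s I := fun I =>
    (Nat.le_add_left _ _).trans (Nat.le_mul_of_pos_right _ (by positivity))
  have hb1 : ∀ I : Inst, r1 1 I.k + (I.n + 1) + I.n ^ (4 * 1) ≤ s I := fun I =>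
    (le_budgetH 1 I.n I.k).trans (hs1 I 1 one_pos (hR0 I))
  have bk : PB s fun I => I.k := PB.self.mono (fun I => by
    have := hb1 I
    unfold r1 r0 at this
    omega)
  have bn : PB s fun I => I.n := PB.self.mono (fun I => by have := hb1 I; omega)
  have hlen := pb_code (I := fun I => I) bn bk
  have hx : PB s fun I => size (code I.n I.G I.k) :=
    (((PB.const 4).mul hlen).add (PB.const 1)).mono (fun I => size_bits_le _)
  set v : Inst → ℕ → Bool := fun I a => verdict a I.k
    (bruteT (List.replicate (budgetH a I.n I.k) ()) I.n I.k (matOf I.n I.G)) (out I a) with hv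
  have rl := rt_loop (s := s)
    (fun I i => (i + 1, (if i = 0 then false else v I i), code I.n I.G I.k)) R
    ((bk.add (PB.const 1)).mono hR1) hR0
    ((rt_round M w (fun p : {p : Inst × ℕ // p.2 < R p.1} => p.1.2 + 1) (fun p => p.1.1)
      (fun p => hs1 _ _ (Nat.succ_pos _) p.2) (fun p => out p.1.1 (p.1.2 + 1))
      (t := fun p => s p.1.1 * (3 * s p.1.1 + 1) ^ c)
      (PB.self.mul ((((PB.const 3).mul PB.self).add (PB.const 1)).pow c))
      (fun p => if p.1.2 = 0 then false else v p.1.1 p.1.2) (fun p => by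
        rw [hcode]
        refine BTM.Out.mono (M := M) (hrun p.1.1 (p.1.2 + 1)) (Nat.mul_le_mul (hs2 _)
          (Nat.pow_le_pow_left ?_ c))
        have h1 := hN p.1.1 (p.1.2 + 1)
        have h2 := hs1 p.1.1 (p.1.2 + 1) (Nat.succ_pos _) p.2
        omega)).of_eq (fun p => by
      obtain ⟨⟨I, i⟩, hp⟩ := p
      dsimp only at hp ⊢
      rw [if_neg (Nat.succ_ne_zero i)]
      congr 1
      rcases Nat.lt_or_ge (i + 1) (R I) with h1 | h1
      · have := Nat.find_min (hex I) h1
        simp only [Nat.succ_pos, true_and, Bool.not_eq_true] at this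
        simp [this, h1]
      · have e : i + 1 = R I := by omega
        have := (Nat.find_spec (hex I)).2
        rw [e]
        simp only [hR] at this ⊢
        simp [this]))
  have r0 : RT s (fun I => code I.n I.G I.k)
      (fun I => (true, 0 + 1, (if (0 : ℕ) = 0 then false else v I 0), code I.n I.G I.k)) :=
    (RT.of_PT (f := fun x : List Bool => (true, 1, false, x)) (by fun_prop) hx).of_eq
      (fun I => by simp)
  have r1 := r0.trans rl
  have r2 := r1.trans ((RT.of_PT (f := fun p : ℕ × Bool × List Bool => [p.2.1]) (by fun_prop)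
    (r1.size_le hx)).of_eq (z := fun I => [v I (R I)]) (fun I => by
      dsimp only
      rw [if_neg (hR0 I).ne']))
  obtain ⟨M', t, ⟨p, hp⟩, -, hM'⟩ := r2.exists_btm hlen
  obtain ⟨c₁, e, hc₁⟩ := poly_le p
  refine ⟨M'.tm, M'.e₀, M'.e₁, fun k => c₁ * (g k + f (kH k) + 1) ^ e, d * e, M'.fin, ?_,
    fun n G k => ⟨[v ⟨n, G, k⟩ (R ⟨n, G, k⟩)], ?_, (hM' ⟨n, G, k⟩).mono ?_⟩⟩
  · exact Primrec.nat_mul.to_comp.comp (Computable.const c₁)
      ((Primrec₂.unpaired'.1 Nat.Primrec.pow).to_comp.comp
        (Primrec.nat_add.to_comp.comp (Primrec.nat_add.to_comp.comp hg.to_comp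
          (hf.comp primrec_kH.to_comp)) (Computable.const 1)) (Computable.const e))
  · have h0 := hR0 ⟨n, G, k⟩
    have hst : stopB (R ⟨n, G, k⟩) k (out ⟨n, G, k⟩ (R ⟨n, G, k⟩)) = true :=
      (Nat.find_spec (hex ⟨n, G, k⟩)).2
    generalize R ⟨n, G, k⟩ = a at h0 hst
    simp only [hv, verdict]
    rcases Nat.lt_or_ge a k with hak | hak
    · have hble : Nat.ble k a = false := by
        rw [← Bool.not_eq_true, Nat.ble_eq]
        omega
      obtain ⟨hyes, hno⟩ := hcor ⟨n, G, k⟩ a h0 hak.le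
      rw [hble, cond_false]
      rcases hgood ⟨n, G, k⟩ a with ⟨S, hS, -, he⟩ | ⟨he, hnone⟩
      · rw [he, stopB, hble, List.tail_cons, count_indicator] at hst
        rw [he]
        exact Or.inl ⟨rfl, hno S hS (by simpa using hst)⟩
      · rw [he]
        exact Or.inr ⟨rfl, fun hc => hnone (hyes hc)⟩
    · rw [Nat.ble_eq_true_of_le hak, cond_true]
      have h1 := le_budgetH a n k
      have hbr := bruteT_iff (U := List.replicate (budgetH a n k) ()) (k := k) G
        (by
          rw [List.length_replicate]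
          unfold Pool.Agent.P.MP_8c536d_lc.r1 Pool.Agent.P.MP_8c536d_lc.r0 at h1
          omega)
        (by
          rw [List.length_replicate]
          have h2 : 1 ≤ budgetH a n k := by omega
          rcases Nat.eq_zero_or_pos n with rfl | hn
          · have := Nat.pow_le_pow_left (show 0 ≤ 1 by omega) k
            rw [one_pow] at this
            omega
          · have := Nat.pow_le_pow_right hn (show k ≤ 4 * a by omega)
            omega)
      cases hb' : bruteT (List.replicate (budgetH a n k) ()) n k (matOf n G)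
      · exact Or.inr ⟨rfl, fun hc => by rw [hbr.2 hc] at hb'; exact absurd hb' (by simp)⟩
      · exact Or.inl ⟨rfl, hbr.1 hb'⟩
  · refine (hp _).trans ((hc₁ _).trans ?_)
    have h1 : 0 < (n + 1) ^ (d * A k) := by positivity
    have h2 : s ⟨n, G, k⟩ + 1 ≤ (g k + f (kH k) + 1) * (n + 1) ^ (d * A k) := by
      simp only [hs]
      rw [add_mul _ 1]
      omega
    calc c₁ * (s ⟨n, G, k⟩ + 1) ^ e
        ≤ c₁ * ((g k + f (kH k) + 1) * (n + 1) ^ (d * A k)) ^ e :=
          Nat.mul_le_mul_left _ (Nat.pow_le_pow_left h2 e)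
      _ = c₁ * (g k + f (kH k) + 1) ^ e * (n + 1) ^ (d * e * A k) := by
          rw [mul_pow, ← pow_mul, ← mul_assoc, mul_right_comm d]

end Pool.Agent.P.MP_8c536d_lc
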