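import Pool.Agent.P.MP_8c536d_lc.SpCore

/-!
If most pairs of local views are almost consistent, there is a global large clique.
-/

namespace Pool.Agent.P.MP_8c536d_lc

open Finset
open scoped Classical

/-- consistency of two views outside exceptional sets of indices -/
def ConsE (adj : ℕ → ℕ → Prop) (K k : ℕ) (inc : ℕ → ℕ → Prop) (π π' : ℕ) (f f' : ℕ → ℕ)
    (E E' : Finset ℕ) : Prop :=
  ∀ i < K, ∀ i' < K, inc π i → inc π' i' → i ∉ E → i' ∉ E' →
    (i = i' → f i = f' i') ∧ (i ≠ i' → i < k → i' < k → adj (f i) (f' i'))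

theorem agree_arith {K r N u μ β X S SB SA : ℕ} (hr : 0 < r) (hK : r ≤ K)
    (hN : K * K * u = r * r * N) (h5 : N < 8 * μ) (h6 : 4096 * β ≤ K * K) (h7 : 256 * X ≤ u)
    (h1 : r * S ≤ K * K * (2 * X) + β * u) (h2 : μ * (r * r) ≤ SB + 2 * (r * S))
    (h3 : SB ≤ K * K * (2 * X) + SA)
    (h4 : 2 * SA ≤ r * (μ * r) + K * (2 * r * X) + 64 * u * β) : False := by
  have a1 := Nat.mul_le_mul_left (K * K) h7
  have a2 := Nat.mul_le_mul_right u h6
  have a3 := Nat.mul_lt_mul_of_pos_left h5 (Nat.mul_pos hr hr)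
  have a4 : K * (2 * r * X) ≤ K * K * (2 * X) := by
    have := Nat.mul_le_mul_left (K * (2 * X)) hK
    linarith
  have e1 : K * K * (256 * X) = 128 * (K * K * (2 * X)) := by ring
  have e2 : 4096 * β * u = 4096 * (β * u) := by ring
  have e3 : r * r * (8 * μ) = 8 * (μ * (r * r)) := by ring
  have e4 : r * (μ * r) = μ * (r * r) := by ring
  have e5 : 64 * u * β = 64 * (β * u) := by ring
  omega

theorem Smp.agree {N K r p u : ℕ} {inc : ℕ → ℕ → Prop} (h : Smp N K r p u inc)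
    {adj : ℕ → ℕ → Prop} {k : ℕ} (hk : k ≤ N) (hk' : N ≤ 2 * k)
    (τ : ℕ → ℕ → ℕ) (Bad : Finset (ℕ × ℕ)) (hBad : 4096 * Bad.card ≤ K * K)
    (hG : ∀ z ∈ range K ×ˢ range K, z ∉ Bad → ∃ E E' : Finset ℕ, E.card ≤ u / 256 ∧
      E'.card ≤ u / 256 ∧ ConsE adj N k inc z.1 z.2 (τ z.1) (τ z.2) E E') :
    ∃ c : ℕ → ℕ, ∃ S ⊆ range k, k ≤ 2 * S.card ∧
      ∀ i ∈ S, ∀ j ∈ S, i ≠ j → adj (τ (c i) i) (τ (c j) j) := by
  set R := range K with hR
  set Δ := u / 256 with hΔ
  have cP : (R ×ˢ R).card = K * K := by rw [card_product, hR, card_range]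
  have cB : ∑ z ∈ R ×ˢ R, ind (z ∈ Bad) ≤ Bad.card := by
    rw [sum_ind]
    exact card_le_card fun z hz => (mem_filter.1 hz).2
  have hD : ∀ z ∈ R ×ˢ R, ∑ i ∈ range N,
      ind (inc z.1 i) * ind (inc z.2 i ∧ τ z.1 i ≠ τ z.2 i) ≤ 2 * Δ + ind (z ∈ Bad) * u := by
    intro z hz
    simp only [ind_mul]
    by_cases hb : z ∈ Bad
    · rw [show ind (z ∈ Bad) = 1 from if_pos hb, one_mul]
      by_cases he : z.1 = z.2
      · refine le_trans (le_of_eq (sum_eq_zero fun i _ => ?_)) (Nat.zero_le _)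
        exact if_neg fun g => g.2.2 (by rw [he])
      · have h1 := h.inter _ (mem_range.1 (mem_product.1 hz).1) _
          (mem_range.1 (mem_product.1 hz).2) he
        exact (sum_le_sum fun i _ => ind_mono fun g => ⟨g.1, g.2.1⟩).trans
          (h1.trans (Nat.le_add_left _ _))
    · obtain ⟨E, E', h1, h2, h3⟩ := hG z hz hb
      rw [sum_ind]
      refine le_trans (card_le_card (t := E ∪ E') fun i hi => ?_)
        ((card_union_le _ _).trans (by omega))
      obtain ⟨g1, g2, g3, g4⟩ := mem_filter.1 hi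
      by_contra hn
      rw [mem_union, not_or] at hn
      exact g4 ((h3 i (mem_range.1 g1) i (mem_range.1 g1) g2 g3 hn.1 hn.2).1 rfl)
  have hp : ∀ i, i ∈ range N → ∃ c, r * ∑ π' ∈ R, ind (inc π' i ∧ τ c i ≠ τ π' i) ≤
      ∑ z ∈ R ×ˢ R, ind (inc z.1 i) * ind (inc z.2 i ∧ τ z.1 i ≠ τ z.2 i) := by
    intro i hi
    have h1 := h.deg i (mem_range.1 hi)
    obtain ⟨c, -, h2⟩ := exists_min_image (R.filter fun π => inc π i)
      (fun π => ∑ π' ∈ R, ind (inc π' i ∧ τ π i ≠ τ π' i)) (by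
        rw [← card_pos, ← sum_ind, h1]
        exact h.hr)
    refine ⟨c, ?_⟩
    rw [← h1, sum_mul, sum_product]
    refine sum_le_sum fun π hπ => ?_
    dsimp only
    rw [← mul_sum]
    by_cases hc : inc π i
    · exact Nat.mul_le_mul_left _ (h2 π (mem_filter.2 ⟨hπ, hc⟩))
    · simp [ind, hc]
  choose! c hp using hp
  set err : ℕ → ℕ := fun i => ∑ π' ∈ R, ind (inc π' i ∧ τ (c i) i ≠ τ π' i) with herr
  have h1 : r * ∑ i ∈ range N, err i ≤ K * K * (2 * Δ) + Bad.card * u := by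
    rw [mul_sum]
    refine (sum_le_sum hp).trans ?_
    rw [sum_comm]
    refine (sum_le_sum hD).trans ?_
    rw [sum_add_distrib, sum_const, cP, smul_eq_mul, ← sum_mul]
    exact Nat.add_le_add_left (Nat.mul_le_mul_right _ cB) _
  rcases exists_matching k (fun i j => i ≠ j ∧ ¬ adj (τ (c i) i) (τ (c j) j)) with
    ⟨S, g1, g2, g3⟩ | ⟨M, g1, g2, g3, g4, g5⟩
  · exact ⟨c, S, g1, g2, fun i hi j hj hij => by_contra fun hn => g3 i hi j hj ⟨hij, hn⟩⟩
  exfalso
  have hM : ∀ e ∈ M, e.1 < k ∧ e.2 < k := fun e he => by simpa using g1 he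
  have hM' : ∀ e ∈ M, e.1 < N ∧ e.2 < N := fun e he => by
    have := hM e he
    omega
  set ok : ℕ → ℕ → ℕ := fun π i => ind (inc π i ∧ τ (c i) i = τ π i) with hok
  have hs : ∀ i < N, ∑ π ∈ R, ok π i + err i = r := fun i hi => by
    rw [← h.deg i hi, herr, ← sum_add_distrib]
    refine sum_congr rfl fun π _ => ?_
    by_cases a : inc π i <;> by_cases b : τ (c i) i = τ π i <;> simp [hok, ind, a, b]
  have hinj : ∀ (F : ℕ → ℕ) (f : ℕ × ℕ → ℕ), Set.InjOn f (M : Set (ℕ × ℕ)) →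
      (∀ e ∈ M, f e < N) → ∑ e ∈ M, F (f e) ≤ ∑ i ∈ range N, F i := fun F f a b => by
    rw [← sum_image a]
    exact sum_le_sum_of_subset fun i hi => by
      obtain ⟨e, he, rfl⟩ := mem_image.1 hi
      exact mem_range.2 (b e he)
  have h2 : M.card * (r * r) ≤ ∑ z ∈ R ×ˢ R, ∑ e ∈ M, ok z.1 e.1 * ok z.2 e.2 +
      2 * (r * ∑ i ∈ range N, err i) := by
    have a1 := Nat.mul_le_mul_left r (hinj err _ g4 fun e he => (hM' e he).1)
    have a2 := Nat.mul_le_mul_left r (hinj err _ g5 fun e he => (hM' e he).2)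
    have a3 : M.card * (r * r) ≤ ∑ e ∈ M, (∑ z ∈ R ×ˢ R, ok z.1 e.1 * ok z.2 e.2 +
        r * err e.1 + r * err e.2) := by
      refine card_nsmul_le_sum _ _ _ fun e he => ?_
      rw [sum_product, ← sum_mul_sum (f := fun π => ok π e.1) (g := fun π => ok π e.2)]
      have b1 := hs _ (hM' e he).1
      have b2 := hs _ (hM' e he).2
      nlinarith
    rw [sum_add_distrib, sum_add_distrib, ← mul_sum, ← mul_sum, sum_comm] at a3
    omega
  set A : ℕ × ℕ → ℕ := fun z => ∑ e ∈ M, ind (inc z.1 e.1) * ind (inc z.2 e.2) with hA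
  have h3 : ∑ z ∈ R ×ˢ R, ∑ e ∈ M, ok z.1 e.1 * ok z.2 e.2 ≤
      K * K * (2 * Δ) + ∑ z ∈ R ×ˢ R, ind (z ∈ Bad) * A z := by
    rw [← cP, ← smul_eq_mul, ← sum_const, ← sum_add_distrib]
    refine sum_le_sum fun z hz => ?_
    by_cases hb : z ∈ Bad
    · rw [ind, if_pos hb, one_mul]
      exact le_trans (sum_le_sum fun e _ => Nat.mul_le_mul (ind_mono And.left)
        (ind_mono And.left)) (Nat.le_add_left _ _)
    · obtain ⟨E, E', a1, a2, a3⟩ := hG z hz hb
      simp only [hok, ind_mul]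
      rw [sum_ind]
      refine le_trans (card_le_card
        (t := (M.filter fun e => e.1 ∈ E) ∪ M.filter fun e => e.2 ∈ E') fun e he => ?_)
        ((card_union_le _ _).trans ?_)
      · obtain ⟨b1, ⟨b2, b3⟩, b4, b5⟩ := mem_filter.1 he
        by_contra hn
        simp only [mem_union, mem_filter, b1, true_and, not_or] at hn
        refine (g3 e b1).2 ?_
        rw [b3, b5]
        exact (a3 _ (hM' e b1).1 _ (hM' e b1).2 b2 b4 hn.1 hn.2).2 (g3 e b1).1 (hM e b1).1
          (hM e b1).2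
      · have c1 := card_le_card_of_injOn (s := M.filter fun e => e.1 ∈ E) (t := E) Prod.fst
          (fun e he => (mem_filter.1 (mem_coe.1 he)).2) (g4.mono (coe_subset.2 (filter_subset _ _)))
        have c2 := card_le_card_of_injOn (s := M.filter fun e => e.2 ∈ E') (t := E') Prod.snd
          (fun e he => (mem_filter.1 (mem_coe.1 he)).2) (g5.mono (coe_subset.2 (filter_subset _ _)))
        omega
  have hrow : ∀ π ∈ R, 2 * ∑ π' ∈ R, ind ((π, π') ∈ Bad) * A (π, π') ≤
      r * ∑ e ∈ M, ind (inc π e.1) + 2 * r * Δ + 64 * u * ∑ π' ∈ R, ind ((π, π') ∈ Bad) := by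
    intro π hπ
    set B := R.filter fun π' => (π, π') ∈ Bad with hB
    have e1 : ∑ π' ∈ R, ind ((π, π') ∈ Bad) * A (π, π') =
        ∑ e ∈ M, ind (inc π e.1) * ∑ π' ∈ B, ind (inc π' e.2) := by
      simp only [hA, hB, mul_sum, sum_filter]
      rw [sum_comm]
      refine sum_congr rfl fun e _ => sum_congr rfl fun π' _ => ?_
      by_cases g : (π, π') ∈ Bad <;> simp [ind, g]
    have e2 : ∀ e ∈ M, ∑ π' ∈ B, ind (inc π' e.2) ≤ r := fun e he =>
      (sum_le_sum_of_subset (filter_subset _ _)).trans (h.deg _ (hM' e he).2).le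
    rw [e1, sum_ind R, ← hB]
    by_cases hb : 32 * B.card ≤ K
    · have a1 := h.samp B (filter_subset _ _) hb
      have a2 := hinj (fun i => ind (r ≤ 2 * ∑ π' ∈ B, ind (inc π' i))) _ g5
        fun e he => (hM' e he).2
      rw [sum_ind (range N)] at a2
      refine le_trans ?_ (Nat.le_add_right _ _)
      refine le_trans ?_ (Nat.add_le_add_left (Nat.mul_le_mul_left (2 * r)
        (a2.trans (show _ ≤ Δ by omega))) _)
      rw [mul_sum, mul_sum, mul_sum, ← sum_add_distrib]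
      refine sum_le_sum fun e he => ?_
      have a3 := e2 e he
      generalize ∑ π' ∈ B, ind (inc π' e.2) = d at a3 ⊢
      unfold ind
      split_ifs <;> omega
    · have a1 := (hinj (fun i => ind (inc π i)) _ g4 fun e he => (hM' e he).1).trans
        (h.size π (mem_range.1 hπ))
      have a2 : ∑ e ∈ M, ind (inc π e.1) * ∑ π' ∈ B, ind (inc π' e.2) ≤ p * u * r :=
        (sum_le_sum fun e he => Nat.mul_le_mul_left _ (e2 e he)).trans (by
          rw [← sum_mul]
          exact Nat.mul_le_mul_right _ a1)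
      have a3 := Nat.mul_le_mul_left u (not_le.1 hb).le
      have a4 : u * K = p * u * r := by rw [h.hK]; ring
      have a5 : 64 * u * B.card = 2 * (u * (32 * B.card)) := by ring
      omega
  have h4 : 2 * ∑ z ∈ R ×ˢ R, ind (z ∈ Bad) * A z ≤
      r * (M.card * r) + K * (2 * r * Δ) + 64 * u * Bad.card := by
    rw [sum_product, mul_sum]
    refine (sum_le_sum hrow).trans ?_
    have b1 : ∑ π ∈ R, ∑ e ∈ M, ind (inc π e.1) = M.card * r := by
      rw [sum_comm, sum_congr rfl fun e he => h.deg _ (hM' e he).1, sum_const, smul_eq_mul]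
    rw [sum_product] at cB
    rw [sum_add_distrib, sum_add_distrib, sum_const, ← mul_sum R _ r, ← mul_sum R _ (64 * u), b1,
      smul_eq_mul, hR, card_range]
    exact Nat.add_le_add_left (Nat.mul_le_mul_left _ cB) _
  exact agree_arith h.hr (h.hK ▸ Nat.le_mul_of_pos_left r h.hp) (by rw [h.hK, h.hN]; ring)
    (show N < 8 * M.card by omega) hBad (by omega) h1 h2 h3 h4

end Pool.Agent.P.MP_8c536d_lc
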