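import Mathlib

/-!
Greedy covering, matchings, and incidence structures with a sampling property.
-/

namespace Pool.Agent.P.MP_8c536d_lc

open Finset
open scoped Classical

theorem greedy_step {α β : Type} (P : Finset β) (hP : P.Nonempty) (kill : β → α → Prop) (H : ℕ)
    (X : Finset α) (h : ∀ x ∈ X, P.card ≤ H * (P.filter fun ρ => kill ρ x).card) :
    ∃ ρ ∈ P, H * (X.filter fun x => ¬ kill ρ x).card ≤ (H - 1) * X.card := by
  have h1 : ∑ _ρ ∈ P, X.card ≤ ∑ ρ ∈ P, H * (X.filter fun x => kill ρ x).card := by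
    have e : ∑ ρ ∈ P, (X.filter fun x => kill ρ x).card =
        ∑ x ∈ X, (P.filter fun ρ => kill ρ x).card :=
      sum_card_bipartiteAbove_eq_sum_card_bipartiteBelow kill
    rw [← mul_sum, e, mul_sum, sum_const, smul_eq_mul, mul_comm, ← smul_eq_mul, ← sum_const]
    exact sum_le_sum h
  obtain ⟨ρ, hρ, h2⟩ := exists_le_of_sum_le hP h1
  refine ⟨ρ, hρ, ?_⟩
  have h3 := card_filter_add_card_filter_not (s := X) (fun x => kill ρ x)
  rcases H with _ | g
  · simp
  · rw [Nat.add_sub_cancel]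
    nlinarith

theorem greedy_pow {α β : Type} (P : Finset β) (hP : P.Nonempty) (kill : β → α → Prop) (H : ℕ)
    (X : Finset α) (h : ∀ x ∈ X, P.card ≤ H * (P.filter fun ρ => kill ρ x).card) (m : ℕ) :
    ∃ ρ : ℕ → β, (∀ l, ρ l ∈ P) ∧
      H ^ m * (X.filter fun x => ∀ l < m, ¬ kill (ρ l) x).card ≤ (H - 1) ^ m * X.card := by
  induction m with
  | zero =>
    obtain ⟨p, hp⟩ := hP
    exact ⟨fun _ => p, fun _ => hp, by simp⟩
  | succ m ih =>
    obtain ⟨ρ, h1, h2⟩ := ih
    obtain ⟨p, hp, h3⟩ := greedy_step P hP kill H (X.filter fun x => ∀ l < m, ¬ kill (ρ l) x)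
      (fun x hx => h x (mem_filter.1 hx).1)
    refine ⟨fun l => if l < m then ρ l else p, fun l => ?_, ?_⟩
    · beta_reduce
      split_ifs
      exacts [h1 l, hp]
    have h4 : (X.filter fun x => ∀ l < m + 1, ¬ kill (if l < m then ρ l else p) x) ⊆
        (X.filter fun x => ∀ l < m, ¬ kill (ρ l) x).filter fun x => ¬ kill p x := by
      intro x hx
      obtain ⟨h5, h6⟩ := mem_filter.1 hx
      refine mem_filter.2 ⟨mem_filter.2 ⟨h5, fun l hl => ?_⟩, ?_⟩
      · simpa [hl] using h6 l (by omega)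
      · simpa using h6 m (by omega)
    calc _ ≤ H ^ m * (H * _) := by
          rw [pow_succ, mul_assoc]
          exact Nat.mul_le_mul_left _ (Nat.mul_le_mul_left _ (card_le_card h4))
      _ ≤ H ^ m * ((H - 1) * _) := Nat.mul_le_mul_left _ h3
      _ = (H - 1) * (H ^ m * _) := by ring
      _ ≤ (H - 1) * ((H - 1) ^ m * X.card) := Nat.mul_le_mul_left _ h2
      _ = _ := by ring

theorem two_mul_pow_le (h : ℕ) : 2 * h ^ (h + 1) ≤ (h + 1) ^ (h + 1) := by
  have key : ∀ m : ℕ, h ^ (m + 1) + (m + 1) * h ^ m ≤ (h + 1) ^ (m + 1) := by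
    intro m
    induction m with
    | zero => simp
    | succ m ih =>
      calc h ^ (m + 1 + 1) + (m + 1 + 1) * h ^ (m + 1)
          ≤ (h ^ (m + 1) + (m + 1) * h ^ m) * (h + 1) := by
            have : (h ^ (m + 1) + (m + 1) * h ^ m) * (h + 1) =
              h ^ (m + 1 + 1) + (m + 1 + 1) * h ^ (m + 1) + (m + 1) * h ^ m := by ring
            omega
        _ ≤ _ := by
            rw [pow_succ (h + 1) (m + 1)]
            exact Nat.mul_le_mul_right _ ih
  have h1 := key h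
  have h2 : (h + 1) * h ^ h = h ^ (h + 1) + h ^ h := by ring
  omega

theorem greedy {α β : Type} (P : Finset β) (hP : P.Nonempty) (kill : β → α → Prop) {H : ℕ}
    (hH : 0 < H) (X : Finset α) (h : ∀ x ∈ X, P.card ≤ H * (P.filter fun ρ => kill ρ x).card)
    (j : ℕ) : ∃ ρ : ℕ → β, (∀ l, ρ l ∈ P) ∧
      2 ^ j * (X.filter fun x => ∀ l < H * j, ¬ kill (ρ l) x).card ≤ X.card := by
  obtain ⟨ρ, h1, h2⟩ := greedy_pow P hP kill H X h (H * j)
  refine ⟨ρ, h1, Nat.le_of_mul_le_mul_left (c := H ^ (H * j)) ?_ (by positivity)⟩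
  obtain ⟨g, rfl⟩ : ∃ g, H = g + 1 := ⟨H - 1, by omega⟩
  have h3 := Nat.pow_le_pow_left (two_mul_pow_le g) j
  rw [mul_pow, ← pow_mul, ← pow_mul] at h3
  rw [Nat.add_sub_cancel] at h2
  calc _ = 2 ^ j * ((g + 1) ^ ((g + 1) * j) * _) := by ring
    _ ≤ 2 ^ j * (g ^ ((g + 1) * j) * X.card) := Nat.mul_le_mul_left _ h2
    _ = 2 ^ j * g ^ ((g + 1) * j) * X.card := by ring
    _ ≤ _ := Nat.mul_le_mul_right _ h3

/-- a large set without bad pairs, or a large matching of bad pairs -/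
theorem exists_matching (k : ℕ) (bad : ℕ → ℕ → Prop) :
    (∃ S ⊆ range k, k ≤ 2 * S.card ∧ ∀ i ∈ S, ∀ j ∈ S, ¬ bad i j) ∨
      ∃ M ⊆ range k ×ˢ range k, k < 4 * M.card ∧ (∀ e ∈ M, bad e.1 e.2) ∧
        Set.InjOn Prod.fst (M : Set (ℕ × ℕ)) ∧ Set.InjOn Prod.snd (M : Set (ℕ × ℕ)) := by
  obtain ⟨M, hM, hmax⟩ := exists_max_image ((range k ×ˢ range k).powerset.filter fun M : Finset (ℕ × ℕ) =>
    (∀ e ∈ M, bad e.1 e.2) ∧ Set.InjOn Prod.fst (M : Set (ℕ × ℕ)) ∧
      Set.InjOn Prod.snd (M : Set (ℕ × ℕ))) card ⟨∅, by simp⟩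
  obtain ⟨h1, h2, h3, h4⟩ := mem_filter.1 hM
  rw [mem_powerset] at h1
  by_cases hk : k < 4 * M.card
  · exact Or.inr ⟨M, h1, hk, h2, h3, h4⟩
  refine Or.inl ⟨range k \ (M.image Prod.fst ∪ M.image Prod.snd), sdiff_subset, ?_,
    fun i hi j hj hb => ?_⟩
  · have a1 := le_card_sdiff (M.image Prod.fst ∪ M.image Prod.snd) (range k)
    have a2 := card_union_le (M.image Prod.fst) (M.image Prod.snd)
    have a3 := card_image_le (s := M) (f := Prod.fst)
    have a4 := card_image_le (s := M) (f := Prod.snd)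
    rw [card_range] at a1
    omega
  · simp only [mem_sdiff, mem_union, mem_image, not_or, not_exists, not_and] at hi hj
    have hn : (i, j) ∉ M := fun h => hi.2.1 _ h rfl
    have := hmax (insert (i, j) M) (mem_filter.2 ⟨mem_powerset.2
      (insert_subset (mem_product.2 ⟨hi.1, hj.1⟩) h1), ?_, ?_, ?_⟩)
    · rw [card_insert_of_notMem hn] at this
      omega
    · intro e he
      rcases mem_insert.1 he with rfl | he
      exacts [hb, h2 e he]
    · rw [coe_insert, Set.injOn_insert (by simpa using hn)]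
      exact ⟨h3, fun ⟨e, he, h⟩ => hi.2.1 e he h⟩
    · rw [coe_insert, Set.injOn_insert (by simpa using hn)]
      exact ⟨h4, fun ⟨e, he, h⟩ => hj.2.2 e he h⟩

/-- indicator -/
noncomputable def ind (p : Prop) : ℕ := if p then 1 else 0

theorem ind_mul (p r : Prop) : ind p * ind r = ind (p ∧ r) := by
  unfold ind
  by_cases hp : p <;> by_cases hr : r <;> simp [hp, hr]

theorem sum_ind {α : Type} (s : Finset α) (p : α → Prop) [DecidablePred p] :
    ∑ a ∈ s, ind (p a) = (s.filter p).card := by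
  rw [card_filter]
  exact sum_congr rfl fun a _ => by unfold ind; congr

theorem ind_le_one (p : Prop) : ind p ≤ 1 := by
  unfold ind
  split_ifs <;> simp

theorem ind_mono {p r : Prop} (h : p → r) : ind p ≤ ind r := by
  unfold ind
  by_cases hp : p <;> simp [hp, h]

/-- the incidence structure: `K` positions, `N` indices -/
structure Smp (N K r p u : ℕ) (inc : ℕ → ℕ → Prop) : Prop where
  hN : N = p ^ 2 * u
  hK : K = p * r
  hr : 0 < r
  hp : 0 < p
  deg : ∀ i < N, ∑ π ∈ range K, ind (inc π i) = r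
  size : ∀ π < K, ∑ i ∈ range N, ind (inc π i) ≤ p * u
  inter : ∀ π < K, ∀ π' < K, π ≠ π' → ∑ i ∈ range N, ind (inc π i ∧ inc π' i) ≤ u
  samp : ∀ B ⊆ range K, 32 * B.card ≤ K →
    256 * ((range N).filter fun i => r ≤ 2 * ∑ π ∈ B, ind (inc π i)).card ≤ u

theorem Smp.hit {N K r p u : ℕ} {inc : ℕ → ℕ → Prop} (h : Smp N K r p u inc) (D : Finset ℕ)
    (hD : D ⊆ range N) (hc : u < 256 * D.card) :
    K ≤ 32 * ((range K).filter fun ρ => ∃ i ∈ D, inc ρ i).card := by
  by_contra hn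
  have h1 := h.samp _ (filter_subset (fun ρ => ∃ i ∈ D, inc ρ i) _) (by omega)
  refine absurd ((Nat.mul_le_mul_left 256 (card_le_card fun i hi => ?_)).trans h1) (not_le.2 hc)
  refine mem_filter.2 ⟨hD hi, ?_⟩
  have e : ∑ π ∈ (range K).filter fun ρ => ∃ i ∈ D, inc ρ i, ind (inc π i) =
      ∑ π ∈ range K, ind (inc π i) :=
    sum_subset (filter_subset _ _) fun ρ hρ g => if_neg fun g' => g (mem_filter.2 ⟨hρ, i, hi, g'⟩)
  rw [e, h.deg i (mem_range.1 (hD hi))]
  omega

end Pool.Agent.P.MP_8c536d_lc
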