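import Pool.Agent.P.MP_8c536d_lc.RtDefs

namespace Pool.Agent.P.MP_8c536d_lc

/-- Correct outputs for the gap problem: a clique of size `k` against no clique of size `k / 2`. -/
def GapCliqueAnswer (n : ℕ) (G : SimpleGraph (Fin n)) (k : ℕ) (out : List Bool) : Prop :=
  (out = [true] ∧ ∃ S : Finset (Fin n), G.IsClique S ∧ k ≤ 2 * S.card) ∨
    (out = [false] ∧ ¬ ∃ S : Finset (Fin n), G.IsNClique k S)

end Pool.Agent.P.MP_8c536d_lc
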