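import Pool.Agent.P.MP_8c536d_lc.SpAgree

/-!
Soundness of the list constraint system whose variables are local views.
-/

namespace Pool.Agent.P.MP_8c536d_lc

open Finset
open scoped Classical

/-- the number of positions that fix a fingerprint -/
def sS (b : ℕ) : ℕ := 32768 * (2 * (b + 30))

/-- the number of test pairs -/
def uS (b : ℕ) : ℕ := 32768 * ((b + 30) * sS b + 1)

/-- the arity of the constraints -/
def tS (b : ℕ) : ℕ := sS b + 2 * uS b

theorem greedy' {α β : Type} (P : Finset β) (hP : P.Nonempty) (kill : β → α → Prop)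
    [∀ x, DecidablePred fun ρ => kill ρ x] (X : Finset α)
    (h : ∀ x ∈ X, P.card ≤ 32768 * (P.filter fun ρ => kill ρ x).card) (j : ℕ) :
    ∃ ρ : ℕ → β, (∀ l, ρ l ∈ P) ∧ ∃ Y : Finset α, 2 ^ j * Y.card ≤ X.card ∧
      ∀ x ∈ X, (∀ l < 32768 * j, ¬ kill (ρ l) x) → x ∈ Y := by
  obtain ⟨ρ, h1, h2⟩ := greedy P hP kill (H := 32768) (by norm_num) X
    (fun x hx => by convert h x hx) j
  exact ⟨ρ, h1, _, h2, fun x a1 a2 => by simpa using ⟨a1, a2⟩⟩

theorem Smp.sound {N K r p v : ℕ} {inc : ℕ → ℕ → Prop} (h : Smp N K r p v inc)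
    {adj : ℕ → ℕ → Prop} {k b s u t : ℕ}
    (hs : s = 32768 * (2 * (b + 30))) (hu : u = 32768 * ((b + 30) * s + 1)) (ht : t = s + 2 * u)
    (hk : k ≤ N) (hk' : N ≤ 2 * k) (val : ℕ → ℕ → ℕ → ℕ)
    (Del : Finset (ℕ × ℕ)) (hDel : Del.card ≤ 2 ^ b * K)
    (hc : ∀ ρ : ℕ → ℕ, (∀ l, ρ l < K) → ∃ σ : ℕ → ℕ, (∀ l < t, (ρ l, σ l) ∈ Del) ∧
      ∀ l < t, ∀ l' < t,
        ConsE adj N k inc (ρ l) (ρ l') (val (ρ l) (σ l)) (val (ρ l') (σ l')) ∅ ∅) :
    ∃ g : ℕ → ℕ, ∃ c : ℕ → ℕ, ∃ S ⊆ range k, k ≤ 2 * S.card ∧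
      ∀ i ∈ S, ∀ j ∈ S, i ≠ j → adj (val (c i) (g i) i) (val (c j) (g j) j) := by
  have hK0 : 0 < K := h.hK ▸ Nat.mul_pos h.hp h.hr
  set L : ℕ → Finset ℕ := fun π => (Del.filter fun p => p.1 = π).image Prod.snd with hL
  have hmem : ∀ π σ, (π, σ) ∈ Del → σ ∈ L π := fun π σ g =>
    mem_image.2 ⟨(π, σ), mem_filter.2 ⟨g, rfl⟩, rfl⟩
  set Lt := (range K).filter fun π => (L π).card ≤ 2 ^ (b + 22) with hLt
  have cHv : 32768 * (range K \ Lt).card ≤ K := by
    have h1 : (range K \ Lt).card * 2 ^ (b + 22) ≤ Del.card := by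
      calc _ ≤ ∑ π ∈ range K \ Lt, (Del.filter fun p => p.1 = π).card := by
            rw [← smul_eq_mul]
            refine card_nsmul_le_sum _ _ _ fun π hπ => ?_
            obtain ⟨a1, a2⟩ := mem_sdiff.1 hπ
            have a3 : ¬ (L π).card ≤ 2 ^ (b + 22) := fun g => a2 (mem_filter.2 ⟨a1, g⟩)
            exact (not_le.1 a3).le.trans card_image_le
        _ = (Del.filter fun p => p.1 ∈ range K \ Lt).card :=
            sum_card_fiberwise_eq_card_filter _ _ _
        _ ≤ _ := card_filter_le _ _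
    refine Nat.le_of_mul_le_mul_left (c := 2 ^ b * 128) ?_ (by positivity)
    calc _ = (range K \ Lt).card * 2 ^ (b + 22) := by ring
      _ ≤ 2 ^ b * K := h1.trans hDel
      _ ≤ _ := Nat.mul_le_mul_right _ (Nat.le_mul_of_pos_right _ (by omega))
  have cLt : Lt.card ≤ K := (card_filter_le _ _).trans (card_range K).le
  have hLt0 : Lt.Nonempty := by
    have := le_card_sdiff Lt (range K)
    rw [card_range] at this
    exact card_pos.1 (by omega)
  set Df : ℕ → ℕ → ℕ → Finset ℕ := fun π σ σ' =>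
    (range N).filter fun i => inc π i ∧ val π σ i ≠ val π σ' i with hDf
  set Far : Finset (ℕ × ℕ × ℕ) := (Lt.biUnion fun π => {π} ×ˢ L π ×ˢ L π).filter fun x =>
    v / 256 < (Df x.1 x.2.1 x.2.2).card with hFar
  have cFar : Far.card ≤ K * 2 ^ (2 * b + 44) := by
    refine (card_filter_le _ _).trans ((card_biUnion_le_card_mul _ _ (2 ^ (2 * b + 44))
      fun π hπ => ?_).trans (Nat.mul_le_mul_right _ cLt))
    rw [card_product, card_product, card_singleton, one_mul]
    have := (mem_filter.1 hπ).2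
    exact (Nat.mul_le_mul this this).trans (le_of_eq (by ring))
  obtain ⟨ρ, hρ, Sv, h1, hSv'⟩ := greedy' Lt hLt0
    (fun ρ (x : ℕ × ℕ × ℕ) => ∃ i ∈ Df x.1 x.2.1 x.2.2, inc ρ i) Far (fun x hx => by
      have a1 := h.hit (Df x.1 x.2.1 x.2.2) (filter_subset _ _) (by
        have := (mem_filter.1 hx).2
        omega)
      have a2 : ((range K).filter fun ρ => ∃ i ∈ Df x.1 x.2.1 x.2.2, inc ρ i).card ≤
          (Lt.filter fun ρ => ∃ i ∈ Df x.1 x.2.1 x.2.2, inc ρ i).card + (range K \ Lt).card := by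
        refine le_trans (card_le_card fun ρ hρ => ?_) (card_union_le _ _)
        by_cases g : ρ ∈ Lt
        · exact mem_union_left _ (mem_filter.2 ⟨g, (mem_filter.1 hρ).2⟩)
        · exact mem_union_right _ (mem_sdiff.2 ⟨(mem_filter.1 hρ).1, g⟩)
      omega) (2 * (b + 30))
  rw [← hs] at hSv'
  have cSv : 65536 * Sv.card ≤ K := by
    refine Nat.le_of_mul_le_mul_left (c := 2 ^ (2 * b + 44)) ?_ (by positivity)
    calc _ = 2 ^ (2 * (b + 30)) * Sv.card := by ring
      _ ≤ K * 2 ^ (2 * b + 44) := h1.trans cFar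
      _ = _ := by ring
  set Out := (range K \ Lt) ∪ Sv.image Prod.fst with hOut
  have cOut : 65536 * Out.card ≤ 3 * K := by
    have a1 := card_union_le (range K \ Lt) (Sv.image Prod.fst)
    have a2 := card_image_le (s := Sv) (f := Prod.fst)
    rw [hOut]
    omega
  set Ag : (Fin (s) → ℕ) → ℕ → ℕ → Prop := fun φ π σ =>
    σ ∈ L π ∧ ∀ l : Fin (s), ∀ i < N, inc (ρ l) i → inc π i →
      val (ρ l) (φ l) i = val π σ i with hAg
  set kill : ℕ × ℕ → (Fin (s) → ℕ) → Prop := fun z φ => ¬ ∃ σ σ', Ag φ z.1 σ ∧ Ag φ z.2 σ' ∧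
    ConsE adj N k inc z.1 z.2 (val z.1 σ) (val z.2 σ') ∅ ∅ with hkill
  set Φ := Fintype.piFinset fun l : Fin (s) => L (ρ l) with hΦ
  have cP : (range K ×ˢ range K).card = K * K := by rw [card_product, card_range]
  by_cases hall : ∀ φ ∈ Φ, (range K ×ˢ range K).card ≤
      32768 * ((range K ×ˢ range K).filter fun z => kill z φ).card
  · exfalso
    have cΦ : Φ.card ≤ 2 ^ ((b + 30) * s) := by
      rw [hΦ, Fintype.card_piFinset, pow_mul]
      refine (prod_le_pow_card _ _ (2 ^ (b + 30)) fun l _ => ?_).trans (by simp)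
      exact (mem_filter.1 (hρ l)).2.trans (Nat.pow_le_pow_right (by omega) (by omega))
    obtain ⟨z, hz, Sw, h2, hSw'⟩ := greedy' (range K ×ˢ range K)
      (card_pos.1 (by rw [cP]; positivity)) kill Φ hall ((b + 30) * s + 1)
    rw [← hu] at hSw'
    have h3 : Sw = ∅ := by
      rw [← card_eq_zero]
      by_contra hne
      have a1 := Nat.mul_le_mul_left (2 ^ ((b + 30) * s + 1)) (Nat.pos_of_ne_zero hne)
      have a2 : 0 < 2 ^ ((b + 30) * s) := by positivity
      rw [pow_succ] at a1 h2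
      omega
    obtain ⟨σ, a1, a2⟩ := hc (fun l => if l < s then ρ l else if l < s + u then
      (z (l - s)).1 else (z (l - (s + u))).2) (fun l => by
        split_ifs
        · exact mem_range.1 (mem_filter.1 (hρ l)).1
        · exact mem_range.1 (mem_product.1 (hz _)).1
        · exact mem_range.1 (mem_product.1 (hz _)).2)
    have key : ∀ l < t, ∀ π, (if l < s then ρ l else if l < s + u then
        (z (l - s)).1 else (z (l - (s + u))).2) = π → Ag (fun l => σ l) π (σ l) := by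
      intro l hl π e
      refine ⟨hmem _ _ (e ▸ a1 l hl), fun j i hi b1 b2 => ?_⟩
      have := a2 j (by omega) l hl
      rw [if_pos j.2, e] at this
      exact (this i hi i hi b1 b2 (by simp) (by simp)).1 rfl
    have hφ : (fun l : Fin (s) => σ l) ∈ Φ := by
      rw [hΦ, Fintype.mem_piFinset]
      intro l
      have := a1 l (by omega)
      rw [if_pos l.2] at this
      exact hmem _ _ this
    refine notMem_empty _ (h3 ▸ hSw' _ hφ
      fun m hm g => g ⟨σ (s + m), σ (s + u + m), ?_, ?_, ?_⟩)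
    · exact key _ (by omega) _
        (by rw [if_neg (by omega), if_pos (by omega), Nat.add_sub_cancel_left])
    · exact key _ (by omega) _
        (by rw [if_neg (by omega), if_neg (by omega), Nat.add_sub_cancel_left])
    · have := a2 (s + m) (by omega) (s + u + m) (by omega)
      rwa [if_neg (by omega), if_pos (by omega), Nat.add_sub_cancel_left, if_neg (by omega),
        if_neg (by omega), Nat.add_sub_cancel_left] at this
  push Not at hall
  obtain ⟨φ, -, hφ⟩ := hall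
  have hex : ∀ π, (∃ σ, Ag φ π σ) → ∃ σ, Ag φ π σ := fun _ g => g
  choose! c hcc using hex
  have hcl : ∀ π < K, π ∉ Out → ∀ σ, Ag φ π σ → (Df π σ (c π)).card ≤ v / 256 := by
    intro π a1 a2 σ a3
    by_contra hn
    have a4 := hcc π ⟨σ, a3⟩
    rw [hOut, mem_union, not_or] at a2
    have a5 : π ∈ Lt := by_contra fun g => a2.1 (mem_sdiff.2 ⟨mem_range.2 a1, g⟩)
    refine a2.2 (mem_image.2 ⟨(π, σ, c π), hSv' _ (mem_filter.2 ⟨mem_biUnion.2 ⟨π, a5, ?_⟩,
      not_le.1 hn⟩) ?_, rfl⟩)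
    · simp [a3.1, a4.1]
    · rintro l hl ⟨i, hi, b1⟩
      obtain ⟨b2, b3, b4⟩ := mem_filter.1 hi
      exact b4 ((a3.2 ⟨l, hl⟩ i (mem_range.1 b2) b1 b3).symm.trans
        (a4.2 ⟨l, hl⟩ i (mem_range.1 b2) b1 b3))
  obtain ⟨f, S, g1, g2, g3⟩ := h.agree (adj := adj) hk hk'
    (fun π => val π (c π)) (((range K ×ˢ range K).filter fun z => kill z φ) ∪
      (Out ×ˢ range K ∪ range K ×ˢ Out)) (by
      have a1 := card_union_le ((range K ×ˢ range K).filter fun z => kill z φ)
        (Out ×ˢ range K ∪ range K ×ˢ Out)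
      have a2 := card_union_le (Out ×ˢ range K) (range K ×ˢ Out)
      rw [card_product, card_product, card_range, mul_comm K] at a2
      have a3 := Nat.mul_le_mul_right K cOut
      rw [mul_assoc, mul_assoc] at a3
      omega) (fun z hz hn => by
      obtain ⟨z1, z2⟩ := mem_product.1 hz
      simp only [mem_union, not_or] at hn
      obtain ⟨σ, σ', a1, a2, a3⟩ := not_not.1 fun g => hn.1 (mem_filter.2 ⟨hz, g⟩)
      refine ⟨Df z.1 σ (c z.1), Df z.2 σ' (c z.2),
        hcl _ (mem_range.1 z1) (fun g => hn.2.1 (mem_product.2 ⟨g, z2⟩)) _ a1,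
        hcl _ (mem_range.1 z2) (fun g => hn.2.2 (mem_product.2 ⟨z1, g⟩)) _ a2,
        fun i hi i' hi' b1 b2 b3 b4 => ?_⟩
      have e1 : val z.1 σ i = val z.1 (c z.1) i :=
        by_contra fun g => b3 (mem_filter.2 ⟨mem_range.2 hi, b1, g⟩)
      have e2 : val z.2 σ' i' = val z.2 (c z.2) i' :=
        by_contra fun g => b4 (mem_filter.2 ⟨mem_range.2 hi', b2, g⟩)
      rw [← e1, ← e2]
      exact a3 i hi i' hi' b1 b2 (by simp) (by simp))
  exact ⟨fun i => c (f i), f, S, g1, g2, g3⟩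

end Pool.Agent.P.MP_8c536d_lc
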