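import Pool.Agent.P.MP_8c536d_lc.GapHash
import Pool.Agent.P.MP_8c536d_lc.SpSound

/-!
The cube: an index is a string of digits in base `p`, a position fixes one digit. The constraint
system of the views on the faces.
-/

namespace Pool.Agent.P.MP_8c536d_lc

open Finset
open scoped Classical

/-- incidence -/
def incC (p π i : ℕ) : Prop := dg p i (π / p) = π % p

/-- the coordinate of an index on a face -/
def coC (p π i : ℕ) : ℕ := i / p ^ (π / p + 1) * p ^ (π / p) + i % p ^ (π / p)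

theorem sum_blocks (p r : ℕ) (f : ℕ → ℕ) :
    ∑ π ∈ range (p * r), f π = ∑ j ∈ range r, ∑ a ∈ range p, f (p * j + a) := by
  induction r with
  | zero => simp
  | succ r ih => rw [mul_add, mul_one, sum_range_add, ih, sum_range_succ]

theorem sum_prod_dg {p : ℕ} (hp : 0 < p) (m r : ℕ) : ∀ f : ℕ → ℕ → ℕ,
    ∑ i ∈ range (p ^ r * m), ∏ j ∈ range r, f j (dg p i j) =
      m * ∏ j ∈ range r, ∑ a ∈ range p, f j a := by
  induction r with
  | zero => simp
  | succ r ih =>
    intro f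
    rw [pow_succ', mul_assoc, sum_blocks, prod_range_succ', ← mul_assoc, ← ih, sum_mul]
    refine sum_congr rfl fun y _ => ?_
    rw [mul_sum]
    refine sum_congr rfl fun a ha => ?_
    have h := mem_range.1 ha
    rw [prod_range_succ', dg_zero, Nat.mul_add_mod, Nat.mod_eq_of_lt h]
    simp only [dg_succ, Nat.mul_add_div hp, Nat.div_eq_of_lt h, add_zero]

theorem sum_incC {p : ℕ} (hp : 0 < p) (r i : ℕ) (g : ℕ → ℕ) :
    ∑ π ∈ range (p * r), g π * ind (incC p π i) = ∑ j ∈ range r, g (p * j + dg p i j) := by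
  rw [sum_blocks]
  refine sum_congr rfl fun j _ => ?_
  rw [sum_eq_single_of_mem (dg p i j) (mem_range.2 (dg_lt hp _ _)) fun a ha hne => ?_]
  · rw [ind, if_pos, mul_one]
    unfold incC
    rw [Nat.mul_add_div hp, Nat.mul_add_mod, Nat.div_eq_of_lt (dg_lt hp _ _),
      Nat.mod_eq_of_lt (dg_lt hp _ _), add_zero]
  · rw [ind, if_neg, mul_zero]
    unfold incC
    rw [Nat.mul_add_div hp, Nat.mul_add_mod, Nat.div_eq_of_lt (mem_range.1 ha),
      Nat.mod_eq_of_lt (mem_range.1 ha), add_zero]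
    exact hne.symm

theorem coC_lt {p r m π i : ℕ} (hp : 0 < p) (hπ : π < p * r) (hi : i < p ^ r * m) :
    coC p π i < p ^ (r - 1) * m := by
  unfold coC
  have hj : π / p < r := (Nat.div_lt_iff_lt_mul hp).2 (by rwa [mul_comm])
  generalize π / p = j at hj
  obtain ⟨d, rfl⟩ : ∃ d, r = j + 1 + d := ⟨r - (j + 1), by omega⟩
  have h1 : i / p ^ (j + 1) < p ^ d * m := by
    rw [Nat.div_lt_iff_lt_mul (pow_pos hp _)]
    exact hi.trans_eq (by ring)
  have h2 := Nat.mul_le_mul_right (p ^ j) h1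
  have h3 := Nat.mod_lt i (pow_pos hp j)
  have h4 : p ^ (j + 1 + d - 1) * m = p ^ d * m * p ^ j := by
    rw [show j + 1 + d - 1 = d + j by omega]
    ring
  rw [Nat.succ_mul] at h2
  omega

theorem coC_inj {p π i i' : ℕ} (hp : 0 < p) (h : incC p π i) (h' : incC p π i')
    (e : coC p π i = coC p π i') : i = i' := by
  unfold incC dg at h h'
  unfold coC at e
  generalize π / p = j at h h' e
  have h0 := congrArg (· % p ^ j) e
  simp only [Nat.mul_add_mod_self_right, Nat.mod_mod] at h0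
  rw [h0] at e
  have h1 := Nat.eq_of_mul_eq_mul_right (pow_pos hp j) (Nat.add_right_cancel e)
  rw [← Nat.div_add_mod i (p ^ (j + 1)), ← Nat.div_add_mod i' (p ^ (j + 1)), h1,
    Nat.mod_pow_succ, Nat.mod_pow_succ, h0, h, h']

theorem prod_le_two_pow {p r : ℕ} (hp : 0 < p) (b : ℕ → ℕ)
    (h : 32 * ∑ j ∈ range r, b j ≤ p * r) : ∏ j ∈ range r, (p + 15 * b j) ≤ 2 ^ r * p ^ r := by
  have hp' : (0 : ℝ) < p := Nat.cast_pos.2 hp
  have h1 : ∏ j ∈ range r, ((p : ℝ) + 15 * b j) ≤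
      ∏ j ∈ range r, (Real.exp (15 / p * b j) * p) := by
    refine prod_le_prod (fun j _ => by positivity) fun j _ => ?_
    refine le_trans (le_of_eq ?_) (mul_le_mul_of_nonneg_right (Real.add_one_le_exp _) hp'.le)
    field_simp
    ring
  rw [prod_mul_distrib, ← Real.exp_sum, ← mul_sum, prod_const, card_range] at h1
  have h2 : (32 : ℝ) * ∑ j ∈ range r, (b j : ℝ) ≤ p * r := by exact_mod_cast h
  have h3 : 15 / (p : ℝ) * ∑ j ∈ range r, (b j : ℝ) ≤ r * Real.log 2 := by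
    rw [div_mul_eq_mul_div, div_le_iff₀ hp']
    have := mul_le_mul_of_nonneg_left Real.log_two_gt_d9.le
      (show (0 : ℝ) ≤ p * r by positivity)
    have h4 : (0 : ℝ) ≤ p * r := by positivity
    nlinarith
  have h4 := h1.trans (mul_le_mul_of_nonneg_right (Real.exp_le_exp.2 h3) (by positivity))
  rw [Real.exp_nat_mul, Real.exp_log two_pos] at h4
  exact_mod_cast h4

theorem smp_incC {p r : ℕ} (m : ℕ) (hp : 0 < p) (hr : 2 ≤ r) (h : 256 * p ^ 2 ≤ 2 ^ r) :
    Smp (p ^ r * m) (p * r) r p (p ^ (r - 2) * m) (incC p) := by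
  have hN : p ^ r * m = p ^ 2 * (p ^ (r - 2) * m) := by
    rw [← mul_assoc, ← pow_add, Nat.add_sub_cancel' hr]
  refine ⟨hN, rfl, by omega, hp, fun i _ => ?_, fun π hπ => ?_, fun π hπ π' hπ' hne => ?_,
    fun B hB hc => ?_⟩
  · simpa using sum_incC hp r i fun _ => 1
  · rw [sum_ind, ← mul_assoc, ← pow_succ', show r - 2 + 1 = r - 1 by omega,
      ← card_range (p ^ (r - 1) * m)]
    exact card_le_card_of_injOn (coC p π)
      (fun i hi => mem_coe.2 (mem_range.2 (coC_lt hp hπ (mem_range.1 (mem_filter.1 hi).1))))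
      fun i hi i' hi' e => coC_inj hp (mem_filter.1 hi).2 (mem_filter.1 hi').2 e
  · unfold incC
    have hj : π / p ∈ range r := mem_range.2 ((Nat.div_lt_iff_lt_mul hp).2 (by rwa [mul_comm]))
    have hj' : π' / p ∈ range r :=
      mem_range.2 ((Nat.div_lt_iff_lt_mul hp).2 (by rwa [mul_comm]))
    by_cases he : π / p = π' / p
    · refine le_trans (le_of_eq (sum_eq_zero fun i _ => if_neg fun g => hne ?_)) (Nat.zero_le _)
      rw [← Nat.div_add_mod π p, ← Nat.div_add_mod π' p, ← g.1, ← g.2, he]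
    have ha := mem_range.2 (Nat.mod_lt π hp)
    have ha' := mem_range.2 (Nat.mod_lt π' hp)
    generalize π / p = j, π' / p = j', π % p = a, π' % p = a' at *
    have h1 := sum_prod_dg hp m r fun l x =>
      (if l = j then ind (x = a) else 1) * if l = j' then ind (x = a') else 1
    simp only [prod_mul_distrib, prod_ite_eq', hj, hj', if_true, ind_mul] at h1
    have h2 : ∏ l ∈ range r, ((∑ x ∈ range p, (if l = j then ind (x = a) else 1) *
        if l = j' then ind (x = a') else 1) * ((if l = j then p else 1) *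
          if l = j' then p else 1)) = p ^ r := by
      rw [← card_range r, ← prod_const, card_range]
      refine prod_congr rfl fun l _ => ?_
      by_cases g : l = j
      · simp [g, he, sum_ind, filter_eq', ha]
      · by_cases g' : l = j' <;> simp [g, g', ind, ha', Ne.symm he]
    rw [prod_mul_distrib, prod_mul_distrib, prod_ite_eq', prod_ite_eq', if_pos hj,
      if_pos hj'] at h2
    refine le_of_eq (Nat.eq_of_mul_eq_mul_left (pow_pos hp 2) ?_)
    rw [h1, ← hN, ← h2]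
    ring
  · have e1 : ∀ i, ∑ π ∈ B, ind (incC p π i) = ∑ j ∈ range r, ind (p * j + dg p i j ∈ B) := by
      intro i
      rw [← sum_incC hp r i fun π => ind (π ∈ B), ← sum_subset hB fun π _ g => by simp [ind, g]]
      exact sum_congr rfl fun π g => by simp [ind, g]
    have h1 := sum_prod_dg hp m r fun j a => 16 ^ ind (p * j + a ∈ B)
    have e2 : ∀ j, ∑ a ∈ range p, 16 ^ ind (p * j + a ∈ B) =
        p + 15 * ∑ a ∈ range p, ind (p * j + a ∈ B) := fun j => by
      rw [sum_congr rfl (g := fun a => 1 + 15 * ind (p * j + a ∈ B)) fun a _ => ?_,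
        sum_add_distrib, ← mul_sum, sum_const, card_range, smul_eq_mul, mul_one]
      unfold ind
      split_ifs <;> rfl
    simp only [prod_pow_eq_pow_sum, ← e1, e2] at h1
    have h2 := prod_le_two_pow (r := r) hp (fun j => ∑ a ∈ range p, ind (p * j + a ∈ B)) (by
      rw [← sum_blocks p r fun π => ind (π ∈ B), sum_ind]
      exact (Nat.mul_le_mul_left _ (card_le_card fun π g => (mem_filter.1 g).2)).trans hc)
    set D := (range (p ^ r * m)).filter fun i => r ≤ 2 * ∑ π ∈ B, ind (incC p π i)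
    have h3 : D.card * 4 ^ r ≤ m * (2 ^ r * p ^ r) := by
      refine le_trans ?_ (h1.le.trans (Nat.mul_le_mul_left _ h2))
      refine le_trans (card_nsmul_le_sum _ _ _ fun i hi => ?_)
        (sum_le_sum_of_subset (filter_subset _ _))
      rw [show 16 = 4 ^ 2 by norm_num, ← pow_mul]
      exact Nat.pow_le_pow_right (by omega) (mem_filter.1 hi).2
    refine Nat.le_of_mul_le_mul_left (c := 2 ^ r * p ^ 2) ?_ (by positivity)
    calc _ = 2 ^ r * D.card * (256 * p ^ 2) := by ring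
      _ ≤ 2 ^ r * D.card * 2 ^ r := Nat.mul_le_mul_left _ h
      _ = D.card * 4 ^ r := by rw [show 4 = 2 * 2 by norm_num, mul_pow]; ring
      _ ≤ _ := h3
      _ = _ := by rw [mul_assoc, ← hN]; ring

/-- the gadgets of the class `c` that can be cut off -/
def OkS (adj : ℕ → ℕ → Prop) (n k p K N t X c : ℕ) (e : Gad) : Prop :=
  e.1 = 0 ∧ e.2.2 = 0 ∧ ∀ l < t, ∀ l' < t,
    ConsE adj N k (incC p) (dg K c l) (dg K c l')
      (fun i => dg n (dg X e.2.1 l) (coC p (dg K c l) i))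
      (fun i => dg n (dg X e.2.1 l') (coC p (dg K c l') i)) ∅ ∅

/-- the selectors a gadget of the class `c` is attached to -/
def AttS (K t X c : ℕ) (e : Gad) (p : ℕ × ℕ) : Prop := ∃ l < t, p = (dg K c l, dg X e.2.1 l)

theorem sp_complete {n k p r m t : ℕ} (hp : 0 < p) (hr : 0 < r) (hn : 0 < n)
    (adj : ℕ → ℕ → Prop) (v : ℕ → ℕ)
    (hv : ∀ i < k, v i < n) (hadj : ∀ i < k, ∀ j < k, i ≠ j → adj (v i) (v j)) {X : ℕ}
    (hX : X = n ^ (p ^ (r - 1) * m)) :
    ∃ Del : Finset (ℕ × ℕ), Del ⊆ range (p * r) ×ˢ range X ∧ Del.card = p * r ∧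
      ∀ c, ∃ e ∈ range X ×ˢ range (X ^ t) ×ˢ range (X ^ t),
        OkS adj n k p (p * r) (p ^ r * m) t X c e ∧
          ∀ z, AttS (p * r) t X c e z → z ∈ Del := by
  have hσ : ∀ π, ∃ σ < X, π < p * r → ∀ i < p ^ r * m, incC p π i →
      dg n σ (coC p π i) = if i < k then v i else 0 := by
    intro π
    have h1 : ∀ z, ∃ y < n, ∀ i, incC p π i → coC p π i = z →
        y = if i < k then v i else 0 := by
      intro z
      by_cases h : ∃ i, incC p π i ∧ coC p π i = z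
      · obtain ⟨i, h2, rfl⟩ := h
        refine ⟨if i < k then v i else 0, ?_, fun j g2 g3 => ?_⟩
        · split_ifs with g
          exacts [hv i g, hn]
        · rw [coC_inj hp g2 h2 g3]
      · exact ⟨0, hn, fun i g2 g3 => absurd ⟨i, g2, g3⟩ h⟩
    choose f hf1 hf2 using h1
    obtain ⟨σ, h1, h2⟩ := exists_dg (b := n) (p ^ (r - 1) * m) f fun s _ => hf1 s
    exact ⟨σ, hX ▸ h1, fun g i g1 g2 => (h2 _ (coC_lt hp g g1)).trans (hf2 _ i g2 rfl)⟩
  choose σ hσ1 hσ2 using hσ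
  have hK0 : 0 < p * r := Nat.mul_pos hp hr
  have hX0 : 0 < X := hX ▸ pow_pos hn _
  refine ⟨(range (p * r)).image fun π => (π, σ π), ?_, ?_, fun c => ?_⟩
  · intro z hz
    obtain ⟨π, hπ, rfl⟩ := mem_image.1 hz
    exact mem_product.2 ⟨hπ, mem_range.2 (hσ1 π)⟩
  · rw [card_image_of_injective _ (fun a b hab => (Prod.ext_iff.1 hab).1), card_range]
  · obtain ⟨y, hy, hd⟩ := exists_dg (b := X) t (fun l => σ (dg (p * r) c l)) fun _ _ => hσ1 _
    refine ⟨(0, y, 0), ?_, ⟨rfl, rfl, fun l hl l' hl' i hi i' hi' g1 g2 _ _ => ?_⟩, ?_⟩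
    · simp only [mem_product, mem_range]
      exact ⟨hX0, hy, pow_pos hX0 t⟩
    · dsimp only
      rw [hd l hl, hd l' hl', hσ2 _ (dg_lt hK0 _ _) i hi g1, hσ2 _ (dg_lt hK0 _ _) i' hi' g2]
      refine ⟨fun e => by rw [e], fun g3 g4 g5 => ?_⟩
      rw [if_pos g4, if_pos g5]
      exact hadj i g4 i' g5 g3
    · rintro z ⟨l, hl, rfl⟩
      exact mem_image.2 ⟨_, mem_range.2 (dg_lt hK0 _ _), by rw [hd l hl]⟩

theorem sp_few {n k p K N t X c : ℕ} {adj : ℕ → ℕ → Prop} (Del : Finset (ℕ × ℕ))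
    (T : Finset Gad) (hT : ∀ e ∈ T, e.2.1 < X ^ t ∧ OkS adj n k p K N t X c e ∧
      ∀ z, AttS K t X c e z → z ∈ Del) : T.card ≤ Del.card ^ t := by
  have := card_le_card_of_injOn (s := T) (t := Fintype.piFinset fun _ : Fin t => Del)
    (fun e : Gad => fun l : Fin t => (dg K c l, dg X e.2.1 l))
    (fun e he => mem_coe.2 (Fintype.mem_piFinset.2 fun l => (hT e he).2.2 _ ⟨l, l.2, rfl⟩))
    (fun e he e' he' h => by
      obtain ⟨a1, ⟨a2, a3, -⟩, -⟩ := hT e he
      obtain ⟨b1, ⟨b2, b3, -⟩, -⟩ := hT e' he'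
      exact Prod.ext (a2.trans b2.symm) (Prod.ext (eq_of_dg t _ _ a1 b1 fun s hs =>
        (Prod.ext_iff.1 (congrFun h ⟨s, hs⟩)).2) (a3.trans b3.symm)))
  simpa using this

theorem sp_sound {n k p r m b X : ℕ} (hp : 0 < p) (hr : 2 ≤ r) (h2 : 256 * p ^ 2 ≤ 2 ^ r)
    (hk : k ≤ p ^ r * m) (hk' : p ^ r * m ≤ 2 * k) (adj : ℕ → ℕ → Prop) (Del : Finset (ℕ × ℕ))
    (hDel : Del.card ≤ 2 ^ b * (p * r))
    (h : ∀ c < (p * r) ^ tS b, ∃ e, OkS adj n k p (p * r) (p ^ r * m) (tS b) X c e ∧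
      ∀ z, AttS (p * r) (tS b) X c e z → z ∈ Del) :
    ∃ g : ℕ → ℕ, ∃ c : ℕ → ℕ, ∃ S ⊆ range k, k ≤ 2 * S.card ∧ ∀ i ∈ S, ∀ j ∈ S, i ≠ j →
      adj (dg n (g i) (coC p (c i) i)) (dg n (g j) (coC p (c j) j)) := by
  refine (smp_incC m hp hr h2).sound (s := sS b) (u := uS b) (t := tS b) rfl rfl rfl hk hk'
    (fun π σ i => dg n σ (coC p π i)) Del hDel fun ρ hρ => ?_
  obtain ⟨c, hc, hd⟩ := exists_dg (tS b) ρ fun l _ => hρ l
  obtain ⟨e, ⟨-, -, h1⟩, h2⟩ := h c hc
  refine ⟨fun l => dg X e.2.1 l, fun l hl => h2 _ ⟨l, hl, by rw [hd l hl]⟩, fun l hl l' hl' => ?_⟩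
  have := h1 l hl l' hl'
  rwa [hd l hl, hd l' hl'] at this

end Pool.Agent.P.MP_8c536d_lc
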