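import Pool.Agent.P.MP_8c536d_lc.RtProg
import Pool.Agent.P.MP_8c536d_lc.SpGeo

/-!
The reduction from gap clique as a program.
-/

namespace Pool.Agent.P.MP_8c536d_lc

open Finset Pool.Agent.Lib.Helper47 Pool.Agent.Lib.Helper33

/-- the logarithm of the base -/
def sOf (k : ℕ) : ℕ := Nat.sqrt (Nat.log 2 k / 10)

/-- the new parameter -/
def kS (k : ℕ) : ℕ := 2 ^ sOf k * (10 * sOf k)

/-- the number of cubes -/
def mS (k : ℕ) : ℕ := k / (2 ^ sOf k) ^ (10 * sOf k) + 1

/-- the length of a view -/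
def wS (k : ℕ) : ℕ := (2 ^ sOf k) ^ (10 * sOf k - 1) * mS k

/-- the number of indices -/
def nS (k : ℕ) : ℕ := (2 ^ sOf k) ^ (10 * sOf k) * mS k

/-- program for `sOf` -/
def sT (U : List Unit) (k : ℕ) : ℕ :=
  ((rng U k).filter fun y => Nat.ble (pw U 2 (10 * (y + 1) * (y + 1))) k).length

/-- program for the base -/
def pT (U : List Unit) (k : ℕ) : ℕ := pw U 2 (sT U k)

/-- program for `kS` -/
def kT (U : List Unit) (k : ℕ) : ℕ := pT U k * (10 * sT U k)

/-- program for `mS` -/
def mT (U : List Unit) (k : ℕ) : ℕ := k / pw U (pT U k) (10 * sT U k) + 1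

/-- program for `wS` -/
def vT (U : List Unit) (k : ℕ) : ℕ := pw U (pT U k) (10 * sT U k - 1) * mT U k

/-- program for `nS` -/
def nT (U : List Unit) (k : ℕ) : ℕ := pw U (pT U k) (10 * sT U k) * mT U k

/-- incidence test -/
def incB (U : List Unit) (p π i : ℕ) : Bool := dgT U p i (π / p) == π % p

/-- the entry of a view -/
def valT (U : List Unit) (n p π σ i : ℕ) : ℕ :=
  dgT U n σ (i / pw U p (π / p + 1) * pw U p (π / p) + i % pw U p (π / p))

/-- consistency test -/
def consB (U : List Unit) (n k p N : ℕ) (mat : List Bool) (π π' σ σ' : ℕ) : Bool :=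
  (rng U N).all fun i => (rng U N).all fun i' =>
    !incB U p π i || !incB U p π' i' ||
      ((i != i' || valT U n p π σ i == valT U n p π' σ' i') &&
        (i == i' || !Nat.blt i k || !Nat.blt i' k ||
          mat.getD (valT U n p π σ i * n + valT U n p π' σ' i') false))

/-- detachable gadgets -/
def okSB (U : List Unit) (n k p K N t X : ℕ) (mat : List Bool) (c : ℕ) (e : Gad) : Bool :=
  e.1 == 0 && e.2.2 == 0 && (rng U t).all fun l => (rng U t).all fun l' =>
    consB U n k p N mat (dgT U K c l) (dgT U K c l') (dgT U X e.2.1 l) (dgT U X e.2.1 l')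

/-- attachments -/
def attSB (U : List Unit) (K t X c : ℕ) (e : Gad) (z : ℕ × ℕ) : Bool :=
  (rng U t).any fun l => z == (dgT U K c l, dgT U X e.2.1 l)

/-- one direction of the adjacency test -/
def halfS (U : List Unit) (n k p K N t X : ℕ) (mat : List Bool) (a b : Tup) : Bool :=
  (a.1 == 0 && b.1 == 0) || (a.1 == 1 && b.1 == 1) || (a.1 == 1 && b.1 == 2) ||
    (a.1 == 3 && a == b) ||
    (a.1 == 3 && b.1 == 2 && attSB U K t X a.2.1 a.2.2 (b.2.1, b.2.2.1)) ||
    (a.1 == 3 && b.1 == 1 && !okSB U n k p K N t X mat a.2.1 a.2.2)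

/-- the code of the graph with vertex labels `L` -/
def codeS (U : List Unit) (n k p K N t X : ℕ) (mat : List Bool) (L : List Tup) : List Bool :=
  L.map (fun _ => true) ++ [false] ++ rep U K true ++ [false] ++
    L.zipIdx.flatMap fun a => L.zipIdx.map fun b =>
      (a.2 != b.2 && (halfS U n k p K N t X mat a.1 b.1 || halfS U n k p K N t X mat b.1 a.1))

/-- the reduction with all parameters given -/
def redR (U : List Unit) (n k p K N t L n' X C B : ℕ) (mat : List Bool) : List Bool :=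
  codeS U n k p K N t X mat
    (labsT U n' K X C (K + L + 1) B (L + 2 + K * X + X * n' * n' * wG U (K + L + 1) B C)
      (2 * wG U (K + L + 1) B C + K + L + 2))

/-- bound for the parameters -/
def pS (k : ℕ) : ℕ := 10 * (k + 1) * (k + 1)

/-- the first budget -/
def r0S (b k : ℕ) : ℕ := pS k + tS b + b

/-- the second budget -/
def r1S (b k : ℕ) : ℕ := r0S b k + kS k ^ tS b

/-- the base of the weights -/
def baseS (b k : ℕ) : ℕ := (2 ^ b * kS k) ^ tS b + 2

/-- the budget -/
def budgetS (b n k : ℕ) : ℕ :=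
  budG ((n ^ wS k) ^ tS b) (n ^ wS k) (kS k) (2 ^ b * kS k) (kS k ^ tS b)
    (baseS b k ^ kS k ^ tS b) (r1S b k + (n + 1))

/-- program for the second budget -/
def r1ST (U : List Unit) (b k : ℕ) : ℕ := r0S b k + pw U (kT U k) (tS b)

/-- program for the base of the weights -/
def baseST (U : List Unit) (b k : ℕ) : ℕ := pw U (pw U 2 b * kT U k) (tS b) + 2

/-- program for the budget -/
def budgetST (U : List Unit) (b n k : ℕ) : ℕ :=
  budG (pw U (pw U n (vT U k)) (tS b)) (pw U n (vT U k)) (kT U k) (pw U 2 b * kT U k)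
    (pw U (kT U k) (tS b)) (pw U (baseST U b k) (pw U (kT U k) (tS b))) (r1ST U b k + (n + 1))

/-- the reduction, on parsed input -/
def redS (U : List Unit) (b n k : ℕ) (mat : List Bool) : List Bool :=
  redR U n k (pT U k) (kT U k) (nT U k) (tS b) (pw U 2 b * kT U k)
    (pw U (pw U n (vT U k)) (tS b)) (pw U n (vT U k)) (pw U (kT U k) (tS b)) (baseST U b k) mat

section pt
variable {α : Type} [Enc α]

@[fun_prop] theorem pt_sT {U : α → List Unit} {k : α → ℕ} (hU : PT U) (hk : PT k) :
    PT (fun z => sT (U z) (k z)) := by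
  unfold sT; fun_prop

@[fun_prop] theorem pt_pT {U : α → List Unit} {k : α → ℕ} (hU : PT U) (hk : PT k) :
    PT (fun z => pT (U z) (k z)) := by
  unfold pT; fun_prop

@[fun_prop] theorem pt_kT {U : α → List Unit} {k : α → ℕ} (hU : PT U) (hk : PT k) :
    PT (fun z => kT (U z) (k z)) := by
  unfold kT; fun_prop

@[fun_prop] theorem pt_mT {U : α → List Unit} {k : α → ℕ} (hU : PT U) (hk : PT k) :
    PT (fun z => mT (U z) (k z)) := by
  unfold mT; fun_prop

@[fun_prop] theorem pt_vT {U : α → List Unit} {k : α → ℕ} (hU : PT U) (hk : PT k) :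
    PT (fun z => vT (U z) (k z)) := by
  unfold vT; fun_prop

@[fun_prop] theorem pt_nT {U : α → List Unit} {k : α → ℕ} (hU : PT U) (hk : PT k) :
    PT (fun z => nT (U z) (k z)) := by
  unfold nT; fun_prop

@[fun_prop] theorem pt_incB {U : α → List Unit} {q a b : α → ℕ} (hU : PT U) (hq : PT q)
    (ha : PT a) (hb : PT b) : PT (fun z => incB (U z) (q z) (a z) (b z)) := by
  unfold incB; fun_prop

@[fun_prop] theorem pt_valT {U : α → List Unit} {n q π σ i : α → ℕ} (hU : PT U) (hn : PT n)
    (hq : PT q) (hπ : PT π) (hσ : PT σ) (hi : PT i) :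
    PT (fun z => valT (U z) (n z) (q z) (π z) (σ z) (i z)) := by
  unfold valT; fun_prop

@[fun_prop] theorem pt_consB {U : α → List Unit} {n k q N π π' σ σ' : α → ℕ}
    {mat : α → List Bool} (hU : PT U) (hn : PT n) (hk : PT k) (hq : PT q) (hN : PT N)
    (hmat : PT mat) (h1 : PT π) (h2 : PT π') (h3 : PT σ) (h4 : PT σ') :
    PT (fun z => consB (U z) (n z) (k z) (q z) (N z) (mat z) (π z) (π' z) (σ z) (σ' z)) := by
  unfold consB; fun_prop

@[fun_prop] theorem pt_okSB {U : α → List Unit} {n k q K N t X c : α → ℕ} {mat : α → List Bool}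
    {e : α → Gad} (hU : PT U) (hn : PT n) (hk : PT k) (hq : PT q) (hK : PT K) (hN : PT N)
    (ht : PT t) (hX : PT X) (hmat : PT mat) (hc : PT c) (he : PT e) :
    PT (fun z => okSB (U z) (n z) (k z) (q z) (K z) (N z) (t z) (X z) (mat z) (c z) (e z)) := by
  unfold okSB; fun_prop

@[fun_prop] theorem pt_attSB {U : α → List Unit} {q t X c : α → ℕ} {e : α → Gad}
    {p : α → ℕ × ℕ} (hU : PT U) (hq : PT q) (ht : PT t) (hX : PT X) (hc : PT c) (he : PT e)
    (hp : PT p) : PT (fun z => attSB (U z) (q z) (t z) (X z) (c z) (e z) (p z)) := by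
  unfold attSB; fun_prop

@[fun_prop] theorem pt_halfS {U : α → List Unit} {n k q K N t X : α → ℕ} {mat : α → List Bool}
    {a b : α → Tup} (hU : PT U) (hn : PT n) (hk : PT k) (hq : PT q) (hK : PT K) (hN : PT N)
    (ht : PT t) (hX : PT X) (hmat : PT mat) (ha : PT a) (hb : PT b) :
    PT (fun z => halfS (U z) (n z) (k z) (q z) (K z) (N z) (t z) (X z) (mat z) (a z) (b z)) := by
  unfold halfS; fun_prop

@[fun_prop] theorem pt_codeS {U : α → List Unit} {n k q K N t X : α → ℕ} {mat : α → List Bool}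
    {L : α → List Tup} (hU : PT U) (hn : PT n) (hk : PT k) (hq : PT q) (hK : PT K) (hN : PT N)
    (ht : PT t) (hX : PT X) (hmat : PT mat) (hL : PT L) :
    PT (fun z => codeS (U z) (n z) (k z) (q z) (K z) (N z) (t z) (X z) (mat z) (L z)) := by
  unfold codeS; fun_prop

@[fun_prop] theorem pt_redR {U : α → List Unit} {n k q K N t L n' X C B : α → ℕ}
    {mat : α → List Bool} (hU : PT U) (hn : PT n) (hk : PT k) (hq : PT q) (hK : PT K)
    (hN : PT N) (ht : PT t) (hL : PT L) (hn' : PT n') (hX : PT X) (hC : PT C) (hB : PT B)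
    (hmat : PT mat) : PT (fun z => redR (U z) (n z) (k z) (q z) (K z) (N z) (t z) (L z) (n' z)
      (X z) (C z) (B z) (mat z)) := by
  unfold redR; fun_prop

@[fun_prop] theorem pt_tS {b : α → ℕ} (hb : PT b) : PT (fun z => tS (b z)) := by
  unfold tS uS sS; fun_prop

@[fun_prop] theorem pt_r0S {b k : α → ℕ} (hb : PT b) (hk : PT k) :
    PT (fun z => r0S (b z) (k z)) := by
  unfold r0S pS; fun_prop

@[fun_prop] theorem pt_r1ST {U : α → List Unit} {b k : α → ℕ} (hU : PT U) (hb : PT b)
    (hk : PT k) : PT (fun z => r1ST (U z) (b z) (k z)) := by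
  unfold r1ST; fun_prop

@[fun_prop] theorem pt_baseST {U : α → List Unit} {b k : α → ℕ} (hU : PT U) (hb : PT b)
    (hk : PT k) : PT (fun z => baseST (U z) (b z) (k z)) := by
  unfold baseST; fun_prop

@[fun_prop] theorem pt_budgetST {U : α → List Unit} {b n k : α → ℕ} (hU : PT U) (hb : PT b)
    (hn : PT n) (hk : PT k) : PT (fun z => budgetST (U z) (b z) (n z) (k z)) := by
  unfold budgetST budG; fun_prop

@[fun_prop] theorem pt_redS {U : α → List Unit} {b n k : α → ℕ} {mat : α → List Bool}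
    (hU : PT U) (hb : PT b) (hn : PT n) (hk : PT k) (hmat : PT mat) :
    PT (fun z => redS (U z) (b z) (n z) (k z) (mat z)) := by
  unfold redS; fun_prop

end pt

theorem le_sOf {k y : ℕ} (hy : 0 < y) : y ≤ sOf k ↔ 2 ^ (10 * y * y) ≤ k := by
  unfold sOf
  rw [Nat.le_sqrt, Nat.le_div_iff_mul_le (by omega), show y * y * 10 = 10 * y * y by ring]
  rcases Nat.eq_zero_or_pos k with rfl | hk
  · have := Nat.mul_pos (Nat.mul_pos (show 0 < 10 by omega) hy) hy
    have := pow_pos (show 0 < 2 by omega) (10 * y * y)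
    rw [Nat.log_zero_right]
    omega
  · exact Nat.le_log_iff_pow_le one_lt_two hk.ne'

theorem sOf_le (k : ℕ) : sOf k ≤ k :=
  (Nat.sqrt_le_self _).trans ((Nat.div_le_self _ _).trans (Nat.log_le_self _ _))

theorem cube_le {k : ℕ} (h : 0 < sOf k) : (2 ^ sOf k) ^ (10 * sOf k) ≤ k := by
  rw [← pow_mul, mul_comm]
  exact (le_sOf h).1 le_rfl

theorem lt_nS (k : ℕ) : k < nS k := Nat.lt_mul_div_succ k (by positivity)

theorem nS_le (k : ℕ) : nS k ≤ k + (2 ^ sOf k) ^ (10 * sOf k) := by
  unfold nS mS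
  rw [mul_add, mul_one]
  exact Nat.add_le_add_right (Nat.mul_div_le _ _) _

theorem wS_zero {k : ℕ} (h : sOf k = 0) : wS k = k + 1 := by simp [wS, mS, h]

theorem wS_mul {k : ℕ} (h : 0 < sOf k) : wS k * 2 ^ sOf k = nS k := by
  unfold wS nS
  rw [mul_right_comm, ← pow_succ, Nat.sub_add_cancel (by omega)]

theorem wS_pos (k : ℕ) : 0 < wS k := Nat.mul_pos (by positivity) (Nat.succ_pos _)

theorem wS_le (k : ℕ) : wS k ≤ 2 * (k / 2 ^ sOf k + 1) := by
  rcases Nat.eq_zero_or_pos (sOf k) with h | h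
  · rw [wS_zero h, h, pow_zero, Nat.div_one]
    omega
  · have h1 := Nat.lt_mul_div_succ k (show 0 < 2 ^ sOf k by positivity)
    have h2 := nS_le k
    have h3 := cube_le h
    refine Nat.le_of_mul_le_mul_right (c := 2 ^ sOf k) ?_ (by positivity)
    rw [wS_mul h, mul_assoc, mul_comm (_ + 1)]
    omega

theorem le_pS (k : ℕ) : 10 * k + 10 ≤ pS k ∧ nS k ≤ pS k ∧ wS k ≤ pS k := by
  have h1 : 10 * (k + 1) ≤ pS k := Nat.le_mul_of_pos_right _ (Nat.succ_pos k)
  have h2 := nS_le k
  have h3 := wS_le k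
  have h4 := Nat.div_le_self k (2 ^ sOf k)
  refine ⟨by omega, ?_, by omega⟩
  rcases Nat.eq_zero_or_pos (sOf k) with h | h
  · rw [h, mul_zero, pow_zero] at h2
    omega
  · have := cube_le h
    omega

theorem sT_eq {U : List Unit} {k : ℕ} (h : pS k ≤ U.length) : sT U k = sOf k := by
  unfold sT
  have h1 := (le_pS k).1
  rw [rng_eq (by omega), length_filter_range, ← card_range (sOf k)]
  congr 1
  ext y
  have h2 := sOf_le k
  rw [mem_filter, mem_range, mem_range]
  have key : y < k → (Nat.ble (pw U 2 (10 * (y + 1) * (y + 1))) k = true ↔ y < sOf k) :=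
    fun hy => by
      rw [pw_eq 2 (le_trans (show _ ≤ pS k from Nat.mul_le_mul (by omega) (by omega)) h),
        Nat.ble_eq, ← le_sOf (Nat.succ_pos y), Nat.succ_le_iff]
  exact ⟨fun g => (key g.1).1 g.2, fun g => ⟨by omega, (key (by omega)).2 g⟩⟩

theorem par_eq {U : List Unit} {k : ℕ} (h : pS k ≤ U.length) :
    pT U k = 2 ^ sOf k ∧ kT U k = kS k ∧ vT U k = wS k ∧ nT U k = nS k := by
  have h1 := (le_pS k).1
  have h2 := sOf_le k
  have e : pT U k = 2 ^ sOf k := by
    unfold pT
    rw [sT_eq h, pw_eq _ (by omega)]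
  unfold kT vT nT mT kS wS nS mS
  rw [e, sT_eq h, pw_eq _ (show 10 * sOf k ≤ _ by omega),
    pw_eq _ (show 10 * sOf k - 1 ≤ _ by omega)]
  exact ⟨rfl, rfl, rfl, rfl⟩

theorem okSB_iff {U : List Unit} {p r m t : ℕ} (hp : 0 < p) (hr : 0 < r) (h : r ≤ U.length)
    (h2 : p ^ (r - 1) * m ≤ U.length) (h3 : p ^ r * m ≤ U.length) (ht : t ≤ U.length)
    (n k X : ℕ) (mat : List Bool) (c : ℕ) (e : Gad) :
    okSB U n k p (p * r) (p ^ r * m) t X mat c e = true ↔
      OkS (fun u w => mat.getD (u * n + w) false = true) n k p (p * r) (p ^ r * m) t X c e := by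
  have hj : ∀ π < p * r, π / p + 1 ≤ U.length := fun π g =>
    le_trans ((Nat.div_lt_iff_lt_mul hp).2 (by rwa [mul_comm])) h
  have e1 : ∀ π < p * r, ∀ i, incC p π i ↔ incB U p π i = true := fun π g i => by
    unfold incB incC
    rw [dgT_eq _ _ (Nat.le_of_succ_le (hj π g)), beq_iff_eq]
  have e2 : ∀ π < p * r, ∀ i < p ^ r * m, ∀ σ, valT U n p π σ i = dg n σ (coC p π i) :=
    fun π g i hi σ => by
      unfold valT
      rw [pw_eq _ (hj π g), pw_eq _ (Nat.le_of_succ_le (hj π g))]
      exact dgT_eq _ _ ((coC_lt hp g hi).le.trans h2)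
  have hK := Nat.mul_pos hp hr
  unfold okSB OkS consB ConsE
  rw [rng_eq ht, rng_eq h3]
  simp only [Bool.and_eq_true, beq_iff_eq, List.all_eq_true, List.mem_range, and_assoc]
  refine and_congr_right fun _ => and_congr_right fun _ => forall₂_congr fun l hl =>
    forall₂_congr fun l' hl' => forall₂_congr fun i hi => forall₂_congr fun i' hi' => ?_
  rw [dgT_eq _ _ (hl.le.trans ht), dgT_eq _ _ (hl.le.trans ht), dgT_eq _ _ (hl'.le.trans ht),
    dgT_eq _ _ (hl'.le.trans ht), e1 _ (dg_lt hK _ _), e1 _ (dg_lt hK _ _),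
    e2 _ (dg_lt hK _ _) i hi, e2 _ (dg_lt hK _ _) i' hi']
  simp only [Bool.or_eq_true, Bool.not_eq_true', Bool.and_eq_true, bne_iff_ne,
    beq_iff_eq, ← Bool.not_eq_true, Nat.blt_eq, notMem_empty, not_false_eq_true, true_imp_iff]
  tauto

theorem attSB_iff {U : List Unit} {t : ℕ} (ht : t ≤ U.length) (K X c : ℕ) (e : Gad)
    (p : ℕ × ℕ) : attSB U K t X c e p = true ↔ AttS K t X c e p := by
  unfold attSB AttS
  rw [rng_eq ht, List.any_eq_true]
  refine exists_congr fun l => ?_
  rw [List.mem_range]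
  refine and_congr_right fun hl => ?_
  rw [dgT_eq _ _ (hl.le.trans ht), dgT_eq _ _ (hl.le.trans ht), beq_iff_eq]

theorem halfS_iff (U : List Unit) (n k p K N t X : ℕ) (mat : List Bool) (a b : Lab Gad) :
    (halfS U n k p K N t X mat (encL a) (encL b) ||
      halfS U n k p K N t X mat (encL b) (encL a)) = true ↔
      Rel (fun c e => okSB U n k p K N t X mat c e = true)
        (fun c e z => attSB U K t X c e z = true) a b := by
  cases a <;> cases b <;> simp [halfS, encL, Rel]
  tauto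

theorem codeS_eq {U : List Unit} (n k p N t X : ℕ) {K : ℕ} (hK : K ≤ U.length)
    (mat : List Bool) (L : List (Lab Gad)) :
    codeS U n k p K N t X mat (L.map encL) = code L.length
      (gadGraph L (fun c e => okSB U n k p K N t X mat c e = true)
        (fun c e z => attSB U K t X c e z = true)) K := by
  unfold codeS code
  rw [rep_eq _ hK, List.zipIdx_map, zipIdx_eq_map, List.map_const', List.length_map]
  simp only [List.map_map, List.flatMap_map]
  congr 1
  refine List.flatMap_congr (fun i _ => List.map_congr_left (fun j _ => ?_))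
  rw [Bool.eq_iff_iff, @decide_eq_true_iff _ (_)]
  simp only [Function.comp_apply, Prod.map_fst, Prod.map_snd, id, Bool.and_eq_true, halfS_iff,
    gadGraph, bne_iff_ne, ne_eq, Fin.val_inj]

theorem r1ST_eq {U : List Unit} {b k : ℕ} (h : r0S b k ≤ U.length) : r1ST U b k = r1S b k := by
  unfold r1ST r1S
  unfold r0S at h
  rw [(par_eq (by omega)).2.1, pw_eq _ (by omega)]

theorem baseST_eq {U : List Unit} {b k : ℕ} (h : r0S b k ≤ U.length) :
    baseST U b k = baseS b k := by
  unfold baseST baseS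
  unfold r0S at h
  rw [(par_eq (by omega)).2.1, pw_eq _ (by omega), pw_eq _ (by omega)]

theorem budgetST_eq {U : List Unit} {b k : ℕ} (n : ℕ) (h : r1S b k ≤ U.length) :
    budgetST U b n k = budgetS b n k := by
  have h0 : r0S b k ≤ U.length := by unfold r1S at h; omega
  unfold budgetST budgetS
  rw [r1ST_eq h0, baseST_eq h0]
  unfold r1S r0S at h
  have h1 := (le_pS k).2.2
  obtain ⟨-, e1, e2, -⟩ := par_eq (U := U) (k := k) (by omega)
  rw [e1, e2, pw_eq n (by omega), pw_eq (kS k) (by omega), pw_eq _ (by omega),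
    pw_eq _ (by omega), pw_eq _ (by omega)]

theorem le_tS (b : ℕ) : 1 + b ≤ tS b := by
  unfold tS sS
  omega

theorem redS_correct {n : ℕ} (k b : ℕ) (G : SimpleGraph (Fin n))
    {U : List Unit} (hU : budgetS b n k ≤ U.length) :
    ∃ (N : ℕ) (H : SimpleGraph (Fin N)), N ≤ 3 * budgetS b n k ∧
      redS U b n k (matOf n G) = code N H (kS k) ∧ (wS k * tS b < k →
      ((∃ S : Finset (Fin n), G.IsNClique k S) →
        ∃ S : Finset (Fin N), IsBisector H S ∧ S.card ≤ kS k) ∧
      ∀ S : Finset (Fin N), IsBisector H S → S.card ≤ 2 ^ b * kS k →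
        ∃ S : Finset (Fin n), G.IsClique S ∧ k ≤ 2 * S.card) := by
  obtain ⟨p1, p2, p3⟩ := le_pS k
  set t := tS b with ht
  set K := kS k with hKdef
  set L := 2 ^ b * K with hL
  set C := K ^ t with hCdef
  set B := baseS b k with hBdef
  set E := B ^ C with hE
  set X := n ^ wS k with hX
  set n' := X ^ t with hn'
  have hBL : B = L ^ t + 2 := rfl
  have hbud : budgetS b n k = (L + 2 + K * X + X * n' * n' * ((K + L + 1) * (C * E))) +
    (2 * ((K + L + 1) * (C * E)) + K + L + 2) + K + X + n' + C + (K + L + 1) * E +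
    (r1S b k + (n + 1)) := rfl
  have hr1 : r1S b k = pS k + t + b + C := rfl
  have htU : t ≤ U.length := by omega
  have hK : K ≤ U.length := by omega
  have hXU : X ≤ U.length := by omega
  have hn'U : n' ≤ U.length := by omega
  have hC : C ≤ U.length := by omega
  have hB1 : 1 < B := by omega
  have hpow : ∀ c < C, B ^ c ≤ E := fun c hc => Nat.pow_le_pow_right (by omega) (by omega)
  set W := (K + L + 1) * ∑ c ∈ range C, B ^ c with hW
  have hWle : W ≤ (K + L + 1) * (C * E) := by
    refine Nat.mul_le_mul_left _ ?_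
    calc ∑ c ∈ range C, B ^ c ≤ ∑ _c ∈ range C, E :=
          sum_le_sum (fun c hc => hpow c (mem_range.1 hc))
      _ = C * E := by rw [sum_const, card_range, smul_eq_mul]
  have hwT : wG U (K + L + 1) B C = W := by
    unfold wG
    rw [rng_eq hC, List.map_congr_left (f := fun c => pw U B c) (g := fun c => B ^ c)
      (fun c hc => pw_eq _ ((List.mem_range.1 hc).le.trans hC)), sum_map_range]
  set P := L + 2 + K * X + X * n' * n' * W with hP
  set Z := 2 * W + K + L + 2 with hZ
  have hPle : P ≤ L + 2 + K * X + X * n' * n' * ((K + L + 1) * (C * E)) :=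
    Nat.add_le_add_left (Nat.mul_le_mul_left _ hWle) _
  have hPU : P ≤ U.length := by omega
  have hZU : Z ≤ U.length := by omega
  have hM : ∀ c < C, (K + L + 1) * B ^ c ≤ U.length := fun c hc => by
    have := Nat.mul_le_mul_left (K + L + 1) (hpow c hc)
    omega
  set ok : ℕ → Gad → Prop :=
    fun c e => okSB U n k (2 ^ sOf k) K (nS k) t X (matOf n G) c e = true with hok
  set att : ℕ → Gad → ℕ × ℕ → Prop := fun c e p => attSB U K t X c e p = true with hatt
  have hG := isGadgetL n' K L X C ok att (K + L + 1) B W P Z rfl hB1 rfl rfl rfl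
  refine ⟨_, gadGraph (labsI n' K X C (K + L + 1) B P Z) ok att, ?_, ?_, fun hk => ?_⟩
  · have := hG.hN
    omega
  · unfold redS redR
    obtain ⟨e0, e1, e2, e3⟩ := par_eq (U := U) (k := k) (by omega)
    rw [e0, e1, e2, e3, baseST_eq (by unfold r0S; omega), pw_eq n (by omega),
      pw_eq 2 (show b ≤ U.length by omega), pw_eq _ htU, pw_eq _ htU]
    have e := labsT_eq (U := U) hn'U hK hXU hC hPU hZU hM
    rw [hP, hZ, ← hwT] at e
    exact (congrArg _ e).trans (by
      rw [hwT]
      exact codeS_eq n k _ _ t X hK _ _)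
  have hs : 0 < sOf k := Nat.pos_of_ne_zero fun g => by
    have h1 := Nat.le_mul_of_pos_right (wS k) (show 0 < tS b by have := le_tS b; omega)
    rw [wS_zero g, ← ht] at h1
    rw [wS_zero g] at hk
    omega
  have hs' := sOf_le k
  have hp : 0 < 2 ^ sOf k := pow_pos two_pos _
  have hK0 : 0 < K := Nat.mul_pos hp (by omega)
  have hok := okSB_iff (U := U) (r := 10 * sOf k) (m := mS k) hp (by omega) (by omega)
    (p3.trans (by omega)) (p2.trans (by omega)) htU n k X (matOf n G)
  constructor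
  · intro hcl
    obtain ⟨v, hv, hadj⟩ := (clique_iff G k).1 hcl
    obtain ⟨Del, h1, h2, h3⟩ := sp_complete (t := t) (r := 10 * sOf k) (m := mS k) hp (by omega)
      (by have := hv 0 (by omega); omega)
      (fun u w => (matOf n G).getD (u * n + w) false = true) v hv hadj hX
    refine hG.complete Del h1 h2 (fun c _ => ?_)
    obtain ⟨e, he, h4, h5⟩ := h3 c
    exact ⟨e, he, (hok _ _).2 h4, fun p _ hp => h5 p ((attSB_iff htU _ _ _ e p).1 hp)⟩
  · intro S hS hcard
    have hlift : ∀ c, ∀ (Del : Finset (ℕ × ℕ)), ∀ e ∈ range X ×ˢ range n' ×ˢ range n',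
        (∀ p ∈ range K ×ˢ range X, att c e p → p ∈ Del) →
        ∀ p, AttS K t X c e p → p ∈ Del := by
      intro c Del e he h2 p hp
      refine h2 p ?_ ((attSB_iff htU _ _ _ e p).2 hp)
      obtain ⟨l, -, rfl⟩ := hp
      have := mem_range.1 (mem_product.1 he).1
      exact mem_product.2 ⟨mem_range.2 (dg_lt hK0 _ _), mem_range.2 (dg_lt (by omega) _ _)⟩
    obtain ⟨Del, h1, h2⟩ := hG.sound (fun c _ Del hDel T hT => by
      have h3 := sp_few (c := c) Del T (fun e he =>
        ⟨mem_range.1 (mem_product.1 (mem_product.1 (hT e he).1).2).1, (hok _ _).1 (hT e he).2.1,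
          hlift c Del e (hT e he).1 (hT e he).2.2⟩)
      have h4 : Del.card ^ t ≤ L ^ t := Nat.pow_le_pow_left hDel _
      omega) S hcard hS
    have hn : 0 < n := by
      obtain ⟨e, he, -⟩ := h2 0 (pow_pos hK0 t)
      have := mem_range.1 (mem_product.1 he).1
      rcases Nat.eq_zero_or_pos n with rfl | h
      · rw [hX, zero_pow (wS_pos k).ne'] at this
        omega
      · exact h
    obtain ⟨g, c, T, g1, g2, g3⟩ := sp_sound (n := n) (X := X) (r := 10 * sOf k) (m := mS k) hp
      (by omega) (by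
        rw [← pow_mul, show 256 = 2 ^ 8 by norm_num, ← pow_add]
        exact Nat.pow_le_pow_right two_pos (by omega)) (lt_nS k).le
      ((nS_le k).trans (by have := cube_le hs; omega))
      (fun u w => (matOf n G).getD (u * n + w) false = true) Del (h1.trans hcard) (fun c hc => by
        obtain ⟨e, he, h3, h4⟩ := h2 c hc
        exact ⟨e, (hok _ _).1 h3, hlift c Del e he h4⟩)
    have hA : ∀ i ∈ T, ∀ j ∈ T, i ≠ j →
        G.Adj ⟨dg n (g i) (coC (2 ^ sOf k) (c i) i), dg_lt hn _ _⟩
          ⟨dg n (g j) (coC (2 ^ sOf k) (c j) j), dg_lt hn _ _⟩ := fun i hi j hj hij =>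
      (matOf_getD G _ _).1 (g3 i hi j hj hij)
    refine ⟨T.image fun i => ⟨dg n (g i) (coC (2 ^ sOf k) (c i) i), dg_lt hn _ _⟩, ?_, ?_⟩
    · intro x hx y hy hxy
      obtain ⟨i, hi, rfl⟩ := mem_image.1 (mem_coe.1 hx)
      obtain ⟨j, hj, rfl⟩ := mem_image.1 (mem_coe.1 hy)
      exact hA i hi j hj (fun h => hxy (by rw [h]))
    · rwa [card_image_of_injOn (fun i hi j hj h => by
        by_contra hij
        exact (hA i hi j hj hij).ne h)]

end Pool.Agent.P.MP_8c536d_lc
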