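import Pool.Agent.P.MP_8c536d_lc.RtMain
import Pool.Agent.P.MP_8c536d_lc.SpDefs
import Pool.Agent.P.MP_8c536d_lc.SpProg

/-!
The machine for gap clique: it tries the ratios `2, 4, 8, …` until the approximation algorithm
gives a conclusive answer, or until exhaustive search is as cheap as one round.
-/

namespace Pool.Agent.P.MP_8c536d_lc

open Finset Pool.Agent.Lib.Helper47 Pool.Agent.Lib.Helper33

/-- the exponent of a round -/
def exS (b k : ℕ) : ℕ := wS k * tS b + 1

/-- bounded by `g (a, k) * (n + 1) ^ (c * exS a k)` -/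
def FX (t : ℕ → ℕ → ℕ → ℕ) : Prop :=
  ∃ (g : ℕ × ℕ → ℕ) (c : ℕ), Primrec g ∧ ∀ a n k, t a n k ≤ g (a, k) * (n + 1) ^ (c * exS a k)

namespace FX
variable {s t : ℕ → ℕ → ℕ → ℕ}

theorem par {g : ℕ × ℕ → ℕ} (hg : Primrec g) : FX fun a _ k => g (a, k) :=
  ⟨g, 0, hg, by simp⟩
theorem const (b : ℕ) : FX fun _ _ _ => b := par (Primrec.const b)
theorem vpow : FX fun a n k => (n + 1) ^ exS a k :=
  ⟨fun _ => 1, 1, Primrec.const 1, by simp⟩
theorem mono (h : FX t) (hle : ∀ a n k, s a n k ≤ t a n k) : FX s := by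
  obtain ⟨f, c, hf, h⟩ := h
  exact ⟨f, c, hf, fun a n k => (hle a n k).trans (h a n k)⟩
theorem add (h1 : FX s) (h2 : FX t) : FX fun a n k => s a n k + t a n k := by
  obtain ⟨f, c, hf, h1⟩ := h1
  obtain ⟨g, d, hg, h2⟩ := h2
  refine ⟨fun p => f p + g p, c + d, Primrec.nat_add.comp hf hg, fun a n k => ?_⟩
  have e1 : (n + 1) ^ (c * exS a k) ≤ (n + 1) ^ ((c + d) * exS a k) :=
    Nat.pow_le_pow_right (by omega) (Nat.mul_le_mul_right _ (by omega))
  have e2 : (n + 1) ^ (d * exS a k) ≤ (n + 1) ^ ((c + d) * exS a k) :=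
    Nat.pow_le_pow_right (by omega) (Nat.mul_le_mul_right _ (by omega))
  rw [add_mul]
  exact Nat.add_le_add ((h1 a n k).trans (Nat.mul_le_mul_left _ e1))
    ((h2 a n k).trans (Nat.mul_le_mul_left _ e2))
theorem mul (h1 : FX s) (h2 : FX t) : FX fun a n k => s a n k * t a n k := by
  obtain ⟨f, c, hf, h1⟩ := h1
  obtain ⟨g, d, hg, h2⟩ := h2
  refine ⟨fun p => f p * g p, c + d, Primrec.nat_mul.comp hf hg, fun a n k => ?_⟩
  calc s a n k * t a n k ≤ _ := Nat.mul_le_mul (h1 a n k) (h2 a n k)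
    _ = _ := by ring
end FX

theorem primrec_kS : Primrec kS := by
  have h : Primrec sOf := by
    refine (Primrec.nat_findGreatest (f := fun k : ℕ => k)
      (p := fun k y : ℕ => 2 ^ (10 * y * y) ≤ k) Primrec.id (Primrec.nat_le.comp
        (primrec_pow' (Primrec.const 2) (Primrec.nat_mul.comp
          (Primrec.nat_mul.comp (Primrec.const 10) Primrec.snd) Primrec.snd))
        Primrec.fst).primrecRel).of_eq fun k => ?_
    exact Nat.findGreatest_eq_iff.2 ⟨sOf_le k, fun g => (le_sOf (Nat.pos_of_ne_zero g)).1 le_rfl,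
      fun y g _ g' => absurd ((le_sOf (by omega)).2 g') (not_le.2 g)⟩
  exact Primrec.nat_mul.comp (primrec_pow' (Primrec.const 2) h)
    (Primrec.nat_mul.comp (Primrec.const 10) h)

theorem fx_budgetS : FX budgetS := by
  have pa : Primrec fun p : ℕ × ℕ => p.1 := Primrec.fst
  have pk : Primrec fun p : ℕ × ℕ => p.2 := Primrec.snd
  have p30 : Primrec fun p : ℕ × ℕ => p.1 + 30 := Primrec.nat_add.comp pa (Primrec.const 30)
  have ps : Primrec fun p : ℕ × ℕ => sS p.1 :=
    Primrec.nat_mul.comp (Primrec.const 32768) (Primrec.nat_mul.comp (Primrec.const 2) p30)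
  have pu : Primrec fun p : ℕ × ℕ => uS p.1 :=
    Primrec.nat_mul.comp (Primrec.const 32768)
      (Primrec.nat_add.comp (Primrec.nat_mul.comp p30 ps) (Primrec.const 1))
  have pt : Primrec fun p : ℕ × ℕ => tS p.1 :=
    Primrec.nat_add.comp ps (Primrec.nat_mul.comp (Primrec.const 2) pu)
  have p3 : Primrec fun p : ℕ × ℕ => p.2 + 1 := Primrec.nat_add.comp pk (Primrec.const 1)
  have pp : Primrec fun p : ℕ × ℕ => pS p.2 :=
    Primrec.nat_mul.comp (Primrec.nat_mul.comp (Primrec.const 10) p3) p3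
  have pK : Primrec fun p : ℕ × ℕ => kS p.2 := primrec_kS.comp pk
  have pL : Primrec fun p : ℕ × ℕ => 2 ^ p.1 * kS p.2 :=
    Primrec.nat_mul.comp (primrec_pow' (Primrec.const 2) pa) pK
  have pC : Primrec fun p : ℕ × ℕ => kS p.2 ^ tS p.1 := primrec_pow' pK pt
  have p1 : Primrec fun p : ℕ × ℕ => r1S p.1 p.2 :=
    Primrec.nat_add.comp (Primrec.nat_add.comp (Primrec.nat_add.comp pp pt) pa) pC
  have pB : Primrec fun p : ℕ × ℕ => baseS p.1 p.2 :=
    Primrec.nat_add.comp (primrec_pow' pL pt) (Primrec.const 2)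
  have fK := FX.par pK
  have fL := FX.par pL
  have fC := FX.par pC
  have fE := FX.par (primrec_pow' pB pC)
  have fn1 : FX fun _ n _ => n + 1 :=
    FX.vpow.mono fun a n _ => Nat.le_self_pow (Nat.succ_ne_zero _) _
  have fX : FX fun _ n k => n ^ wS k :=
    FX.vpow.mono fun a n k => (Nat.pow_le_pow_left (Nat.le_succ n) _).trans
      (Nat.pow_le_pow_right (Nat.succ_pos n) (Nat.le_succ_of_le
        (Nat.le_mul_of_pos_right _ (by have := le_tS a; omega))))
  have fn : FX fun a n k => (n ^ wS k) ^ tS a :=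
    FX.vpow.mono fun a n k => by
      rw [← pow_mul]
      exact (Nat.pow_le_pow_left (Nat.le_succ n) _).trans
        (Nat.pow_le_pow_right (Nat.succ_pos n) (Nat.le_succ _))
  have fM := (fK.add fL).add (FX.const 1)
  have fW := fM.mul (fC.mul fE)
  exact (((((((((fL.add (FX.const 2)).add (fK.mul fX)).add (((fX.mul fn).mul fn).mul fW)).add
    (((((FX.const 2).mul fW).add fK).add fL).add (FX.const 2))).add fK).add fX).add fn).add
    fC).add (fM.mul fE)).add ((FX.par p1).add fn1)

theorem exists_boundS : ∃ (g : ℕ → ℕ) (c : ℕ), Primrec g ∧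
    ∀ a n k A, a ≤ k + 1 → exS a k ≤ A → budgetS a n k ≤ g k * (n + 1) ^ (c * A) := by
  obtain ⟨g, c, hg, h⟩ := fx_budgetS
  have hp : Primrec fun k : ℕ =>
      (Nat.rec 0 (fun a acc => acc + g (a, k)) (k + 2) : ℕ) :=
    Primrec.nat_rec' (f := fun k : ℕ => k + 2) (g := fun _ => 0)
      (h := fun k (p : ℕ × ℕ) => p.2 + g (p.1, k))
      (Primrec.nat_add.comp Primrec.id (Primrec.const 2)) (Primrec.const 0)
      (Primrec.nat_add.comp (Primrec.snd.comp Primrec.snd)
        (hg.comp ((Primrec.fst.comp Primrec.snd).pair Primrec.fst))).to₂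
  have he : ∀ k m : ℕ, (Nat.rec 0 (fun a acc => acc + g (a, k)) m : ℕ)
      = ∑ a ∈ range m, g (a, k) := by
    intro k m
    induction m with
    | zero => rfl
    | succ m ih => rw [sum_range_succ, ← ih]
  refine ⟨_, c, hp, fun a n k A h1 h2 => (h a n k).trans (Nat.mul_le_mul ?_
    (Nat.pow_le_pow_right (by omega) (Nat.mul_le_mul_left _ h2)))⟩
  exact (single_le_sum (f := fun a => g (a, k)) (fun _ _ => Nat.zero_le _)
    (mem_range.2 (by omega))).trans (he k (k + 2)).ge

theorem le_budgetS (a n k : ℕ) :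
    r1S a k + (n + 1) + (n ^ wS k) ^ tS a ≤ budgetS a n k := by
  unfold budgetS budG
  omega

theorem exS_le {b β : ℕ} (k : ℕ) (hb : b ≤ β + 1) :
    exS b k ≤ 2 ^ 48 * ((k / 2 ^ sOf k + 1) * (β + 1) ^ 2) := by
  have h2 := wS_le k
  obtain ⟨y, hy⟩ : ∃ y, y = k / 2 ^ sOf k + 1 := ⟨_, rfl⟩
  have h1 : 0 < y := hy ▸ Nat.succ_pos _
  rw [← hy] at h2 ⊢
  have h3 : tS b ≤ 2 ^ 43 * (β + 1) ^ 2 := by
    have a1 : (b + 30) ^ 2 ≤ (31 * (β + 1)) ^ 2 := Nat.pow_le_pow_left (by omega) 2
    have a2 : b + 30 ≤ (b + 30) ^ 2 := Nat.le_self_pow (by omega) _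
    have a3 : (b + 30) * sS b = 65536 * (b + 30) ^ 2 := by unfold sS; ring
    rw [mul_pow] at a1
    unfold tS uS
    rw [a3]
    unfold sS
    omega
  have h4 := Nat.mul_le_mul h2 h3
  have h5 : 0 < y * (β + 1) ^ 2 := by positivity
  have h6 : 2 * y * (2 ^ 43 * (β + 1) ^ 2) = 2 ^ 44 * (y * (β + 1) ^ 2) := by ring
  unfold exS
  omega

/-- writing the budget of a round in unary -/
theorem rt_budgetS {ι : Type} {s : ι → ℕ} (a : ι → ℕ) (I : ι → Inst)
    (hs : ∀ i, budgetS (a i) (I i).n (I i).k ≤ s i) :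
    PB s (fun i => size (a i, code (I i).n (I i).G (I i).k)) ∧
    RT s (fun i => (a i, code (I i).n (I i).G (I i).k))
      (fun i => (List.replicate (budgetS (a i) (I i).n (I i).k) (),
        a i, code (I i).n (I i).G (I i).k)) := by
  have hb := fun i => (le_budgetS (a i) (I i).n (I i).k).trans (hs i)
  have b1 : PB s fun i => r1S (a i) (I i).k := PB.self.mono (fun i => by have := hb i; omega)
  have b0 : PB s fun i => r0S (a i) (I i).k := b1.mono (fun i => by unfold r1S; omega)
  have b2 : PB s fun i => budgetS (a i) (I i).n (I i).k := PB.self.mono hs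
  have ba : PB s a := b0.mono (fun i => by unfold r0S; omega)
  have bk : PB s fun i => (I i).k := b0.mono (fun i => by
    have := (le_pS (I i).k).1
    unfold r0S
    omega)
  have bn : PB s fun i => (I i).n := PB.self.mono (fun i => by have := hb i; omega)
  have hx : PB s fun i => size (a i, code (I i).n (I i).G (I i).k) :=
    (((((PB.const 4).mul ba).add (PB.const 1)).add
      (((PB.const 4).mul (pb_code bn bk)).add (PB.const 1))).add (PB.const 1)).mono (fun i => by
        have h1 := size_nat_le (a i)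
        have h2 := size_bits_le (code (I i).n (I i).G (I i).k)
        rw [size_pair]
        omega)
  have hn := pt_nOf
  have hr := pt_restOf
  have en : ∀ I : Inst, nOf (code I.n I.G I.k) = I.n := fun I => by rw [code_eq, nOf_eq]
  have ek : ∀ I : Inst, nOf (restOf (code I.n I.G I.k)) = I.k := fun I => by
    rw [code_eq, restOf_eq, nOf_eq]
  have s0 := ((RT.of_PT (f := fun p : ℕ × List Bool => (r0S p.1 (nOf (restOf p.2)), p))
    (by fun_prop) hx).of_eq (z := fun i => (r0S (a i) (I i).k, a i, code (I i).n (I i).G (I i).k))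
      (fun i => by simp only [ek])).trans (RT.expand b0 hx)
  have s1 := (s0.trans ((RT.of_PT (f := fun p : List Unit × ℕ × List Bool =>
    (r1ST p.1 p.2.1 (nOf (restOf p.2.2)), p.2)) (by fun_prop) (s0.size_le hx)).of_eq
      (z := fun i => (r1S (a i) (I i).k, a i, code (I i).n (I i).G (I i).k))
      (fun i => by simp only [ek]; rw [r1ST_eq (by simp)]))).trans (RT.expand b1 hx)
  have s2 := (s1.trans ((RT.of_PT (f := fun p : List Unit × ℕ × List Bool =>
    (budgetST p.1 p.2.1 (nOf p.2.2) (nOf (restOf p.2.2)), p.2)) (by fun_prop)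
      (s1.size_le hx)).of_eq
      (z := fun i => (budgetS (a i) (I i).n (I i).k, a i, code (I i).n (I i).G (I i).k))
      (fun i => by simp only [ek, en]; rw [budgetST_eq _ (by simp)]))).trans (RT.expand b2 hx)
  exact ⟨hx, s2⟩

/-- the test that ends the search -/
def stopS (fl : Bool) (L : ℕ) (out : List Bool) : Bool :=
  fl || !out.headD false || Nat.ble (out.tail.count true) L

/-- one round -/
theorem rt_roundS {ι : Type} {s : ι → ℕ} (M : BTM) (w : List Bool) (a : ι → ℕ) (I : ι → Inst)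
    (hs : ∀ i, budgetS (a i) (I i).n (I i).k ≤ s i) (out : ι → List Bool) {t : ι → ℕ}
    (ht : PB s t) (b : ι → Bool)
    (hM : ∀ i, M.Out (w ++ redS (List.replicate (budgetS (a i) (I i).n (I i).k) ()) (a i)
      (I i).n (I i).k (matOf (I i).n (I i).G)) (out i) (t i)) :
    RT s (fun i => (a i, b i, code (I i).n (I i).G (I i).k))
      (fun i => (!stopS (Nat.ble (I i).k (wS (I i).k * tS (a i)))
        (2 ^ a i * kS (I i).k) (out i), a i + 1,
        (bif Nat.ble (I i).k (wS (I i).k * tS (a i)) then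
          bruteT (List.replicate (budgetS (a i) (I i).n (I i).k) ()) (I i).n (I i).k
            (matOf (I i).n (I i).G) else (out i).headD false), code (I i).n (I i).G (I i).k)) := by
  obtain ⟨hx, r1⟩ := rt_budgetS a I hs
  have hn := pt_nOf
  have hr := pt_restOf
  have en : ∀ I : Inst, nOf (code I.n I.G I.k) = I.n := fun I => by rw [code_eq, nOf_eq]
  have ek : ∀ I : Inst, nOf (restOf (code I.n I.G I.k)) = I.k := fun I => by
    rw [code_eq, restOf_eq, nOf_eq]
  have em : ∀ I : Inst, restOf (restOf (code I.n I.G I.k)) = matOf I.n I.G := fun I => by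
    rw [code_eq, restOf_eq, restOf_eq]
  have hin : PB s fun i => size (a i, b i, code (I i).n (I i).G (I i).k) :=
    (hx.add (PB.const 4)).mono (fun i => by
      have := size_bool (b i)
      simp only [size_pair]
      omega)
  have r0 := (RT.of_PT (f := fun p : ℕ × Bool × List Bool => (p.1, p.2.2)) (by fun_prop)
    hin).trans r1
  have r2 := r0.trans ((RT.of_PT (f := fun p : List Unit × ℕ × List Bool =>
    (w ++ redS p.1 p.2.1 (nOf p.2.2) (nOf (restOf p.2.2)) (restOf (restOf p.2.2)),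
      bruteT p.1 (nOf p.2.2) (nOf (restOf p.2.2)) (restOf (restOf p.2.2)),
      Nat.ble (nOf (restOf p.2.2)) (vT p.1 (nOf (restOf p.2.2)) * tS p.2.1),
      pw p.1 2 p.2.1 * kT p.1 (nOf (restOf p.2.2)), p.2))
    (by fun_prop) (r0.size_le hin)).of_eq
    (z := fun i => (w ++ redS (List.replicate (budgetS (a i) (I i).n (I i).k) ()) (a i)
      (I i).n (I i).k (matOf (I i).n (I i).G),
      bruteT (List.replicate (budgetS (a i) (I i).n (I i).k) ()) (I i).n (I i).k
        (matOf (I i).n (I i).G), Nat.ble (I i).k (wS (I i).k * tS (a i)),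
        2 ^ a i * kS (I i).k, a i, code (I i).n (I i).G (I i).k))
    (fun i => by
      have h1 := le_budgetS (a i) (I i).n (I i).k
      unfold r1S r0S at h1
      simp only [en, ek, em]
      obtain ⟨-, e1, e2, -⟩ := par_eq (k := (I i).k)
        (U := List.replicate (budgetS (a i) (I i).n (I i).k) ())
        (by rw [List.length_replicate]; omega)
      rw [e1, e2, pw_eq _ (by rw [List.length_replicate]; omega)]))
  have hz := r2.size_le hin
  have r3 := r2.trans (rt_oracle M ht (hz.mono (fun i => by rw [size_pair]; omega))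
    (hz.mono (fun i => by rw [size_pair (w ++ _)]; omega)) hM)
  exact r3.trans (RT.of_PT (f := fun p : List Bool × Bool × Bool × ℕ × ℕ × List Bool =>
    (!stopS p.2.2.1 p.2.2.2.1 p.1, p.2.2.2.2.1 + 1,
      (bif p.2.2.1 then p.2.1 else p.1.headD false), p.2.2.2.2.2))
    (by unfold stopS; fun_prop) (r3.size_le hin))

theorem mainS (ε : ℕ → ℝ) (w : List Bool)
    (h : SolvableFPT w fun n G k => ApproxAnswer (ε k) n G k) :
    SolvableExp (fun k => (k / 2 ^ sOf k + 1) *
      (Nat.clog 2 (⌈ε (kS k)⌉₊ + 1) + 1) ^ 2) GapCliqueAnswer := by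
  classical
  obtain ⟨tm, e₀, e₁, f, c, hfin, hf, hA⟩ := h
  let M : BTM := ⟨tm, e₀, e₁, hfin⟩
  obtain ⟨g, d, hg, hb⟩ := exists_boundS
  have hred := fun (I : Inst) (a : ℕ) => redS_correct I.k a I.G
    (U := List.replicate (budgetS a I.n I.k) ()) (by simp)
  choose N H hN hcode hcor using hred
  have hout := fun (I : Inst) (a : ℕ) => hA (N I a) (H I a) (kS I.k)
  choose out hgood hrun using hout
  set β : ℕ → ℕ := fun k => Nat.clog 2 (⌈ε (kS k)⌉₊ + 1) with hβ
  set A : ℕ → ℕ := fun k => (k / 2 ^ sOf k + 1) * (β k + 1) ^ 2 with hAdef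
  set stop : Inst → ℕ → Bool := fun I a =>
    stopS (Nat.ble I.k (wS I.k * tS a)) (2 ^ a * kS I.k) (out I a) with hstop
  have hstopk : ∀ I : Inst, 0 < I.k + 1 ∧ stop I (I.k + 1) = true := by
    intro I
    have h1 : I.k ≤ wS I.k * tS (I.k + 1) := by
      have := Nat.le_mul_of_pos_left (tS (I.k + 1)) (wS_pos I.k)
      have := le_tS (I.k + 1)
      omega
    exact ⟨Nat.succ_pos _, by simp [hstop, stopS, h1]⟩
  have hstopA : ∀ I : Inst, 0 < β I.k + 1 ∧ stop I (β I.k + 1) = true := by
    intro I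
    refine ⟨Nat.succ_pos _, ?_⟩
    rcases hgood I (β I.k + 1) with ⟨S, -, hcard, he⟩ | ⟨he, -⟩
    · have h0 : ⌈ε (kS I.k)⌉₊ + 1 ≤ 2 ^ (β I.k + 1) :=
        (Nat.le_pow_clog one_lt_two _).trans (Nat.pow_le_pow_right two_pos (Nat.le_succ _))
      have h1 : 1 + ε (kS I.k) ≤ ((2 ^ (β I.k + 1) : ℕ) : ℝ) := by
        have := Nat.le_ceil (ε (kS I.k))
        have h2 : ((⌈ε (kS I.k)⌉₊ + 1 : ℕ) : ℝ) ≤ ((2 ^ (β I.k + 1) : ℕ) : ℝ) :=
          Nat.cast_le.2 h0
        rw [Nat.cast_add, Nat.cast_one] at h2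
        linarith
      have h2 : (S.card : ℝ) ≤ (2 ^ (β I.k + 1) : ℕ) * (kS I.k : ℕ) :=
        hcard.trans (mul_le_mul_of_nonneg_right h1 (Nat.cast_nonneg _))
      have h3 : S.card ≤ 2 ^ (β I.k + 1) * kS I.k := by exact_mod_cast h2
      simp only [hstop]
      rw [he, stopS, List.tail_cons, count_indicator, Nat.ble_eq_true_of_le h3, Bool.or_true]
    · simp only [hstop]
      rw [he]
      simp [stopS]
  have hex : ∀ I : Inst, ∃ a, 0 < a ∧ stop I a = true := fun I => ⟨_, hstopk I⟩
  set R : Inst → ℕ := fun I => Nat.find (hex I) with hR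
  have hR0 : ∀ I, 0 < R I := fun I => (Nat.find_spec (hex I)).1
  have hR1 : ∀ I, R I ≤ I.k + 1 := fun I => Nat.find_min' (hex I) (hstopk I)
  have hR2 : ∀ I, R I ≤ β I.k + 1 := fun I => Nat.find_min' (hex I) (hstopA I)
  obtain ⟨d', hd'⟩ : ∃ d', d' = d * 2 ^ 48 := ⟨_, rfl⟩
  set s : Inst → ℕ := fun I => (g I.k + f (kS I.k)) * (I.n + 1) ^ (d' * A I.k) with hs
  have hs1 : ∀ I a, a ≤ R I → budgetS a I.n I.k ≤ s I := fun I a h1 => by
    have := hb a I.n I.k _ (h1.trans (hR1 I)) (exS_le I.k (h1.trans (hR2 I)))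
    rw [← mul_assoc, ← hd'] at this
    exact this.trans (Nat.mul_le_mul_right _ (Nat.le_add_right _ _))
  have hs2 : ∀ I, f (kS I.k) ≤ s I := fun I =>
    (Nat.le_add_left _ _).trans (Nat.le_mul_of_pos_right _ (pow_pos (Nat.succ_pos _) _))
  have hb1 := fun I : Inst => (le_budgetS 0 I.n I.k).trans (hs1 I 0 (Nat.zero_le _))
  have bk : PB s fun I => I.k := PB.self.mono (fun I => by
    have := (le_pS I.k).1
    have := hb1 I
    unfold r1S r0S at this
    omega)
  have bn : PB s fun I => I.n := PB.self.mono (fun I => by have := hb1 I; omega)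
  have hlen := pb_code (I := fun I => I) bn bk
  have hx : PB s fun I => size (code I.n I.G I.k) :=
    (((PB.const 4).mul hlen).add (PB.const 1)).mono (fun I => size_bits_le _)
  set v : Inst → ℕ → Bool := fun I a => bif Nat.ble I.k (wS I.k * tS a) then
    bruteT (List.replicate (budgetS a I.n I.k) ()) I.n I.k (matOf I.n I.G)
      else (out I a).headD false with hv
  have rl := rt_loop (s := s)
    (fun I i => (i + 1, (if i = 0 then false else v I i), code I.n I.G I.k)) R
    ((bk.add (PB.const 1)).mono hR1) hR0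
    ((rt_roundS M w (fun p : {p : Inst × ℕ // p.2 < R p.1} => p.1.2 + 1) (fun p => p.1.1)
      (fun p => hs1 _ _ p.2) (fun p => out p.1.1 (p.1.2 + 1))
      (t := fun p => s p.1.1 * (3 * s p.1.1 + 1) ^ c)
      (PB.self.mul ((((PB.const 3).mul PB.self).add (PB.const 1)).pow c))
      (fun p => if p.1.2 = 0 then false else v p.1.1 p.1.2) (fun p => by
        rw [hcode]
        refine BTM.Out.mono (M := M) (hrun p.1.1 (p.1.2 + 1)) (Nat.mul_le_mul (hs2 _)
          (Nat.pow_le_pow_left ?_ c))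
        have h1 := hN p.1.1 (p.1.2 + 1)
        have h2 := hs1 p.1.1 (p.1.2 + 1) p.2
        omega)).of_eq (fun p => by
      obtain ⟨⟨I, i⟩, hp⟩ := p
      dsimp only at hp ⊢
      rw [if_neg (Nat.succ_ne_zero i)]
      congr 1
      rcases Nat.lt_or_ge (i + 1) (R I) with h1 | h1
      · have := Nat.find_min (hex I) h1
        simp only [Nat.succ_pos, true_and, Bool.not_eq_true] at this
        change (!stop I (i + 1)) = _
        simp [this, h1]
      · have e : i + 1 = R I := by omega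
        have := (Nat.find_spec (hex I)).2
        change (!stop I (i + 1)) = _
        rw [e]
        simp only [hR] at this ⊢
        simp [this]))
  have r0 : RT s (fun I => code I.n I.G I.k)
      (fun I => (true, 0 + 1, (if (0 : ℕ) = 0 then false else v I 0), code I.n I.G I.k)) :=
    (RT.of_PT (f := fun x : List Bool => (true, 1, false, x)) (by fun_prop) hx).of_eq
      (fun I => by simp)
  have r1 := r0.trans rl
  have r2 := r1.trans ((RT.of_PT (f := fun p : ℕ × Bool × List Bool => [p.2.1]) (by fun_prop)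
    (r1.size_le hx)).of_eq (z := fun I => [v I (R I)]) (fun I => by
      dsimp only
      rw [if_neg (hR0 I).ne']))
  obtain ⟨M', t, ⟨p, hp⟩, -, hM'⟩ := r2.exists_btm hlen
  obtain ⟨c₁, e, hc₁⟩ := poly_le p
  refine ⟨M'.tm, M'.e₀, M'.e₁, fun k => c₁ * (g k + f (kS k) + 1) ^ e, d' * e, M'.fin, ?_,
    fun n G k => ⟨[v ⟨n, G, k⟩ (R ⟨n, G, k⟩)], ?_, (hM' ⟨n, G, k⟩).mono ?_⟩⟩
  · exact Primrec.nat_mul.to_comp.comp (Computable.const c₁)
      ((Primrec₂.unpaired'.1 Nat.Primrec.pow).to_comp.comp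
        (Primrec.nat_add.to_comp.comp (Primrec.nat_add.to_comp.comp hg.to_comp
          (hf.comp primrec_kS.to_comp)) (Computable.const 1)) (Computable.const e))
  · have hst : stop ⟨n, G, k⟩ (R ⟨n, G, k⟩) = true := (Nat.find_spec (hex ⟨n, G, k⟩)).2
    generalize R ⟨n, G, k⟩ = a at hst
    simp only [hv]
    simp only [hstop] at hst
    rcases Nat.lt_or_ge (wS k * tS a) k with hak | hak
    · have hble : Nat.ble k (wS k * tS a) = false := by
        rw [← Bool.not_eq_true, Nat.ble_eq]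
        omega
      obtain ⟨hyes, hno⟩ := hcor ⟨n, G, k⟩ a hak
      rw [hble, cond_false]
      rcases hgood ⟨n, G, k⟩ a with ⟨S, hS, -, he⟩ | ⟨he, hnone⟩
      · rw [he, stopS, hble, List.tail_cons, count_indicator] at hst
        rw [he]
        exact Or.inl ⟨rfl, hno S hS (by simpa using hst)⟩
      · rw [he]
        exact Or.inr ⟨rfl, fun hc => hnone (hyes hc)⟩
    · rw [Nat.ble_eq_true_of_le hak, cond_true]
      have h1 := le_budgetS a n k
      have hbr := bruteT_iff (U := List.replicate (budgetS a n k) ()) (k := k) G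
        (by
          rw [List.length_replicate]
          have := (le_pS k).1
          unfold r1S r0S at h1
          omega)
        (by
          rw [List.length_replicate]
          have h2 : 1 ≤ budgetS a n k := by omega
          rw [← pow_mul] at h1
          rcases Nat.eq_zero_or_pos n with rfl | hn
          · have := Nat.pow_le_pow_left (show 0 ≤ 1 by omega) k
            rw [one_pow] at this
            omega
          · have := Nat.pow_le_pow_right hn hak
            omega)
      cases hb' : bruteT (List.replicate (budgetS a n k) ()) n k (matOf n G)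
      · exact Or.inr ⟨rfl, fun hc => by rw [hbr.2 hc] at hb'; exact absurd hb' (by simp)⟩
      · obtain ⟨S, h2, h3⟩ := hbr.1 hb'
        exact Or.inl ⟨rfl, S, h2, by omega⟩
  · refine (hp _).trans ((hc₁ _).trans ?_)
    have h1 : 0 < (n + 1) ^ (d' * A k) := pow_pos (Nat.succ_pos _) _
    have h2 : s ⟨n, G, k⟩ + 1 ≤ (g k + f (kS k) + 1) * (n + 1) ^ (d' * A k) := by
      simp only [hs]
      rw [add_mul _ 1]
      omega
    calc c₁ * (s ⟨n, G, k⟩ + 1) ^ e
        ≤ c₁ * ((g k + f (kS k) + 1) * (n + 1) ^ (d' * A k)) ^ e :=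
          Nat.mul_le_mul_left _ (Nat.pow_le_pow_left h2 e)
      _ = c₁ * (g k + f (kS k) + 1) ^ e * (n + 1) ^ (d' * e * A k) := by
          rw [mul_pow, ← pow_mul, ← mul_assoc, mul_right_comm d']

theorem mainS' (ε : ℕ → ℝ) (w : List Bool)
    (h : SolvableFPT w fun n G k => ApproxAnswer (ε k) n G k) :
    SolvableExp (fun k => (k / 2 ^ Nat.sqrt (Nat.log 2 k / 10) + 1) *
      (Nat.clog 2 (⌈ε (10 * Nat.sqrt (Nat.log 2 k / 10) * 2 ^ Nat.sqrt (Nat.log 2 k / 10))⌉₊ + 1)
        + 1) ^ 2) GapCliqueAnswer := by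
  simpa only [kS, sOf, mul_comm (2 ^ _)] using mainS ε w h

end Pool.Agent.P.MP_8c536d_lc
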